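import Pool.Agent.Helper9.GP.DegSt

/-!
# Gilbert-Pollak, chapter DEG, module CPL: the polygon cut off by a geodesic
-/

set_option autoImplicit false

namespace Pool.Agent.Helper18.GP

open Relation Classical

variable {N : ℕ}

private theorem side_cpl (hSide : dgSide) {n : ℕ} (ih : IH N n) {V : Finset (Fin N)}
    {G G' : SimpleGraph (Fin N)} {P : Fin N → ℂ} (hT' : IsTri V G') (hS' : St V G' P)
    (hI : Iso V G G' P) {a b : Fin N} (ha : a ∈ V) (hb : b ∈ V) (hadj : G'.Adj a b)
    (hc : (Arc V a b).card < n) {A' : Finset (Fin N)} {F' : Fin N → Fin N → Prop}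
    (hFA : FA (Arc V a b) A' F') :
    rho * Mst (Arc V a b) (dV V G P) F' ≤ Ln V G P A' := by
  have h := hSide N n ih V G' P hT' (Wk_of_St hS') a ha b hb hadj hc A' F' hFA
  have h1 : Mst (Arc V a b) (dV V G' P) F' = Mst (Arc V a b) (dV V G P) F' :=
    Mst_congr F' fun u hu v hv => hI.1 u (Arc_sub _ _ _ hu) v (Arc_sub _ _ _ hv)
  have h2 : Ln V G' P A' = Ln V G P A' := hI.2 A' (hFA.AV.trans (Arc_sub _ _ _))
  rw [h1, h2] at h
  exact h

private theorem Crs_self_cpl (a b : Fin N) : ¬ Crs a b a b := by
  rintro (h | h)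
  · have := h.1.1
    rw [cyc_self] at this
    exact lt_irrefl _ this
  · have := h.1.2
    exact lt_irrefl _ this

private theorem ci_cpl (hCI : stCI) {V : Finset (Fin N)} {G : SimpleGraph (Fin N)}
    {P : Fin N → ℂ} (hT : IsTri V G) (hS : St V G P) {a b : Fin N} (ha : a ∈ V) (hb : b ∈ V)
    (hab : a ≠ b) (hcl : Clear V G P a b) :
    ∃ G', IsTri V G' ∧ St V G' P ∧ Iso V G G' P ∧ G'.Adj a b := by
  obtain ⟨G', h1, h2, h3, h4, -⟩ := hCI N V G P hT hS {(a, b)}
    (by
      intro e he
      rw [Finset.mem_singleton] at he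
      subst he
      exact ⟨ha, hb, hab, hcl⟩)
    (by
      intro e he f hf
      rw [Finset.mem_singleton] at he hf
      subst he
      subst hf
      exact Crs_self_cpl a b)
  exact ⟨G', h1, h2, h3, h4 (a, b) (Finset.mem_singleton_self _)⟩

private theorem seg_mem_cpl {V : Finset (Fin N)} {G : SimpleGraph (Fin N)} {a b : Fin N}
    (ha : a ∈ V) (hb : b ∈ V) (hadj : G.Adj a b) {t : ℝ} (h0 : 0 ≤ t) (h1 : t ≤ 1) :
    seg a b t ∈ Pts V G := by
  have hne : ∀ v, seg a b t v ≠ 0 → v = a ∨ v = b := by
    intro v hv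
    by_contra h
    push Not at h
    apply hv
    unfold seg dl
    rw [Pi.single_eq_of_ne h.1, Pi.single_eq_of_ne h.2]
    ring
  refine ⟨?_, ?_, ?_, ?_⟩
  · intro v
    have ha' := (dl_mem G ha).1 v
    have hb' := (dl_mem G hb).1 v
    show 0 ≤ (1 - t) * dl a v + t * dl b v
    have : 0 ≤ 1 - t := by linarith
    positivity
  · have ha' := (dl_mem G ha).2.1
    have hb' := (dl_mem G hb).2.1
    show ∑ v, ((1 - t) * dl a v + t * dl b v) = 1
    rw [Finset.sum_add_distrib, ← Finset.mul_sum, ← Finset.mul_sum, ha', hb']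
    ring
  · intro v hv
    rcases hne v hv with rfl | rfl
    · exact ha
    · exact hb
  · intro u v hu hv huv
    rcases hne u hu with rfl | rfl <;> rcases hne v hv with rfl | rfl
    · exact absurd rfl huv
    · exact hadj
    · exact hadj.symm
    · exact absurd rfl huv

private theorem dl_ne_cpl {a v : Fin N} (h : (dl a v : ℝ) ≠ 0) : v = a := by
  by_contra hv
  apply h
  unfold dl
  exact Pi.single_eq_of_ne hv 1

/-- the distance from an end of an edge to a point of the edge is at most the length -/
private theorem seg_le_cpl {V : Finset (Fin N)} {G : SimpleGraph (Fin N)} {P : Fin N → ℂ}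
    (hM : MetP V G P) {a b : Fin N} (ha : a ∈ V) (hb : b ∈ V) (hadj : G.Adj a b) {t : ℝ}
    (h0 : 0 ≤ t) (h1 : t ≤ 1) :
    dK V G P (dl b) (seg a b t) ≤ dV V G P b a := by
  have hne : ∀ v, seg a b t v ≠ 0 → v = a ∨ v = b := by
    intro v hv
    by_contra h
    push Not at h
    apply hv
    unfold seg dl
    rw [Pi.single_eq_of_ne h.1, Pi.single_eq_of_ne h.2]
    ring
  have hsh : Sh G (dl b) (seg a b t) := by
    intro u v hu hv huv
    have hu' : u = a ∨ u = b := by
      rcases hu with h | h
      · exact Or.inr (dl_ne_cpl h)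
      · exact hne u h
    have hv' : v = a ∨ v = b := by
      rcases hv with h | h
      · exact Or.inr (dl_ne_cpl h)
      · exact hne v h
    rcases hu' with rfl | rfl <;> rcases hv' with rfl | rfl
    · exact absurd rfl huv
    · exact hadj
    · exact hadj.symm
    · exact absurd rfl huv
  have hsh' : Sh G (dl b) (dl a) := by
    intro u v hu hv huv
    have hu' : u = b ∨ u = a := by
      rcases hu with h | h
      · exact Or.inl (dl_ne_cpl h)
      · exact Or.inr (dl_ne_cpl h)
    have hv' : v = b ∨ v = a := by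
      rcases hv with h | h
      · exact Or.inl (dl_ne_cpl h)
      · exact Or.inr (dl_ne_cpl h)
    rcases hu' with rfl | rfl <;> rcases hv' with rfl | rfl
    · exact absurd rfl huv
    · exact hadj.symm
    · exact hadj
    · exact absurd rfl huv
  have hdev : dev P (seg a b t) = (1 - t : ℝ) * P a + (t : ℝ) * P b := by
    have : dev P (seg a b t) = (1 - t : ℝ) * dev P (dl a) + (t : ℝ) * dev P (dl b) := by
      unfold dev seg
      rw [Finset.mul_sum, Finset.mul_sum, ← Finset.sum_add_distrib]
      apply Finset.sum_congr rfl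
      intro v _
      push_cast
      ring
    rw [this, dev_dl, dev_dl]
  unfold dV
  rw [hM.sh _ (dl_mem G hb) _ (seg_mem_cpl ha hb hadj h0 h1) hsh,
    hM.sh _ (dl_mem G hb) _ (dl_mem G ha) hsh', hdev, dev_dl, dev_dl]
  have e1 : P b - (((1 - t : ℝ) : ℂ) * P a + ((t : ℝ) : ℂ) * P b) =
      ((1 - t : ℝ) : ℂ) * (P b - P a) := by
    push_cast
    ring
  rw [e1, norm_mul, Complex.norm_real, Real.norm_eq_abs, abs_of_nonneg (by linarith : 0 ≤ 1 - t)]
  have := norm_nonneg (P b - P a)
  nlinarith

private theorem main_cpl (hSide : dgSide) (hMet : stMet) (hPos : stPos) (hGlue : stGlue)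
    (hCI : stCI) (hPinch : stPinch) (hWedge : stWedge) (hApex : stApex) {n : ℕ} (ih : IH N n)
    {V : Finset (Fin N)} {G : SimpleGraph (Fin N)} {P : Fin N → ℂ} (hT : IsTri V G)
    (hS : St V G P) (h3 : 3 ≤ V.card) (m : ℕ) :
    ∀ x ∈ V, ∀ z ∈ V, x ≠ z → (Arc V z x).card = m → (Arc V z x).card < n →
      ∀ (A : Finset (Fin N)) (F : Fin N → Fin N → Prop), FA (Arc V z x) A F →
      (∀ u ∈ V, Ccw x u z → dV V G P x z < dV V G P x u + dV V G P u z) →
      rho * Mst (Arc V z x) (dV V G P) F ≤ Ln V G P A := by
  have hM := hMet N V G P hT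
  have hpos := hPos N V G P hT hS (St_ne hApex hT hS h3)
  have hnn : ∀ a ∈ V, ∀ b ∈ V, 0 ≤ dV V G P a b := fun a ha b hb =>
    hM.nonneg _ (dl_mem G ha) _ (dl_mem G hb)
  have hsy : ∀ a ∈ V, ∀ b ∈ V, dV V G P a b = dV V G P b a := fun a ha b hb =>
    hM.symm _ (dl_mem G ha) _ (dl_mem G hb)
  have htri : ∀ a ∈ V, ∀ b ∈ V, ∀ c ∈ V, dV V G P a c ≤ dV V G P a b + dV V G P b c :=
    fun a ha b hb c hc => hM.tri _ (dl_mem G ha) _ (dl_mem G hb) _ (dl_mem G hc)
  have hpp : ∀ a ∈ V, ∀ b ∈ V, a ≠ b → 0 < dV V G P a b := by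
    intro a ha b hb hab
    rcases (hnn a ha b hb).lt_or_eq with h | h
    · exact h
    · exact absurd (dl_inj (hpos _ (dl_mem G ha) _ (dl_mem G hb) h.symm)) hab
  induction m using Nat.strong_induction_on with
  | _ m IHm =>
    intro x hx z hz hxz hcm hcn A F hFA hyp
    by_cases hΓ : ∃ u ∈ V, u ≠ x ∧ u ≠ z ∧ dV V G P x u + dV V G P u z ≤ dV V G P x z
    swap
    · -- clear chord
      have hcl : Clear V G P x z := by
        intro u hu hux huz
        by_contra hcon
        exact hΓ ⟨u, hu, hux, huz, not_lt.1 hcon⟩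
      obtain ⟨G', hT', hS', hI, hadj⟩ := ci_cpl hCI hT hS hx hz hxz hcl
      exact side_cpl hSide ih hT' hS' hI hz hx hadj.symm hcn hFA
    · obtain ⟨g, hg, hmin⟩ := Finset.exists_min_image
        (V.filter fun u => u ≠ x ∧ u ≠ z ∧ dV V G P x u + dV V G P u z ≤ dV V G P x z)
        (fun u => dV V G P x u) (by
          obtain ⟨u, hu, h⟩ := hΓ
          exact ⟨u, Finset.mem_filter.2 ⟨hu, h⟩⟩)
      rw [Finset.mem_filter] at hg
      obtain ⟨hgV, hgx, hgz, hgd⟩ := hg
      have hxg := hpp x hx g hgV (Ne.symm hgx)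
      have hgz' := hpp g hgV z hz hgz
      have hclear : Clear V G P x g := by
        intro u hu hux hug
        by_contra hcon
        rw [not_lt] at hcon
        have t1 := htri u hu g hgV z hz
        have hud : dV V G P x u + dV V G P u z ≤ dV V G P x z := by linarith
        have huz : u ≠ z := by
          rintro rfl
          have := hnn u hu g hgV
          linarith
        have hmin' := hmin u (Finset.mem_filter.2 ⟨hu, hux, huz, hud⟩)
        have := hpp u hu g hgV hug
        linarith
      obtain ⟨G', hT', hS', hI, hadj⟩ := ci_cpl hCI hT hS hx hgV (Ne.symm hgx) hclear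
      have hnotC : ∀ u ∈ V, u ≠ x → u ≠ z → ¬ Ccw x u z → Ccw z u x := by
        intro u hu hux huz hn
        rcases mem_Arc_or (V := V) (a := z) (c := x) hxz hu with h | h
        · rw [mem_Arc] at h
          refine ⟨cyc_pos.2 huz, lt_of_le_of_ne h.2 ?_⟩
          intro he
          exact hux (cyc_inj he)
        · rw [mem_Arc] at h
          exact absurd ⟨cyc_pos.2 hux, lt_of_le_of_ne h.2 fun he => huz (cyc_inj he)⟩ hn
      have hCzgx : Ccw z g x := by
        apply hnotC g hgV hgx hgz
        intro h
        have := hyp g hgV h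
        linarith
      have hz1 : 0 < cyc z g := hCzgx.1
      have hz2 : cyc z g < cyc z x := hCzgx.2
      have hzN := cyc_lt z x
      -- the pair g, z
      have hyp' : ∀ u ∈ V, Ccw g u z → dV V G P g z < dV V G P g u + dV V G P u z := by
        intro u hu hC
        by_contra hcon
        rw [not_lt] at hcon
        have hug : u ≠ g := cyc_pos.1 hC.1
        have huz : u ≠ z := by
          rintro rfl
          exact lt_irrefl _ hC.2
        have hgu := hpp g hgV u hu (Ne.symm hug)
        have hux : u ≠ x := by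
          rintro rfl
          have := hnn g hgV u hu
          linarith
        have hn : ¬ Ccw x u z := by
          intro h
          have t0 := hyp u hu h
          have t1 := htri x hx g hgV u hu
          linarith
        have hCz := hnotC u hu hux huz hn
        have hzu1 : cyc z g < cyc z u := by
          by_contra hlt
          rw [not_lt] at hlt
          rcases hlt.lt_or_eq with h | h
          · have e1 := cyc_change_gt h
            have e2 := cyc_back (a := z) (b := g) hgz
            have h4 := hC.2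
            omega
          · exact hug (cyc_inj h)
        have hzu2 : cyc z u < cyc z x := hCz.2
        have e1 : cyc g u = cyc z u - cyc z g := cyc_change_le hzu1.le
        have e2 : cyc g x = cyc z x - cyc z g := cyc_change_le hz2.le
        have e3 : cyc x z = N - cyc z x := cyc_back hxz
        have e4 : cyc x g = cyc z g + N - cyc z x := cyc_change_gt hz2
        have huA : u ∈ Arc V g x := mem_Arc.2 ⟨hu, by omega⟩
        have hzA : z ∈ Arc V x g := mem_Arc.2 ⟨hz, by omega⟩
        have hGl := hGlue N V G' P hT' g hgV x hx hadj.symm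
        have hM' := hMet N V G' P hT'
        obtain ⟨t, ht, hcr⟩ := hGl.cross _ (dl_mem G' huA) _ (dl_mem G' hzA)
        have hξ : seg g x t ∈ Pts V G' := seg_mem_cpl hgV hx hadj.symm ht.1 ht.2
        have s1 : dK V G' P (dl x) (seg g x t) ≤ dV V G' P x g :=
          seg_le_cpl hM' hgV hx hadj.symm ht.1 ht.2
        have s2 := hM'.tri _ (dl_mem G' hx) _ hξ _ (dl_mem G' hz)
        have s3 := hM'.nonneg _ (dl_mem G' hu) _ hξ
        have i1 : dK V G' P (dl x) (dl z) = dV V G P x z := hI.1 x hx z hz
        have i2 : dK V G' P (dl u) (dl z) = dV V G P u z := hI.1 u hu z hz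
        have i3 : dV V G' P x g = dV V G P x g := hI.1 x hx g hgV
        rw [i1] at s2
        rw [i2] at hcr
        rw [i3] at s1
        linarith
      -- the two arcs
      have a1 : Arc (Arc V z x) z g = Arc V z g := by
        ext v
        simp only [mem_Arc]
        constructor
        · rintro ⟨⟨h1, -⟩, h2⟩
          exact ⟨h1, h2⟩
        · rintro ⟨h1, h2⟩
          exact ⟨⟨h1, by omega⟩, h2⟩
      have hgx' : cyc g x = cyc z x - cyc z g := cyc_change_le hz2.le
      have a2' : ∀ v, cyc g v ≤ cyc g x → cyc z g ≤ cyc z v ∧ cyc z v ≤ cyc z x := by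
        intro v hv
        by_cases h : cyc z g ≤ cyc z v
        · have := cyc_change_le h
          omega
        · have := cyc_change_gt (not_le.1 h)
          omega
      have a2 : Arc (Arc V z x) g x = Arc V g x := by
        ext v
        simp only [mem_Arc]
        constructor
        · rintro ⟨⟨h1, -⟩, h2⟩
          exact ⟨h1, h2⟩
        · rintro ⟨h1, h2⟩
          exact ⟨⟨h1, (a2' v h2).2⟩, h2⟩
      have c1 : (Arc V z g).card < (Arc V z x).card := by
        apply Finset.card_lt_card
        rw [Finset.ssubset_iff_of_subset]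
        · refine ⟨x, right_mem_Arc hx, ?_⟩
          rw [mem_Arc]
          rintro ⟨-, h⟩
          omega
        · intro v hv
          rw [mem_Arc] at hv ⊢
          exact ⟨hv.1, by omega⟩
      have c2 : (Arc V g x).card < (Arc V z x).card := by
        apply Finset.card_lt_card
        rw [Finset.ssubset_iff_of_subset]
        · refine ⟨z, left_mem_Arc hz, ?_⟩
          rw [mem_Arc]
          rintro ⟨-, h⟩
          have := (a2' z h).1
          rw [cyc_self] at this
          omega
        · intro v hv
          rw [mem_Arc] at hv ⊢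
          exact ⟨hv.1, (a2' v hv.2).2⟩
      have bz : ∀ (A₁ : Finset (Fin N)) (F₁ : Fin N → Fin N → Prop), FA (Arc V z g) A₁ F₁ →
          rho * Mst (Arc V z g) (dV V G P) F₁ ≤ Ln V G P A₁ := by
        intro A₁ F₁ h
        exact IHm (Arc V z g).card (by omega) g hgV z hz hgz rfl (by omega) A₁ F₁ h hyp'
      have bx : ∀ (A₂ : Finset (Fin N)) (F₂ : Fin N → Fin N → Prop), FA (Arc V g x) A₂ F₂ →
          rho * Mst (Arc V g x) (dV V G P) F₂ ≤ Ln V G P A₂ := by
        intro A₂ F₂ h
        exact side_cpl hSide ih hT' hS' hI hgV hx hadj.symm (by omega) h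
      have hr : 0 ≤ rho := by
        unfold rho
        positivity
      have hgS : g ∈ Arc V z x := mem_Arc.2 ⟨hgV, hz2.le⟩
      obtain ⟨w1, w2, w3⟩ := hWedge N (Arc V z x) A F (dV V G P)
        (fun a ha b hb => ⟨hnn a (Arc_sub _ _ _ ha) b (Arc_sub _ _ _ hb),
          hsy a (Arc_sub _ _ _ ha) b (Arc_sub _ _ _ hb)⟩) hFA z (left_mem_Arc hz) g hgS x
        (right_mem_Arc hx) hCzgx (fun v hv => (mem_Arc.1 hv).2)
      rw [a1] at w1 w2
      rw [a2] at w1 w3
      have hsplit : ∀ v ∈ A, v ∈ Arc V z g ∨ v ∈ Arc V g x := by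
        intro v hv
        have hv' := mem_Arc.1 (hFA.AV hv)
        by_cases h : cyc z v ≤ cyc z g
        · exact Or.inl (mem_Arc.2 ⟨hv'.1, h⟩)
        · right
          have := cyc_change_le (not_le.1 h).le
          exact mem_Arc.2 ⟨hv'.1, by omega⟩
      by_cases n1 : (A ∩ Arc V z g).Nonempty
      · by_cases n2 : (A ∩ Arc V g x).Nonempty
        · have hdd : dV V G P z x = dV V G P z g + dV V G P g x := by
            have t := htri x hx g hgV z hz
            rw [hsy z hz x hx, hsy z hz g hgV, hsy g hgV x hx]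
            linarith
          have hp := hPinch N V G P hT z hz g hgV x hx hCzgx hdd A hFA.AV n1 n2
          obtain ⟨F₁, F₂, f1, f2, f3⟩ := w1
          have b1 := bz _ _ f1
          have b2 := bx _ _ f2
          have : rho * Mst (Arc V z x) (dV V G P) F ≤
              rho * (Mst (Arc V z g) (dV V G P) F₁ + Mst (Arc V g x) (dV V G P) F₂) :=
            mul_le_mul_of_nonneg_left f3 hr
          linarith
        · have hsub : A ⊆ Arc V z g := by
            intro v hv
            rcases hsplit v hv with h | h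
            · exact h
            · exact absurd ⟨v, Finset.mem_inter.2 ⟨hv, h⟩⟩ n2
          obtain ⟨F₁, f1, f3⟩ := w2 hsub
          have b1 := bz _ _ f1
          have := mul_le_mul_of_nonneg_left f3 hr
          linarith
      · have hsub : A ⊆ Arc V g x := by
          intro v hv
          rcases hsplit v hv with h | h
          · exact absurd ⟨v, Finset.mem_inter.2 ⟨hv, h⟩⟩ n1
          · exact h
        obtain ⟨F₂, f1, f3⟩ := w3 hsub
        have b1 := bx _ _ f1
        have := mul_le_mul_of_nonneg_left f3 hr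
        linarith

theorem t_dgCPL (h1 : dgSide) (h2 : stMet) (h3 : stPos) (h4 : stGlue) (h5 : stCI)
    (h6 : stPinch) (h7 : stWedge) (h8 : stApex) : dgCPL := by
  intro N n ih V G P hT hS hc x hx z hz hxz hcn A F hFA hyp
  exact main_cpl h1 h2 h3 h4 h5 h6 h7 h8 ih hT hS hc _ x hx z hz hxz rfl hcn A F hFA hyp

end Pool.Agent.Helper18.GP
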