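import Pool.Agent.Helper9.GP.DegSt

/-!
# Gilbert-Pollak, chapter DEG, module fan
-/

namespace Pool.Agent.Helper18.GP

open Relation Classical

variable {N : ℕ}

private theorem dl_supp_fan {v w : Fin N} (h : dl v w ≠ 0) : w = v := by
  by_contra hne
  exact h (by unfold dl; rw [Pi.single_eq_of_ne hne])

private theorem seg_supp_fan {v u w : Fin N} {r : ℝ} (h : seg v u r w ≠ 0) : w = v ∨ w = u := by
  by_contra hne
  push Not at hne
  apply h
  unfold seg dl
  rw [Pi.single_eq_of_ne hne.1, Pi.single_eq_of_ne hne.2]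
  ring

private theorem seg_mem_fan {V : Finset (Fin N)} {G : SimpleGraph (Fin N)} {v u : Fin N}
    (hv : v ∈ V) (hu : u ∈ V) (h : G.Adj v u) {r : ℝ} (h0 : 0 ≤ r) (h1 : r ≤ 1) :
    seg v u r ∈ Pts V G := by
  have d1 := dl_mem G hv
  have d2 := dl_mem G hu
  refine ⟨?_, ?_, ?_, ?_⟩
  · intro w
    exact add_nonneg (mul_nonneg (by linarith) (d1.1 w)) (mul_nonneg h0 (d2.1 w))
  · unfold seg
    rw [Finset.sum_add_distrib, ← Finset.mul_sum, ← Finset.mul_sum, d1.2.1, d2.2.1]
    ring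
  · intro w hw
    rcases seg_supp_fan hw with rfl | rfl
    · exact hv
    · exact hu
  · intro a b ha hb hab
    rcases seg_supp_fan ha with rfl | rfl <;> rcases seg_supp_fan hb with rfl | rfl
    · exact absurd rfl hab
    · exact h
    · exact h.symm
    · exact absurd rfl hab

private theorem dev_seg_fan (P : Fin N → ℂ) (v u : Fin N) (r : ℝ) :
    dev P (seg v u r) = P v + (r : ℂ) * (P u - P v) := by
  have h1 := dev_dl P v
  have h2 := dev_dl P u
  unfold dev at h1 h2 ⊢
  have : ∑ w, ((seg v u r w : ℝ) : ℂ) * P w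
      = (1 - (r : ℂ)) * ∑ w, ((dl v w : ℝ) : ℂ) * P w + (r : ℂ) * ∑ w, ((dl u w : ℝ) : ℂ) * P w := by
    rw [Finset.mul_sum, Finset.mul_sum, ← Finset.sum_add_distrib]
    apply Finset.sum_congr rfl
    intro w _
    unfold seg
    push_cast
    ring
  rw [this, h1, h2]
  ring

private theorem theta_fan (theta : ℂ →ₗ[ℝ] ℝ) (z : ℂ) :
    theta z = z.re * theta 1 + z.im * theta Complex.I := by
  have : z = z.re • (1 : ℂ) + z.im • Complex.I := by
    apply Complex.ext <;> simp
  conv_lhs => rw [this]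
  rw [map_add, map_smul, map_smul, smul_eq_mul, smul_eq_mul]

private theorem ident_fan (theta : ℂ →ₗ[ℝ] ℝ) (p u s : ℂ) :
    theta u * crs p s = theta s * crs p u + theta p * crs u s := by
  rw [theta_fan theta u, theta_fan theta s, theta_fan theta p]
  unfold crs
  ring

private theorem plucker_fan (c u c' : ℂ) :
    ((crs u c' : ℝ) : ℂ) * c + ((crs c u : ℝ) : ℂ) * c' = ((crs c c' : ℝ) : ℂ) * u := by
  apply Complex.ext
  · simp only [Complex.add_re, Complex.mul_re, Complex.ofReal_re, Complex.ofReal_im, zero_mul,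
      sub_zero]
    unfold crs
    ring
  · simp only [Complex.add_im, Complex.mul_im, Complex.ofReal_re, Complex.ofReal_im, zero_mul,
      add_zero]
    unfold crs
    ring

/-- the setting -/
private structure Fan (V : Finset (Fin N)) (G : SimpleGraph (Fin N)) (P : Fin N → ℂ)
    (theta : ℂ →ₗ[ℝ] ℝ) (v : Fin N) : Prop where
  apex : stApex
  hT : IsTri V G
  hS : St V G P
  hM : MetP V G P
  hv : v ∈ V
  hle : ∀ u ∈ V, G.Adj v u → theta (P u - P v) ≤ 0
  hne : ∃ z, theta z ≠ 0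

variable {V : Finset (Fin N)} {G : SimpleGraph (Fin N)} {P : Fin N → ℂ}
  {theta : ℂ →ₗ[ℝ] ℝ} {v : Fin N}

/-- consecutive neighbours -/
private theorem fan0 (F : Fan V G P theta v) {p s : Fin N} (hp : p ∈ V) (hs : s ∈ V)
    (ap : G.Adj v p) (as : G.Adj v s) (hps : cyc v p < cyc v s)
    (hno : ∀ u ∈ V, G.Adj v u → ¬ (cyc v p < cyc v u ∧ cyc v u < cyc v s)) :
    G.Adj p s ∧ 0 < crs (P p - P v) (P s - P v) := by
  have k1 : 0 < cyc v p := cyc_pos.2 ap.ne.symm
  have k2 : Ccw v p s := ⟨k1, hps⟩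
  obtain ⟨y, ⟨hy, hc, a1, a2⟩, -⟩ := F.apex N V G F.hT v F.hv s hs as ⟨p, hp, k2⟩
  have k3 : cyc v y ≤ cyc v p := by
    by_contra hcon
    exact hno y hy a1 ⟨not_le.1 hcon, hc.2⟩
  rcases k3.lt_or_eq with h | h
  · exfalso
    exact F.hT.nc v F.hv p hp y hy s hs ap a2 (Or.inl ⟨⟨hc.1, h⟩, k2⟩)
  · have : y = p := cyc_inj h
    subst this
    exact ⟨a2, F.hS v F.hv y hy s hs k2 ap a2 as⟩

/-- an inner neighbour is strictly below -/
private theorem fan1 (F : Fan V G P theta v) {c u c' : Fin N} (hc : c ∈ V) (hu : u ∈ V)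
    (hc' : c' ∈ V) (ac : G.Adj v c) (au : G.Adj v u) (ac' : G.Adj v c')
    (h1 : cyc v c < cyc v u) (h2 : cyc v u < cyc v c') : theta (P u - P v) < 0 := by
  obtain ⟨p, hp, hpm⟩ := Finset.exists_max_image
    (V.filter fun w => G.Adj v w ∧ cyc v w < cyc v u) (fun w => cyc v w)
    ⟨c, Finset.mem_filter.2 ⟨hc, ac, h1⟩⟩
  obtain ⟨s, hs, hsm⟩ := Finset.exists_min_image
    (V.filter fun w => G.Adj v w ∧ cyc v u < cyc v w) (fun w => cyc v w)
    ⟨c', Finset.mem_filter.2 ⟨hc', ac', h2⟩⟩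
  rw [Finset.mem_filter] at hp hs
  obtain ⟨hpV, ap, hpu⟩ := hp
  obtain ⟨hsV, as, hus⟩ := hs
  have c1 := (fan0 F hpV hu ap au hpu (by
    rintro w hw aw ⟨q1, q2⟩
    have := hpm w (Finset.mem_filter.2 ⟨hw, aw, q2⟩)
    omega)).2
  have c2 := (fan0 F hu hsV au as hus (by
    rintro w hw aw ⟨q1, q2⟩
    have := hsm w (Finset.mem_filter.2 ⟨hw, aw, q1⟩)
    omega)).2
  refine lt_of_le_of_ne (F.hle u hu au) ?_
  intro h0
  have id := ident_fan theta (P p - P v) (P u - P v) (P s - P v)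
  rw [h0, zero_mul] at id
  have n1 : theta (P s - P v) * crs (P p - P v) (P u - P v) ≤ 0 :=
    mul_nonpos_of_nonpos_of_nonneg (F.hle s hsV as) c1.le
  have n2 : theta (P p - P v) * crs (P u - P v) (P s - P v) ≤ 0 :=
    mul_nonpos_of_nonpos_of_nonneg (F.hle p hpV ap) c2.le
  have n3 : theta (P p - P v) * crs (P u - P v) (P s - P v) = 0 := by linarith
  have n4 : theta (P p - P v) = 0 := by
    rcases mul_eq_zero.1 n3 with h | h
    · exact h
    · exact absurd h c2.ne'
  obtain ⟨z, hz⟩ := F.hne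
  apply hz
  have id2 := ident_fan theta (P p - P v) z (P u - P v)
  rw [h0, n4, zero_mul, zero_mul, add_zero] at id2
  rcases mul_eq_zero.1 id2 with h | h
  · exact h
  · exact absurd h c1.ne'

/-- length of a broken segment -/
private theorem seglen_fan {x y z : ℂ} {l : ℝ} (h0 : 0 ≤ l) (h1 : l ≤ 1)
    (hz : z = ((1 - l : ℝ) : ℂ) * x + (l : ℂ) * y) : ‖x - z‖ + ‖z - y‖ = ‖x - y‖ := by
  have e1 : x - z = (l : ℂ) * (x - y) := by rw [hz]; push_cast; ring
  have e2 : z - y = ((1 - l : ℝ) : ℂ) * (x - y) := by rw [hz]; push_cast; ring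
  rw [e1, e2, norm_mul, norm_mul, Complex.norm_real, Complex.norm_real, Real.norm_eq_abs,
    Real.norm_eq_abs, abs_of_nonneg h0, abs_of_nonneg (by linarith : 0 ≤ 1 - l)]
  ring

private theorem fan2 (F : Fan V G P theta v) (n : ℕ) : ∀ c ∈ V, ∀ c' ∈ V, G.Adj v c →
    G.Adj v c' → cyc v c < cyc v c' →
    (theta (P c - P v) < 0 ∨ theta (P c' - P v) < 0) →
    (V.filter fun u => G.Adj v u ∧ cyc v c < cyc v u ∧ cyc v u < cyc v c').card = n →
    0 < crs (P c - P v) (P c' - P v) ∧ ∃ ε : ℝ, 0 < ε ∧ ε ≤ 1 ∧ ∀ r r' : ℝ, 0 < r → r < ε →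
      0 < r' → r' < ε →
      dK V G P (seg v c r) (seg v c' r') ≤
        ‖(r : ℂ) * (P c - P v) - (r' : ℂ) * (P c' - P v)‖ := by
  induction n using Nat.strong_induction_on with
  | _ n IH =>
  intro c hc c' hc' ac ac' hcc hth hn
  by_cases hex : ∃ u ∈ V, G.Adj v u ∧ cyc v c < cyc v u ∧ cyc v u < cyc v c'
  · obtain ⟨u, hu, au, hcu, huc⟩ := hex
    have hthu := fan1 F hc hu hc' ac au ac' hcu huc
    have lt1 : (V.filter fun w => G.Adj v w ∧ cyc v c < cyc v w ∧ cyc v w < cyc v u).card < n := by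
      rw [← hn]
      apply Finset.card_lt_card
      rw [Finset.ssubset_iff_of_subset]
      · refine ⟨u, Finset.mem_filter.2 ⟨hu, au, hcu, huc⟩, ?_⟩
        rw [Finset.mem_filter]
        rintro ⟨_, _, _, h⟩
        exact lt_irrefl _ h
      · intro w hw
        rw [Finset.mem_filter] at hw ⊢
        exact ⟨hw.1, hw.2.1, hw.2.2.1, hw.2.2.2.trans huc⟩
    have lt2 : (V.filter fun w => G.Adj v w ∧ cyc v u < cyc v w ∧ cyc v w < cyc v c').card < n := by
      rw [← hn]
      apply Finset.card_lt_card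
      rw [Finset.ssubset_iff_of_subset]
      · refine ⟨u, Finset.mem_filter.2 ⟨hu, au, hcu, huc⟩, ?_⟩
        rw [Finset.mem_filter]
        rintro ⟨_, _, h, _⟩
        exact lt_irrefl _ h
      · intro w hw
        rw [Finset.mem_filter] at hw ⊢
        exact ⟨hw.1, hw.2.1, hcu.trans hw.2.2.1, hw.2.2.2⟩
    obtain ⟨ha, ε₁, e1, e1', I1⟩ := IH _ lt1 c hc u hu ac au hcu (Or.inr hthu) rfl
    obtain ⟨hb, ε₂, e2, e2', I2⟩ := IH _ lt2 u hu c' hc' au ac' huc (Or.inl hthu) rfl
    obtain ⟨a, ha'⟩ : ∃ a, a = crs (P c - P v) (P u - P v) := ⟨_, rfl⟩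
    obtain ⟨b, hb'⟩ : ∃ b, b = crs (P u - P v) (P c' - P v) := ⟨_, rfl⟩
    obtain ⟨k, hk'⟩ : ∃ k, k = crs (P c - P v) (P c' - P v) := ⟨_, rfl⟩
    rw [← ha'] at ha
    rw [← hb'] at hb
    have hk : 0 < k := by
      have id := ident_fan theta (P c - P v) (P u - P v) (P c' - P v)
      rw [← ha', ← hb', ← hk'] at id
      have t1 := F.hle c hc ac
      have t2 := F.hle c' hc' ac'
      have neg : theta (P c' - P v) * a + theta (P c - P v) * b < 0 := by
        rcases hth with h | h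
        · have := mul_nonpos_of_nonpos_of_nonneg t2 ha.le
          have := mul_neg_of_neg_of_pos h hb
          linarith
        · have := mul_nonpos_of_nonpos_of_nonneg t1 hb.le
          have := mul_neg_of_neg_of_pos h ha
          linarith
      rw [← id] at neg
      by_contra hcon
      have := mul_nonneg_of_nonpos_of_nonpos hthu.le (not_lt.1 hcon)
      linarith
    refine ⟨by rw [← hk']; exact hk, ?_⟩
    have hm : 0 < min ε₁ ε₂ := lt_min e1 e2
    refine ⟨min (min ε₁ ε₂) (min ε₁ ε₂ * b / k), lt_min hm (by positivity),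
      le_trans (min_le_left _ _) (le_trans (min_le_left _ _) e1'), ?_⟩
    intro r r' r0 r1 r0' r1'
    have m1 := lt_of_lt_of_le r1 (min_le_left _ _)
    have m2 := lt_of_lt_of_le r1' (min_le_left _ _)
    have m3 := lt_of_lt_of_le r1 (min_le_right _ _)
    have hD : 0 < r * a + r' * b := by positivity
    obtain ⟨D, hD'⟩ : ∃ D, D = r * a + r' * b := ⟨_, rfl⟩
    rw [← hD'] at hD
    obtain ⟨s, hs⟩ : ∃ s, s = r * r' * k / D := ⟨_, rfl⟩
    have s0 : 0 < s := by rw [hs]; positivity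
    have s1 : s < min ε₁ ε₂ := by
      have q1 : s ≤ r * k / b := by
        rw [hs, div_le_div_iff₀ hD hb, hD']
        have : 0 ≤ r * k * (r * a) := by positivity
        nlinarith
      have q2 : r * k / b < min ε₁ ε₂ := by
        rw [div_lt_iff₀ hb]
        rw [lt_div_iff₀ hk] at m3
        exact m3
      exact lt_of_le_of_lt q1 q2
    have J1 := I1 r s r0 (lt_of_lt_of_le m1 (min_le_left _ _)) s0
      (lt_of_lt_of_le s1 (min_le_left _ _))
    have J2 := I2 s r' s0 (lt_of_lt_of_le s1 (min_le_right _ _)) r0'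
      (lt_of_lt_of_le m2 (min_le_right _ _))
    have c1 : seg v c r ∈ Pts V G := seg_mem_fan F.hv hc ac r0.le
      ((lt_of_lt_of_le m1 (min_le_left _ _)).le.trans e1')
    have c2 : seg v u s ∈ Pts V G := seg_mem_fan F.hv hu au s0.le
      ((lt_of_lt_of_le s1 (min_le_left _ _)).le.trans e1')
    have c3 : seg v c' r' ∈ Pts V G := seg_mem_fan F.hv hc' ac' r0'.le
      ((lt_of_lt_of_le m2 (min_le_left _ _)).le.trans e1')
    have tr := F.hM.tri _ c1 _ c2 _ c3
    have pl := plucker_fan (P c - P v) (P u - P v) (P c' - P v)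
    rw [← ha', ← hb', ← hk'] at pl
    have hz : (s : ℂ) * (P u - P v) = ((1 - r * a / D : ℝ) : ℂ) * ((r : ℂ) * (P c - P v)) +
        ((r * a / D : ℝ) : ℂ) * ((r' : ℂ) * (P c' - P v)) := by
      have hDc : (D : ℂ) ≠ 0 := by exact_mod_cast hD.ne'
      have e3 : (1 - r * a / D : ℝ) = r' * b / D := by
        rw [eq_div_iff hD.ne', sub_mul, div_mul_cancel₀ _ hD.ne', hD']; ring
      rw [e3, hs]
      push_cast
      field_simp
      linear_combination (-(r : ℂ) * (r' : ℂ)) * pl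
    have sl := seglen_fan (x := (r : ℂ) * (P c - P v)) (y := (r' : ℂ) * (P c' - P v))
      (z := (s : ℂ) * (P u - P v)) (l := r * a / D) (by positivity)
      (by rw [div_le_one hD, hD']; have : 0 < r' * b := by positivity
          linarith) hz
    linarith
  · -- consecutive neighbours
    obtain ⟨acc, hcr⟩ := fan0 F hc hc' ac ac' hcc (by
      rintro u hu au ⟨q1, q2⟩
      exact hex ⟨u, hu, au, q1, q2⟩)
    refine ⟨hcr, 1, one_pos, le_refl _, ?_⟩
    intro r r' r0 r1 r0' r1'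
    have c1 : seg v c r ∈ Pts V G := seg_mem_fan F.hv hc ac r0.le r1.le
    have c3 : seg v c' r' ∈ Pts V G := seg_mem_fan F.hv hc' ac' r0'.le r1'.le
    have sh : Sh G (seg v c r) (seg v c' r') := by
      have key : ∀ w, (seg v c r w ≠ 0 ∨ seg v c' r' w ≠ 0) → w = v ∨ w = c ∨ w = c' := by
        intro w hw
        rcases hw with hw | hw
        · rcases seg_supp_fan hw with h | h
          · exact Or.inl h
          · exact Or.inr (Or.inl h)
        · rcases seg_supp_fan hw with h | h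
          · exact Or.inl h
          · exact Or.inr (Or.inr h)
      intro x y hx hy hxy
      rcases key x hx with rfl | rfl | rfl <;> rcases key y hy with rfl | rfl | rfl <;>
        first
          | exact absurd rfl hxy | exact ac | exact ac' | exact ac.symm | exact ac'.symm
          | exact acc | exact acc.symm
    rw [F.hM.sh _ c1 _ c3 sh, dev_seg_fan, dev_seg_fan]
    apply le_of_eq
    congr 1
    ring

private theorem sh_edge_fan {c : Fin N} (ac : G.Adj v c) (r : ℝ) : Sh G (dl c) (seg v c r) := by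
  have key : ∀ w, (dl c w ≠ 0 ∨ seg v c r w ≠ 0) → w = v ∨ w = c := by
    intro w hw
    rcases hw with hw | hw
    · exact Or.inr (dl_supp_fan hw)
    · exact seg_supp_fan hw
  intro x y hx hy hxy
  rcases key x hx with rfl | rfl <;> rcases key y hy with rfl | rfl
  · exact absurd rfl hxy
  · exact ac
  · exact ac.symm
  · exact absurd rfl hxy

/-- strict triangle inequality for vectors that are not parallel -/
private theorem strict_fan {z w : ℂ} (h : crs z w ≠ 0) : ‖z - w‖ < ‖z‖ + ‖w‖ := by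
  refine lt_of_le_of_ne (norm_sub_le z w) ?_
  intro heq
  apply h
  have hz := norm_nonneg z
  have hw := norm_nonneg w
  have e1 : ‖z - w‖ ^ 2 = (z.re - w.re) ^ 2 + (z.im - w.im) ^ 2 := by
    rw [Complex.sq_norm, Complex.normSq_apply]
    simp only [Complex.sub_re, Complex.sub_im]
    ring
  have e2 : ‖z‖ ^ 2 = z.re ^ 2 + z.im ^ 2 := by
    rw [Complex.sq_norm, Complex.normSq_apply]; ring
  have e3 : ‖w‖ ^ 2 = w.re ^ 2 + w.im ^ 2 := by
    rw [Complex.sq_norm, Complex.normSq_apply]; ring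
  rw [heq] at e1
  have e4 : ‖z‖ * ‖w‖ = -(z.re * w.re + z.im * w.im) := by nlinarith
  have e5 : (‖z‖ * ‖w‖) ^ 2 = (z.re * w.re + z.im * w.im) ^ 2 := by rw [e4]; ring
  rw [mul_pow, e2, e3] at e5
  have : crs z w ^ 2 = 0 := by
    unfold crs
    linear_combination e5
  exact pow_eq_zero_iff (two_ne_zero) |>.1 this

theorem t_dgFan (h1 : stApex) (h2 : stMet) : dgFan := by
  intro N V G P hT hS theta v hv c hc c' hc' ac ac' hcc hle hth
  have hth' : theta (P c - P v) < 0 ∨ theta (P c' - P v) < 0 := by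
    rw [map_sub, map_sub]
    rcases hth with h | h
    · left; linarith
    · right; linarith
  have F : Fan V G P theta v :=
    ⟨h1, hT, hS, h2 N V G P hT, hv, fun u hu au => by
      rw [map_sub]; linarith [hle u hu au], by
      rcases hth' with h | h
      · exact ⟨_, h.ne⟩
      · exact ⟨_, h.ne⟩⟩
  obtain ⟨hcr, ε, e0, e1, hε⟩ := fan2 F _ c hc c' hc' ac ac' hcc.2 hth' rfl
  refine ⟨hcr, ?_⟩
  obtain ⟨r, hr⟩ : ∃ r, r = ε / 2 := ⟨_, rfl⟩
  have r0 : 0 < r := by linarith
  have r1 : r < ε := by linarith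
  have hr1 : r ≤ 1 := by linarith
  have K := hε r r r0 r1 r0 r1
  have c1 : seg v c r ∈ Pts V G := seg_mem_fan hv hc ac r0.le hr1
  have c2 : seg v c' r ∈ Pts V G := seg_mem_fan hv hc' ac' r0.le hr1
  have d1 : dl c ∈ Pts V G := dl_mem G hc
  have d2 : dl c' ∈ Pts V G := dl_mem G hc'
  have t1 := F.hM.tri _ d1 _ c1 _ d2
  have t2 := F.hM.tri _ c1 _ c2 _ d2
  have s1 : dK V G P (dl c) (seg v c r) = (1 - r) * ‖P c - P v‖ := by
    rw [F.hM.sh _ d1 _ c1 (sh_edge_fan ac r), dev_dl, dev_seg_fan]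
    have : P c - (P v + (r : ℂ) * (P c - P v)) = ((1 - r : ℝ) : ℂ) * (P c - P v) := by
      push_cast; ring
    rw [this, norm_mul, Complex.norm_real, Real.norm_eq_abs, abs_of_nonneg (by linarith)]
  have s2 : dK V G P (seg v c' r) (dl c') = (1 - r) * ‖P c' - P v‖ := by
    rw [F.hM.symm _ c2 _ d2, F.hM.sh _ d2 _ c2 (sh_edge_fan ac' r), dev_dl, dev_seg_fan]
    have : P c' - (P v + (r : ℂ) * (P c' - P v)) = ((1 - r : ℝ) : ℂ) * (P c' - P v) := by
      push_cast; ring
    rw [this, norm_mul, Complex.norm_real, Real.norm_eq_abs, abs_of_nonneg (by linarith)]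
  have s3 : ‖(r : ℂ) * (P c - P v) - (r : ℂ) * (P c' - P v)‖ =
      r * ‖(P c - P v) - (P c' - P v)‖ := by
    rw [← mul_sub, norm_mul, Complex.norm_real, Real.norm_eq_abs, abs_of_pos r0]
  rw [s3] at K
  have st := strict_fan hcr.ne'
  have : r * ‖(P c - P v) - (P c' - P v)‖ < r * (‖P c - P v‖ + ‖P c' - P v‖) :=
    mul_lt_mul_of_pos_left st r0
  unfold dV
  rw [s1] at t1
  rw [s2] at t2
  linarith

end Pool.Agent.Helper18.GP
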