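import Pool.Agent.Helper9.GP.DegSt

/-!
# Gilbert-Pollak, chapter DEG, module flat
-/

namespace Pool.Agent.Helper18.GP

open Relation Classical

variable {N : ℕ}

private theorem Ccw_rot_flat {x y z : Fin N} (h : Ccw x y z) : Ccw y z x := by
  have h1 := cyc_lt x y
  have h2 := cyc_lt x z
  have h3 := cyc_self x
  unfold Ccw at h ⊢
  rw [cyc_change x y z, cyc_change x y x]
  split_ifs <;> omega

private theorem coll_flat {z w : ℂ} (hw : w ≠ 0) (h : crs z w = 0) : ∃ s : ℝ, z = s * w := by
  have hn : w.re * w.re + w.im * w.im ≠ 0 := by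
    intro h0
    apply hw
    apply Complex.ext
    · show w.re = 0
      nlinarith [mul_self_nonneg w.re, mul_self_nonneg w.im]
    · show w.im = 0
      nlinarith [mul_self_nonneg w.re, mul_self_nonneg w.im]
  unfold crs at h
  refine ⟨(z.re * w.re + z.im * w.im) / (w.re * w.re + w.im * w.im), ?_⟩
  apply Complex.ext
  · simp only [Complex.mul_re, Complex.ofReal_re, Complex.ofReal_im, zero_mul, sub_zero]
    rw [div_mul_eq_mul_div, eq_div_iff hn]
    linear_combination w.im * h
  · simp only [Complex.mul_im, Complex.ofReal_re, Complex.ofReal_im, zero_mul, add_zero]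
    rw [div_mul_eq_mul_div, eq_div_iff hn]
    linear_combination -w.re * h

/-- a point collinear with two different points and not farther from them than they are apart -/
private theorem between_flat {a b c : ℂ} (hac : a ≠ c) (h : crs (b - a) (c - a) = 0)
    (h1 : ‖a - b‖ ≤ ‖a - c‖) (h2 : ‖b - c‖ ≤ ‖a - c‖) (hb : b ≠ a) (hbc : b ≠ c) :
    ∃ s : ℝ, 0 < s ∧ s < 1 ∧ b = (1 - s : ℝ) * a + (s : ℝ) * c := by
  have hca : c - a ≠ 0 := sub_ne_zero.2 (Ne.symm hac)
  obtain ⟨s, hs⟩ := coll_flat hca h
  have hpos : 0 < ‖a - c‖ := norm_pos_iff.2 (sub_ne_zero.2 hac)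
  have e1 : ‖a - b‖ = |s| * ‖a - c‖ := by
    rw [← norm_neg, neg_sub, hs, norm_mul, Complex.norm_real, Real.norm_eq_abs, norm_sub_rev c a]
  have hb' : b = (1 - s : ℝ) * a + (s : ℝ) * c := by
    push_cast
    linear_combination hs
  have e2 : ‖b - c‖ = |1 - s| * ‖a - c‖ := by
    have : b - c = ((1 - s : ℝ) : ℂ) * (a - c) := by
      rw [hb']; push_cast; ring
    rw [this, norm_mul, Complex.norm_real, Real.norm_eq_abs]
  rw [e1] at h1
  rw [e2] at h2
  have k1 : |s| ≤ 1 := by
    by_contra hcon
    nlinarith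
  have k2 : |1 - s| ≤ 1 := by
    by_contra hcon
    nlinarith
  have k3 := abs_le.1 k1
  have k4 := abs_le.1 k2
  refine ⟨s, ?_, ?_, hb'⟩
  · rcases (show 0 ≤ s by linarith [k4.2]).lt_or_eq with h0 | h0
    · exact h0
    · exfalso
      apply hb
      rw [hb', ← h0]; simp
  · rcases (show s ≤ 1 by linarith [k3.2]).lt_or_eq with h0 | h0
    · exact h0
    · exfalso
      apply hbc
      rw [hb', h0]; simp

private theorem sh_flat {G : SimpleGraph (Fin N)} {x y : Fin N} (h : G.Adj x y) :
    Sh G (dl x) (dl y) := by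
  have key : ∀ u : Fin N, (dl x u ≠ 0 ∨ dl y u ≠ 0) → u = x ∨ u = y := by
    intro u hu
    rcases hu with hu | hu
    · left
      by_contra hne
      exact hu (by unfold dl; rw [Pi.single_eq_of_ne hne])
    · right
      by_contra hne
      exact hu (by unfold dl; rw [Pi.single_eq_of_ne hne])
  intro a b ha hb hab
  rcases key a ha with rfl | rfl <;> rcases key b hb with rfl | rfl
  · exact absurd rfl hab
  · exact h
  · exact h.symm
  · exact absurd rfl hab

private theorem dV_flat (hMet : stMet) {V : Finset (Fin N)} {G : SimpleGraph (Fin N)}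
    {P : Fin N → ℂ} (hT : IsTri V G) {x y : Fin N} (hx : x ∈ V) (hy : y ∈ V) (h : G.Adj x y) :
    dV V G P x y = ‖P x - P y‖ := by
  unfold dV
  rw [(hMet N V G P hT).sh _ (dl_mem G hx) _ (dl_mem G hy) (sh_flat h), dev_dl, dev_dl]

private theorem mem_Trs_flat {V : Finset (Fin N)} {H : SimpleGraph (Fin N)} {x y z : Fin N} :
    (x, y, z) ∈ Trs V H ↔ (x ∈ V ∧ y ∈ V ∧ z ∈ V) ∧ Ccw x y z ∧ H.Adj x y ∧ H.Adj y z ∧
      H.Adj x z := by
  simp [Trs]

private theorem arT_rot_flat (P : Fin N → ℂ) (x y z : Fin N) :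
    arT P (y, z, x) = arT P (x, y, z) := by
  simp only [arT, crs, Complex.sub_re, Complex.sub_im]
  ring

private theorem Trs_rot_flat {V : Finset (Fin N)} {H : SimpleGraph (Fin N)} {x y z : Fin N}
    (h : (x, y, z) ∈ Trs V H) : (y, z, x) ∈ Trs V H := by
  rw [mem_Trs_flat] at h ⊢
  exact ⟨⟨h.1.2.1, h.1.2.2, h.1.1⟩, Ccw_rot_flat h.2.1, h.2.2.2.1, h.2.2.2.2.symm, h.2.2.1.symm⟩

/-- flat triples -/
private noncomputable def Fl (V : Finset (Fin N)) (P : Fin N → ℂ) (H : SimpleGraph (Fin N)) :
    Finset (Fin N × Fin N × Fin N) := (Trs V H).filter fun t => arT P t = 0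

private theorem Fl_rot {V : Finset (Fin N)} {P : Fin N → ℂ} {H : SimpleGraph (Fin N)}
    {x y z : Fin N} (h : (x, y, z) ∈ Fl V P H) : (y, z, x) ∈ Fl V P H := by
  rw [Fl, Finset.mem_filter] at h ⊢
  exact ⟨Trs_rot_flat h.1, by rw [arT_rot_flat]; exact h.2⟩

/-- sum of the squared lengths of the edges -/
private noncomputable def En (V : Finset (Fin N)) (P : Fin N → ℂ) (H : SimpleGraph (Fin N)) : ℝ :=
  ∑ e ∈ (V ×ˢ V).filter (fun e => H.Adj e.1 e.2), ‖P e.1 - P e.2‖ ^ 2

private theorem card_rt3_flat {a b c : Fin N} (h1 : a ≠ b) (h3 : a ≠ c) :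
    (rt3 a b c).card = 3 := by
  rw [rt3, Finset.card_insert_of_notMem, Finset.card_insert_of_notMem, Finset.card_singleton]
  · simp only [Finset.mem_singleton, Prod.mk.injEq]
    rintro ⟨_, rfl, h⟩
    exact h1 h
  · simp only [Finset.mem_insert, Finset.mem_singleton, Prod.mk.injEq]
    rintro (⟨h, _, _⟩ | ⟨h, _, _⟩)
    · exact h1 h
    · exact h3 h

private theorem card_rt3_le_flat (a b c : Fin N) : (rt3 a b c).card ≤ 3 := by
  rw [rt3]
  exact Finset.card_le_three

/-- energy drops -/
private theorem En_flat {V : Finset (Fin N)} {P : Fin N → ℂ} {G G' : SimpleGraph (Fin N)}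
    {a b c d : Fin N} (ha : a ∈ V) (hc : c ∈ V)
    (hac : a ≠ c) (eac : G.Adj a c)
    (nac : ¬ G'.Adj a c)
    (hun : ∀ x ∈ V, ∀ y ∈ V, ¬ ((x = a ∧ y = c) ∨ (x = c ∧ y = a)) →
        ¬ ((x = b ∧ y = d) ∨ (x = d ∧ y = b)) → (G'.Adj x y ↔ G.Adj x y))
    (hlt : ‖P b - P d‖ < ‖P a - P c‖) : En V P G' < En V P G := by
  set D := (V ×ˢ V).filter (fun e => G.Adj e.1 e.2) with hD
  set D' := (V ×ˢ V).filter (fun e => G'.Adj e.1 e.2) with hD'
  set q : Fin N × Fin N → ℝ := fun e => ‖P e.1 - P e.2‖ ^ 2 with hq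
  have hsq : ‖P b - P d‖ ^ 2 < ‖P a - P c‖ ^ 2 := by
    have := norm_nonneg (P b - P d)
    nlinarith
  have s1 : {(a, c), (c, a)} ⊆ D := by
    intro e he
    rw [Finset.mem_insert, Finset.mem_singleton] at he
    rcases he with rfl | rfl
    · simp [hD, ha, hc, eac]
    · simp [hD, ha, hc, eac.symm]
  have s2 : D' ⊆ (D \ {(a, c), (c, a)}) ∪ {(b, d), (d, b)} := by
    rintro ⟨x, y⟩ he
    rw [hD', Finset.mem_filter, Finset.mem_product] at he
    obtain ⟨⟨hx, hy⟩, hxy⟩ := he
    have hxy : G'.Adj x y := hxy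
    have n1 : ¬ ((x = a ∧ y = c) ∨ (x = c ∧ y = a)) := by
      rintro (⟨rfl, rfl⟩ | ⟨rfl, rfl⟩)
      · exact nac hxy
      · exact nac hxy.symm
    rw [Finset.mem_union]
    by_cases n2 : (x = b ∧ y = d) ∨ (x = d ∧ y = b)
    · right
      rw [Finset.mem_insert, Finset.mem_singleton, Prod.mk.injEq, Prod.mk.injEq]
      exact n2
    · left
      rw [Finset.mem_sdiff]
      refine ⟨?_, ?_⟩
      · rw [hD, Finset.mem_filter, Finset.mem_product]
        exact ⟨⟨hx, hy⟩, (hun x hx y hy n1 n2).1 hxy⟩
      · rw [Finset.mem_insert, Finset.mem_singleton, Prod.mk.injEq, Prod.mk.injEq]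
        exact n1
  have e1 : ∑ e ∈ ({(a, c), (c, a)} : Finset (Fin N × Fin N)), q e = 2 * ‖P a - P c‖ ^ 2 := by
    rw [Finset.sum_pair (by rw [Ne, Prod.mk.injEq]; rintro ⟨h, _⟩; exact hac h)]
    simp only [hq]
    rw [norm_sub_rev (P c) (P a)]
    ring
  have e2 : ∑ e ∈ ({(b, d), (d, b)} : Finset (Fin N × Fin N)), q e ≤ 2 * ‖P b - P d‖ ^ 2 := by
    have h0 : ∀ e, 0 ≤ q e := fun e => by positivity
    have : ∑ e ∈ ({(b, d), (d, b)} : Finset (Fin N × Fin N)), q e ≤ q (b, d) + q (d, b) := by
      by_cases h : (b, d) = (d, b)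
      · rw [h, Finset.pair_eq_singleton, Finset.sum_singleton]
        linarith [h0 (d, b)]
      · rw [Finset.sum_pair h]
    refine le_trans this ?_
    simp only [hq]
    rw [norm_sub_rev (P d) (P b)]
    linarith
  have f1 : En V P G = ∑ e ∈ D \ {(a, c), (c, a)}, q e + 2 * ‖P a - P c‖ ^ 2 := by
    unfold En
    rw [← e1, Finset.sum_sdiff s1]
  have f2 : En V P G' ≤ ∑ e ∈ D \ {(a, c), (c, a)}, q e + 2 * ‖P b - P d‖ ^ 2 := by
    unfold En
    calc ∑ e ∈ D', q e ≤ ∑ e ∈ (D \ {(a, c), (c, a)}) ∪ {(b, d), (d, b)}, q e :=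
          Finset.sum_le_sum_of_subset_of_nonneg s2 (fun e _ _ => by positivity)
      _ ≤ ∑ e ∈ D \ {(a, c), (c, a)}, q e +
          ∑ e ∈ ({(b, d), (d, b)} : Finset (Fin N × Fin N)), q e := by
          have := Finset.sum_union_inter (s₁ := D \ {(a, c), (c, a)})
            (s₂ := ({(b, d), (d, b)} : Finset (Fin N × Fin N))) (f := q)
          have h0 : 0 ≤ ∑ e ∈ (D \ {(a, c), (c, a)}) ∩
            ({(b, d), (d, b)} : Finset (Fin N × Fin N)), q e :=
            Finset.sum_nonneg fun e _ => by positivity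
          linarith
      _ ≤ _ := by linarith
  linarith

theorem t_dgFlat (h1 : dgPinch) (h2 : dgFlip) (h3 : stApex) (_h4 : stBdAdj) (h5 : stMet) :
    dgFlat := by
  intro N n ih hn V G P A F hcard hcfg hne
  set S : Set (SimpleGraph (Fin N)) := {H | IsTri V H ∧ Wk V H P ∧ Iso V G H P} with hS
  have hSf : S.Finite := Set.toFinite S
  have hSn : S.Nonempty := ⟨G, hcfg.tri, hcfg.wk, fun _ _ _ _ => rfl, fun _ _ => rfl⟩
  obtain ⟨H, ⟨hT, hW, hI⟩, hmin⟩ := Set.exists_min_image S
    (fun H => toLex ((Fl V P H).card, En V P H)) hSf hSn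
  have hmin' : ∀ H' ∈ S, (Fl V P H').card ≤ (Fl V P H).card → ¬ (En V P H' < En V P H) ∧
      ¬ (Fl V P H').card < (Fl V P H).card := by
    intro H' hH' hle
    have := hmin H' hH'
    rw [Prod.Lex.toLex_le_toLex] at this
    simp only at this
    rcases this with h | ⟨h, h'⟩
    · omega
    · exact ⟨not_lt.2 h', by omega⟩
  have hne' := hne H hT hW hI
  by_cases hfl : (Fl V P H) = ∅
  · -- strictly positive
    right
    refine ⟨H, hT, ?_, hI⟩
    intro x hx y hy z hz hc e1 e2 e3
    refine lt_of_le_of_ne (hW x hx y hy z hz hc e1 e2 e3) ?_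
    intro h0
    have : (x, y, z) ∈ Fl V P H := by
      rw [Fl, Finset.mem_filter, mem_Trs_flat]
      exact ⟨⟨⟨hx, hy, hz⟩, hc, e1, e2, e3⟩, h0.symm⟩
    rw [hfl] at this
    simp at this
  · left
    obtain ⟨⟨a, b, c⟩, htm, hmax⟩ := Finset.exists_max_image (Fl V P H)
      (fun t => ‖P t.1 - P t.2.2‖) (Finset.nonempty_of_ne_empty hfl)
    have hmx : ∀ x y z, (x, y, z) ∈ Fl V P H → ‖P x - P z‖ ≤ ‖P a - P c‖ :=
      fun x y z h => hmax (x, y, z) h
    have htm' := htm
    rw [Fl, Finset.mem_filter, mem_Trs_flat] at htm'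
    obtain ⟨⟨⟨ha, hb, hc⟩, habc, eab, ebc, eac⟩, har⟩ := htm'
    have nab : a ≠ b := eab.ne
    have nac : a ≠ c := eac.ne
    have nbc : b ≠ c := ebc.ne
    have pab := hne' a ha b hb nab eab
    have pac := hne' a ha c hc nac eac
    have pbc := hne' b hb c hc nbc ebc
    have l1 : ‖P a - P b‖ ≤ ‖P a - P c‖ := by
      have := hmx _ _ _ (Fl_rot htm)
      rwa [norm_sub_rev] at this
    have l2 : ‖P b - P c‖ ≤ ‖P a - P c‖ := by
      have := hmx _ _ _ (Fl_rot (Fl_rot htm))
      rwa [norm_sub_rev] at this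
    obtain ⟨s, s0, s1, hs⟩ := between_flat pac har l1 l2 (Ne.symm pab) pbc
    by_cases hex : ∃ v ∈ V, Ccw c v a
    · -- flip
      exfalso
      obtain ⟨d, ⟨hd, ocda, ecd, eda⟩, -⟩ := h3 N V H hT c hc a ha eac.symm hex
      have oacd : Ccw a c d := Ccw_rot_flat (Ccw_rot_flat ocda)
      obtain ⟨A1, A2, H', hT', hW', hI', ebd, nac', nbd, hun, hold, hdis, hTr⟩ :=
        h2 N V H P hT hW a ha b hb c hc d hd habc oacd eab ebc ecd eda eac s ⟨s0.le, s1.le⟩
          0 ⟨le_refl _, zero_le_one⟩ (by rw [hs]; simp)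
      have hS' : H' ∈ S := ⟨hT', hW', fun x hx y hy => (hI'.1 x hx y hy).trans (hI.1 x hx y hy),
        fun B hB => (hI'.2 B hB).trans (hI.2 B hB)⟩
      have har' : arT P (a, b, c) = 0 := har
      rw [har', zero_add] at A1 A2
      have h0 : 0 ≤ arT P (a, c, d) := hW a ha c hc d hd oacd eac ecd eda.symm
      have nad : a ≠ d := eda.ne.symm
      have ncd : c ≠ d := ecd.ne
      rcases h0.lt_or_eq with hpos | hzero
      · -- the number of flat triples drops
        have hsub : Fl V P H' ⊆ (Fl V P H).erase (a, b, c) := by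
          intro t ht
          rw [Fl, Finset.mem_filter, hTr, Finset.mem_union] at ht
          obtain ⟨ht, hta⟩ := ht
          rcases ht with ht | ht
          · rw [Finset.mem_sdiff] at ht
            rw [Finset.mem_erase, Fl, Finset.mem_filter]
            refine ⟨?_, ht.1, hta⟩
            rintro rfl
            apply ht.2
            rw [Finset.mem_union]
            left
            simp [rt3]
          · exfalso
            have B1 : arT P (a, b, d) ≠ 0 := by rw [A1]; positivity
            have B2 : arT P (b, c, d) ≠ 0 := by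
              rw [A2]; exact mul_ne_zero (by linarith) hpos.ne'
            rw [Finset.mem_union, rt3, rt3, Finset.mem_insert, Finset.mem_insert,
              Finset.mem_singleton, Finset.mem_insert, Finset.mem_insert,
              Finset.mem_singleton] at ht
            rcases ht with (rfl | rfl | rfl) | (rfl | rfl | rfl)
            · exact B1 hta
            · rw [arT_rot_flat] at hta; exact B1 hta
            · rw [arT_rot_flat, arT_rot_flat] at hta; exact B1 hta
            · exact B2 hta
            · rw [arT_rot_flat] at hta; exact B2 hta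
            · rw [arT_rot_flat, arT_rot_flat] at hta; exact B2 hta
        have hlt : (Fl V P H').card < (Fl V P H).card :=
          lt_of_le_of_lt (Finset.card_le_card hsub) (Finset.card_erase_lt_of_mem htm)
        exact (hmin' H' hS' hlt.le).2 hlt
      · -- the energy drops
        have hacd : (a, c, d) ∈ Fl V P H := by
          rw [Fl, Finset.mem_filter, mem_Trs_flat]
          exact ⟨⟨⟨ha, hc, hd⟩, oacd, eac, ecd, eda.symm⟩, hzero.symm⟩
        have l3 : ‖P a - P d‖ ≤ ‖P a - P c‖ := hmx _ _ _ hacd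
        have l4 : ‖P d - P c‖ ≤ ‖P a - P c‖ := hmx _ _ _ (Fl_rot (Fl_rot hacd))
        have pad := hne' a ha d hd nad eda.symm
        have pcd := hne' c hc d hd ncd ecd
        have hcr : crs (P d - P a) (P c - P a) = 0 := by
          have : crs (P c - P a) (P d - P a) = 0 := hzero.symm
          simp only [crs] at this ⊢
          linarith
        obtain ⟨u, u0, u1, hu⟩ := between_flat pac hcr l3 l4 (Ne.symm pad) (Ne.symm pcd)
        have hbd : ‖P b - P d‖ < ‖P a - P c‖ := by
          have e : P b - P d = ((s - u : ℝ) : ℂ) * (P c - P a) := by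
            rw [hs, hu]; push_cast; ring
          rw [e, norm_mul, Complex.norm_real, Real.norm_eq_abs, norm_sub_rev (P c) (P a)]
          have hpos : 0 < ‖P a - P c‖ := norm_pos_iff.2 (sub_ne_zero.2 pac)
          have : |s - u| < 1 := by
            rw [abs_lt]; constructor <;> linarith
          nlinarith
        have hEn : En V P H' < En V P H := En_flat ha hc nac eac nac' hun hbd
        have holdF : rt3 a b c ∪ rt3 a c d ⊆ Fl V P H := by
          rw [Finset.union_subset_iff]
          constructor <;> intro t ht <;>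
            rw [rt3, Finset.mem_insert, Finset.mem_insert, Finset.mem_singleton] at ht
          · rcases ht with rfl | rfl | rfl
            · exact htm
            · exact Fl_rot htm
            · exact Fl_rot (Fl_rot htm)
          · rcases ht with rfl | rfl | rfl
            · exact hacd
            · exact Fl_rot hacd
            · exact Fl_rot (Fl_rot hacd)
        have hcard6 : (rt3 a b c ∪ rt3 a c d).card = 6 := by
          rw [Finset.card_union_of_disjoint, card_rt3_flat nab nac, card_rt3_flat nac nad]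
          rw [Finset.disjoint_left]
          intro t ht ht'
          rw [rt3, Finset.mem_insert, Finset.mem_insert, Finset.mem_singleton] at ht ht'
          have nbd' : b ≠ d := ebd.ne
          rcases ht with rfl | rfl | rfl <;> simp only [Prod.mk.injEq] at ht' <;>
            rcases ht' with ⟨q1, q2, q3⟩ | ⟨q1, q2, q3⟩ | ⟨q1, q2, q3⟩ <;>
            first
              | exact nab q1 | exact nac q1 | exact nad q1 | exact nbc q1 | exact nbd' q1
              | exact ncd q1 | exact nab q1.symm | exact nac q1.symm | exact nbc q1.symm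
              | exact nab q2 | exact nac q2 | exact nad q2 | exact nbc q2
        have hsub : Fl V P H' ⊆ (Fl V P H \ (rt3 a b c ∪ rt3 a c d)) ∪
            (rt3 a b d ∪ rt3 b c d) := by
          intro t ht
          rw [Fl, Finset.mem_filter, hTr, Finset.mem_union] at ht
          obtain ⟨ht, hta⟩ := ht
          rw [Finset.mem_union]
          rcases ht with ht | ht
          · left
            rw [Finset.mem_sdiff] at ht ⊢
            exact ⟨by rw [Fl, Finset.mem_filter]; exact ⟨ht.1, hta⟩, ht.2⟩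
          · exact Or.inr ht
        have hle : (Fl V P H').card ≤ (Fl V P H).card := by
          have k1 := Finset.card_le_card hsub
          have k2 := Finset.card_union_le (Fl V P H \ (rt3 a b c ∪ rt3 a c d))
            (rt3 a b d ∪ rt3 b c d)
          have k3 := Finset.card_union_le (rt3 a b d) (rt3 b c d)
          have k4 := card_rt3_le_flat a b d
          have k5 := card_rt3_le_flat b c d
          have k6 := Finset.card_sdiff_add_card_eq_card holdF
          omega
        exact (hmin' H' hS' hle).1 hEn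
    · -- pinch
      have hall : ∀ v ∈ V, cyc a v ≤ cyc a c := by
        intro v hv
        by_contra hcon
        push Not at hcon
        apply hex
        refine ⟨v, hv, ?_⟩
        have h1 := cyc_lt a v
        have h2 : 0 < cyc a c := cyc_pos.2 (Ne.symm nac)
        refine ⟨?_, ?_⟩
        · rw [cyc_change_le hcon.le]; omega
        · rw [cyc_back (Ne.symm nac), cyc_change_le hcon.le]; omega
      have hcfg' : Cfg V H P A F := ⟨hT, hW, hcfg.AV, hcfg.FB, hcfg.cov⟩
      have hd : dV V H P a c = dV V H P a b + dV V H P b c := by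
        rw [dV_flat h5 hT ha hc eac, dV_flat h5 hT ha hb eab, dV_flat h5 hT hb hc ebc]
        have e1 : P a - P b = ((s : ℝ) : ℂ) * (P a - P c) := by
          rw [hs]; push_cast; ring
        have e2 : P b - P c = ((1 - s : ℝ) : ℂ) * (P a - P c) := by
          rw [hs]; push_cast; ring
        rw [e1, e2, norm_mul, norm_mul, Complex.norm_real, Complex.norm_real, Real.norm_eq_abs,
          Real.norm_eq_abs, abs_of_pos s0, abs_of_pos (by linarith : 0 < 1 - s)]
        ring
      have := h1 N n ih V H P A F hcard hcfg' a ha b hb c hc habc hall eab ebc hd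
      rw [Mst_congr F hI.1, hI.2 A hcfg.AV] at this
      exact this

end Pool.Agent.Helper18.GP
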