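import Pool.Agent.Helper9.GP.DegSt

/-!
# Gilbert-Pollak, chapter DEG, module flip
-/

namespace Pool.Agent.Helper18.GP

open Relation Classical

variable {N : ℕ}

/-- cyclic order seen from a base point `o` -/
theorem Ccw_iff_flip (o : Fin N) {x y z : Fin N} : Ccw x y z ↔
    (cyc o x < cyc o y ∧ cyc o y < cyc o z) ∨ (cyc o y < cyc o z ∧ cyc o z < cyc o x) ∨
      (cyc o z < cyc o x ∧ cyc o x < cyc o y) := by
  have h1 := cyc_lt o x
  have h2 := cyc_lt o y
  have h3 := cyc_lt o z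
  unfold Ccw
  rw [cyc_change o x y, cyc_change o x z]
  split_ifs <;> omega

theorem Ccw_rot_flip {x y z : Fin N} (h : Ccw x y z) : Ccw y z x := by
  rw [Ccw_iff_flip x] at h ⊢
  omega

/-- `{x,y} = {p,q}` -/
private def Has (p q x y : Fin N) : Prop := (x = p ∧ y = q) ∨ (x = q ∧ y = p)

private theorem Has.symm' {p q x y : Fin N} (h : Has p q x y) : Has p q y x := by
  rcases h with ⟨h1, h2⟩ | ⟨h1, h2⟩
  · exact Or.inr ⟨h2, h1⟩
  · exact Or.inl ⟨h2, h1⟩

private theorem Has.adj {H : SimpleGraph (Fin N)} {p q x y : Fin N} (h : Has p q x y)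
    (ha : H.Adj x y) : H.Adj p q := by
  rcases h with ⟨rfl, rfl⟩ | ⟨rfl, rfl⟩
  · exact ha
  · exact ha.symm

private theorem mem_Trs_flip {V : Finset (Fin N)} {H : SimpleGraph (Fin N)} {x y z : Fin N} :
    (x, y, z) ∈ Trs V H ↔ (x ∈ V ∧ y ∈ V ∧ z ∈ V) ∧ Ccw x y z ∧ H.Adj x y ∧ H.Adj y z ∧
      H.Adj x z := by
  simp [Trs]

private theorem Trs_rot_flip {V : Finset (Fin N)} {H : SimpleGraph (Fin N)} {x y z : Fin N}
    (h : (x, y, z) ∈ Trs V H) : (y, z, x) ∈ Trs V H := by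
  rw [mem_Trs_flip] at h ⊢
  exact ⟨⟨h.1.2.1, h.1.2.2, h.1.1⟩, Ccw_rot_flip h.2.1, h.2.2.2.1, h.2.2.2.2.symm, h.2.2.1.symm⟩

private theorem rt3_sub_flip {V : Finset (Fin N)} {H : SimpleGraph (Fin N)} {x y z : Fin N}
    (h : (x, y, z) ∈ Trs V H) : rt3 x y z ⊆ Trs V H := by
  intro t ht
  rw [rt3, Finset.mem_insert, Finset.mem_insert, Finset.mem_singleton] at ht
  rcases ht with rfl | rfl | rfl
  · exact h
  · exact Trs_rot_flip h
  · exact Trs_rot_flip (Trs_rot_flip h)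

private theorem rt3_rot_flip (x y z : Fin N) : rt3 y z x = rt3 x y z := by
  ext t
  simp only [rt3, Finset.mem_insert, Finset.mem_singleton]
  constructor
  · rintro (h | h | h)
    · exact Or.inr (Or.inl h)
    · exact Or.inr (Or.inr h)
    · exact Or.inl h
  · rintro (h | h | h)
    · exact Or.inr (Or.inr h)
    · exact Or.inl h
    · exact Or.inr (Or.inl h)

private theorem edge_flip {V : Finset (Fin N)} {H : SimpleGraph (Fin N)} {p q u w : Fin N}
    (hu : ∀ v ∈ V, Ccw p v q → H.Adj p v → H.Adj v q → v = u)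
    (hw : ∀ v ∈ V, Ccw q v p → H.Adj q v → H.Adj v p → v = w) {x y z : Fin N}
    (h : (x, y, z) ∈ Trs V H) (he : Has p q x z) :
    (x, y, z) ∈ rt3 p u q ∪ rt3 q w p := by
  rw [mem_Trs_flip] at h
  obtain ⟨⟨hx, hy, hz⟩, hc, h1, h2, h3⟩ := h
  rcases he with ⟨rfl, rfl⟩ | ⟨rfl, rfl⟩
  · rw [hu y hy hc h1 h2]
    simp [rt3]
  · rw [hw y hy hc h1 h2]
    simp [rt3]

private theorem edges_flip {V : Finset (Fin N)} {H : SimpleGraph (Fin N)} {p q u w : Fin N}
    (hu : ∀ v ∈ V, Ccw p v q → H.Adj p v → H.Adj v q → v = u)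
    (hw : ∀ v ∈ V, Ccw q v p → H.Adj q v → H.Adj v p → v = w) {x y z : Fin N}
    (h : (x, y, z) ∈ Trs V H) (he : Has p q x y ∨ Has p q y z ∨ Has p q x z) :
    (x, y, z) ∈ rt3 p u q ∪ rt3 q w p := by
  have rot : ∀ {x y z : Fin N}, (x, y, z) ∈ rt3 p u q ∪ rt3 q w p →
      (y, z, x) ∈ rt3 p u q ∪ rt3 q w p := by
    intro x y z h
    simp only [rt3, Finset.mem_union, Finset.mem_insert, Finset.mem_singleton,
      Prod.mk.injEq] at h ⊢
    rcases h with (⟨rfl, rfl, rfl⟩ | ⟨rfl, rfl, rfl⟩ | ⟨rfl, rfl, rfl⟩) |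
      (⟨rfl, rfl, rfl⟩ | ⟨rfl, rfl, rfl⟩ | ⟨rfl, rfl, rfl⟩)
    · exact Or.inl (Or.inr (Or.inl ⟨rfl, rfl, rfl⟩))
    · exact Or.inl (Or.inr (Or.inr ⟨rfl, rfl, rfl⟩))
    · exact Or.inl (Or.inl ⟨rfl, rfl, rfl⟩)
    · exact Or.inr (Or.inr (Or.inl ⟨rfl, rfl, rfl⟩))
    · exact Or.inr (Or.inr (Or.inr ⟨rfl, rfl, rfl⟩))
    · exact Or.inr (Or.inl ⟨rfl, rfl, rfl⟩)
  rcases he with he | he | he
  · -- rotate so that `x, y` become first and last
    exact rot (rot (edge_flip hu hw (Trs_rot_flip h) he.symm'))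
  · exact rot (edge_flip hu hw (Trs_rot_flip (Trs_rot_flip h)) he.symm')
  · exact edge_flip hu hw h he

private theorem uniq_flip (hA : stApex) {V : Finset (Fin N)} {H : SimpleGraph (Fin N)}
    (hT : IsTri V H) {p q u : Fin N} (hp : p ∈ V) (hq : q ∈ V) (hpq : H.Adj p q) (hu : u ∈ V)
    (hc : Ccw p u q) (h1 : H.Adj p u) (h2 : H.Adj u q) :
    ∀ v ∈ V, Ccw p v q → H.Adj p v → H.Adj v q → v = u := by
  obtain ⟨c, -, hc'⟩ := hA N V H hT p hp q hq hpq ⟨u, hu, hc⟩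
  intro v hv k1 k2 k3
  rw [hc' v ⟨hv, k1, k2, k3⟩, hc' u ⟨hu, hc, h1, h2⟩]

theorem arT_rot_flip (P : Fin N → ℂ) (x y z : Fin N) : arT P (y, z, x) = arT P (x, y, z) := by
  simp only [arT, crs, Complex.sub_re, Complex.sub_im]
  ring

theorem t_dgFlip (h1 : stFlip) (h2 : stApex) : dgFlip := by
  intro N V G P hT hW a ha b hb c hc d hd habc hacd eab ebc ecd eda eac s hs t ht hO
  have hOr := congrArg Complex.re hO
  have hOi := congrArg Complex.im hO
  simp only [Complex.add_re, Complex.add_im, Complex.mul_re, Complex.mul_im,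
    Complex.ofReal_re, Complex.ofReal_im, zero_mul, sub_zero, add_zero] at hOr hOi
  -- the areas
  have key : (1 - s) * arT P (a, b, d) = s * arT P (b, c, d) := by
    simp only [arT, crs, Complex.sub_re, Complex.sub_im]
    linear_combination ((P b).im - (P d).im) * hOr - ((P b).re - (P d).re) * hOi
  have sum4 : arT P (a, b, d) + arT P (b, c, d) = arT P (a, b, c) + arT P (a, c, d) := by
    simp only [arT, crs, Complex.sub_re, Complex.sub_im]
    ring
  have A1 : arT P (a, b, d) = s * (arT P (a, b, c) + arT P (a, c, d)) := by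
    rw [← sum4]; linear_combination key
  have A2 : arT P (b, c, d) = (1 - s) * (arT P (a, b, c) + arT P (a, c, d)) := by
    rw [← sum4]; linear_combination -key
  refine ⟨A1, A2, ?_⟩
  obtain ⟨G', hT', hI, ebd, nac, hun⟩ := h1 N V G P hT a ha b hb c hc d hd habc hacd eab ebc ecd
    eda eac s hs t ht hO
  have nbd : ¬ G.Adj b d := by
    intro h
    exact hT.nc a ha c hc b hb d hd eac h (Or.inl ⟨habc, hacd⟩)
  -- order facts
  rw [Ccw_iff_flip a] at habc hacd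
  have oabd : Ccw a b d := by rw [Ccw_iff_flip a]; omega
  have obcd : Ccw b c d := by rw [Ccw_iff_flip a]; omega
  have oabc : Ccw a b c := by rw [Ccw_iff_flip a]; omega
  have oacd : Ccw a c d := by rw [Ccw_iff_flip a]; omega
  have odab : Ccw d a b := by rw [Ccw_iff_flip a]; omega
  have ocda : Ccw c d a := by rw [Ccw_iff_flip a]; omega
  have hne : a ≠ b ∧ a ≠ c ∧ a ≠ d ∧ b ≠ c ∧ b ≠ d ∧ c ≠ d :=
    ⟨eab.ne, eac.ne, eda.ne.symm, ebc.ne, ebd.ne, ecd.ne⟩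
  obtain ⟨nab, nac', nad, nbc, nbd', ncd⟩ := hne
  -- unchanged edges
  have un : ∀ x ∈ V, ∀ y ∈ V, ¬ Has a c x y → ¬ Has b d x y → (G'.Adj x y ↔ G.Adj x y) := hun
  have eab' : G'.Adj a b := (un a ha b hb (by rintro (⟨_, h⟩ | ⟨h, _⟩) <;> tauto)
    (by rintro (⟨h, _⟩ | ⟨h, _⟩) <;> tauto)).2 eab
  have ebc' : G'.Adj b c := (un b hb c hc (by
    rintro (⟨h, _⟩ | ⟨h, _⟩)
    · exact nab h.symm
    · exact nbc h) (by
    rintro (⟨_, h⟩ | ⟨h, _⟩)
    · exact ncd h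
    · exact nbd' h)).2 ebc
  have ecd' : G'.Adj c d := (un c hc d hd (by
    rintro (⟨h, _⟩ | ⟨_, h⟩)
    · exact nac' h.symm
    · exact nad h.symm) (by
    rintro (⟨h, _⟩ | ⟨h, _⟩)
    · exact nbc h.symm
    · exact ncd h)).2 ecd
  have eda' : G'.Adj d a := (un d hd a ha (by
    rintro (⟨h, _⟩ | ⟨h, _⟩)
    · exact nad h.symm
    · exact ncd h.symm) (by
    rintro (⟨h, _⟩ | ⟨_, h⟩)
    · exact nbd' h.symm
    · exact nab h)).2 eda
  -- third vertices of the edge `ac` in `G`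
  have E : ∀ {x y z : Fin N}, (x, y, z) ∈ Trs V G → (Has a c x y ∨ Has a c y z ∨ Has a c x z) →
      (x, y, z) ∈ rt3 a b c ∪ rt3 a c d := by
    intro x y z hxyz he
    have := edges_flip (uniq_flip h2 hT ha hc eac hb oabc eab ebc)
      (uniq_flip h2 hT hc ha eac.symm hd ocda ecd eda) hxyz he
    rwa [rt3_rot_flip a c d] at this
  have E' : ∀ {x y z : Fin N}, (x, y, z) ∈ Trs V G' → (Has b d x y ∨ Has b d y z ∨ Has b d x z) →
      (x, y, z) ∈ rt3 a b d ∪ rt3 b c d := by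
    intro x y z hxyz he
    have := edges_flip (uniq_flip h2 hT' hb hd ebd hc obcd ebc' ecd')
      (uniq_flip h2 hT' hd hb ebd.symm ha odab eda' eab') hxyz he
    rwa [← rt3_rot_flip d a b, Finset.union_comm] at this
  have old : rt3 a b c ∪ rt3 a c d ⊆ Trs V G :=
    Finset.union_subset (rt3_sub_flip (mem_Trs_flip.2 ⟨⟨ha, hb, hc⟩, oabc, eab, ebc, eac⟩))
      (rt3_sub_flip (mem_Trs_flip.2 ⟨⟨ha, hc, hd⟩, oacd, eac, ecd, eda.symm⟩))
  have new : rt3 a b d ∪ rt3 b c d ⊆ Trs V G' :=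
    Finset.union_subset (rt3_sub_flip (mem_Trs_flip.2 ⟨⟨ha, hb, hd⟩, oabd, eab', ebd, eda'.symm⟩))
      (rt3_sub_flip (mem_Trs_flip.2 ⟨⟨hb, hc, hd⟩, obcd, ebc', ecd', ebd⟩))
  have dis : Disjoint (rt3 a b d ∪ rt3 b c d) (Trs V G) := by
    rw [Finset.disjoint_left]
    rintro ⟨x, y, z⟩ hx hx'
    rw [mem_Trs_flip] at hx'
    obtain ⟨-, -, k1, k2, k3⟩ := hx'
    simp only [rt3, Finset.mem_union, Finset.mem_insert, Finset.mem_singleton,
      Prod.mk.injEq] at hx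
    rcases hx with (⟨rfl, rfl, rfl⟩ | ⟨rfl, rfl, rfl⟩ | ⟨rfl, rfl, rfl⟩) |
      (⟨rfl, rfl, rfl⟩ | ⟨rfl, rfl, rfl⟩ | ⟨rfl, rfl, rfl⟩)
    · exact nbd k2
    · exact nbd k1
    · exact nbd k3.symm
    · exact nbd k3
    · exact nbd k2.symm
    · exact nbd k1.symm
  have hTr : Trs V G' = (Trs V G \ (rt3 a b c ∪ rt3 a c d)) ∪ (rt3 a b d ∪ rt3 b c d) := by
    ext ⟨x, y, z⟩
    constructor
    · intro h
      rw [Finset.mem_union]
      by_cases he : Has b d x y ∨ Has b d y z ∨ Has b d x z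
      · exact Or.inr (E' h he)
      · left
        have h' := mem_Trs_flip.1 h
        obtain ⟨⟨hx, hy, hz⟩, hc', k1, k2, k3⟩ := h'
        push Not at he
        have m1 : ¬ Has a c x y := fun h => nac (h.adj k1)
        have m2 : ¬ Has a c y z := fun h => nac (h.adj k2)
        have m3 : ¬ Has a c x z := fun h => nac (h.adj k3)
        rw [Finset.mem_sdiff]
        refine ⟨mem_Trs_flip.2 ⟨⟨hx, hy, hz⟩, hc', (un x hx y hy m1 he.1).1 k1,
          (un y hy z hz m2 he.2.1).1 k2, (un x hx z hz m3 he.2.2).1 k3⟩, ?_⟩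
        intro hm
        simp only [rt3, Finset.mem_union, Finset.mem_insert, Finset.mem_singleton,
          Prod.mk.injEq] at hm
        rcases hm with (⟨rfl, rfl, rfl⟩ | ⟨rfl, rfl, rfl⟩ | ⟨rfl, rfl, rfl⟩) |
          (⟨rfl, rfl, rfl⟩ | ⟨rfl, rfl, rfl⟩ | ⟨rfl, rfl, rfl⟩)
        · exact nac k3
        · exact nac k2.symm
        · exact nac k1.symm
        · exact nac k1
        · exact nac k3.symm
        · exact nac k2
    · intro h
      rw [Finset.mem_union] at h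
      rcases h with h | h
      · rw [Finset.mem_sdiff] at h
        obtain ⟨h, hno⟩ := h
        have h' := mem_Trs_flip.1 h
        obtain ⟨⟨hx, hy, hz⟩, hc', k1, k2, k3⟩ := h'
        have he : ¬ (Has a c x y ∨ Has a c y z ∨ Has a c x z) := fun he => hno (E h he)
        push Not at he
        have m1 : ¬ Has b d x y := fun h => nbd (h.adj k1)
        have m2 : ¬ Has b d y z := fun h => nbd (h.adj k2)
        have m3 : ¬ Has b d x z := fun h => nbd (h.adj k3)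
        exact mem_Trs_flip.2 ⟨⟨hx, hy, hz⟩, hc', (un x hx y hy he.1 m1).2 k1,
          (un y hy z hz he.2.1 m2).2 k2, (un x hx z hz he.2.2 m3).2 k3⟩
      · exact new h
  -- weak positivity
  have S0 : 0 ≤ arT P (a, b, c) + arT P (a, c, d) :=
    add_nonneg (hW a ha b hb c hc oabc eab ebc eac)
      (hW a ha c hc d hd oacd eac ecd eda.symm)
  have W1 : 0 ≤ arT P (a, b, d) := by rw [A1]; exact mul_nonneg hs.1 S0
  have W2 : 0 ≤ arT P (b, c, d) := by rw [A2]; exact mul_nonneg (by linarith [hs.2]) S0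
  have hW' : Wk V G' P := by
    intro x hx y hy z hz hc' k1 k2 k3
    have hm : (x, y, z) ∈ Trs V G' := mem_Trs_flip.2 ⟨⟨hx, hy, hz⟩, hc', k1, k2, k3⟩
    rw [hTr, Finset.mem_union] at hm
    rcases hm with hm | hm
    · have hm' := mem_Trs_flip.1 (Finset.mem_sdiff.1 hm).1
      exact hW x hx y hy z hz hm'.2.1 hm'.2.2.1 hm'.2.2.2.1 hm'.2.2.2.2
    · show 0 ≤ arT P (x, y, z)
      simp only [rt3, Finset.mem_union, Finset.mem_insert, Finset.mem_singleton,
        Prod.mk.injEq] at hm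
      rcases hm with (⟨rfl, rfl, rfl⟩ | ⟨rfl, rfl, rfl⟩ | ⟨rfl, rfl, rfl⟩) |
        (⟨rfl, rfl, rfl⟩ | ⟨rfl, rfl, rfl⟩ | ⟨rfl, rfl, rfl⟩)
      · exact W1
      · rw [arT_rot_flip]; exact W1
      · rw [arT_rot_flip, arT_rot_flip]; exact W1
      · exact W2
      · rw [arT_rot_flip]; exact W2
      · rw [arT_rot_flip, arT_rot_flip]; exact W2
  exact ⟨G', hT', hW', hI, ebd, nac, nbd, hun, old, dis, hTr⟩

end Pool.Agent.Helper18.GP
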