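import Pool.Agent.Helper9.GP.DegSt

namespace Pool.Agent.Helper18.GP

open Relation Classical

variable {N : ℕ}

/-- the vertex just before `w` -/
theorem exists_prev_hull {V : Finset (Fin N)} {w : Fin N} (h : ∃ u ∈ V, u ≠ w) :
    ∃ x ∈ V, x ≠ w ∧ ∀ u ∈ V, u ≠ w → cyc w u ≤ cyc w x := by
  have hne : (V.erase w).Nonempty := by
    obtain ⟨u, hu, hne⟩ := h
    exact ⟨u, Finset.mem_erase.2 ⟨hne, hu⟩⟩
  obtain ⟨x, hx, hmax⟩ := Finset.exists_max_image (V.erase w) (fun u => cyc w u) hne
  rw [Finset.mem_erase] at hx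
  exact ⟨x, hx.2, hx.1, fun u hu hne => hmax u (Finset.mem_erase.2 ⟨hne, hu⟩)⟩

theorem t_dgHull : dgHull := by
  intro N V A P hA hAne hc ⟨v0, hv0, hout⟩
  have hfin : (P '' (A : Set (Fin N))).Finite := A.finite_toSet.image _
  have hclosed : IsClosed (convexHull ℝ (P '' (A : Set (Fin N)))) := hfin.isClosed_convexHull ℝ
  obtain ⟨f, s, hf1, hf2⟩ := geometric_hahn_banach_closed_point
    (convex_convexHull ℝ _) hclosed hout
  have hlt : ∀ a ∈ A, f (P a) < f (P v0) := fun a ha =>
    lt_trans (hf1 _ (subset_convexHull ℝ _ ⟨a, ha, rfl⟩)) hf2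
  obtain ⟨w, hw, hwmax⟩ := Finset.exists_max_image V (fun v => f (P v)) ⟨v0, hv0⟩
  have hwA : ∀ v ∈ V, f (P v) = f (P w) → v ∉ A := by
    intro v hv he hvA
    have h1 := hlt v hvA
    have h2 := hwmax v0 hv0
    linarith
  -- first non maximiser after `w`
  have hne : (V.filter fun v => f (P v) < f (P w)).Nonempty := by
    obtain ⟨a, ha⟩ := hAne
    refine ⟨a, Finset.mem_filter.2 ⟨hA ha, lt_of_le_of_ne (hwmax a (hA ha)) ?_⟩⟩
    intro h
    exact hwA a (hA ha) h ha
  obtain ⟨z, hz, hzmin⟩ := Finset.exists_min_image _ (fun u => cyc w u) hne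
  rw [Finset.mem_filter] at hz
  have hzw : z ≠ w := by
    rintro rfl
    exact lt_irrefl _ hz.2
  -- last vertex before `z`
  have hne2 : (V.filter fun v => cyc w v < cyc w z).Nonempty :=
    ⟨w, Finset.mem_filter.2 ⟨hw, by rw [cyc_self]; exact cyc_pos.2 hzw⟩⟩
  obtain ⟨v, hv, hvmax⟩ := Finset.exists_max_image _ (fun u => cyc w u) hne2
  rw [Finset.mem_filter] at hv
  have hvM : f (P v) = f (P w) := by
    by_contra h
    have h1 : f (P v) < f (P w) := lt_of_le_of_ne (hwmax v hv.1) h
    have := hzmin v (Finset.mem_filter.2 ⟨hv.1, h1⟩)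
    have := hv.2
    omega
  have hvz : v ≠ z := by
    rintro rfl
    exact lt_irrefl _ hv.2
  have hcvz : ∀ u ∈ V, ¬ Ccw v u z := by
    rintro u hu ⟨h1, h2⟩
    rw [cyc_change_le hv.2.le] at h2
    have hlz := cyc_lt w z
    rcases Nat.lt_or_ge (cyc w u) (cyc w v) with h | h
    · rw [cyc_change_gt h] at h2
      omega
    · rw [cyc_change_le h] at h1 h2
      have := hvmax u (Finset.mem_filter.2 ⟨hu, by omega⟩)
      omega
  obtain ⟨x, hx, hxv, hxmax⟩ := exists_prev_hull (V := V) (w := v) ⟨z, hz.1, Ne.symm hvz⟩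
  have hcxv : ∀ u ∈ V, ¬ Ccw x u v := by
    rintro u hu ⟨h1, h2⟩
    by_cases huv : u = v
    · subst huv; exact lt_irrefl _ h2
    have h3 := hxmax u hu huv
    have e := cyc_change v x u
    have := cyc_lt v x
    have := cyc_lt v u
    have := cyc_pos.2 hxv
    have h4 : cyc v u ≠ cyc v x := by
      intro h5
      have := cyc_inj h5
      subst this
      rw [cyc_self] at h1
      omega
    rw [if_neg (by omega)] at e
    have := cyc_pos.2 huv
    have e2 : cyc x v = N - cyc v x := cyc_back hxv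
    omega
  have hxz : x ≠ z := by
    rintro rfl
    have : V ⊆ {v, x} := by
      intro u hu
      rw [Finset.mem_insert, Finset.mem_singleton]
      by_contra hcon
      push Not at hcon
      have h1 := hxmax u hu hcon.1
      have h2 : cyc v u ≠ cyc v x := fun h => hcon.2 (cyc_inj h)
      exact hcvz u hu ⟨cyc_pos.2 hcon.1, by omega⟩
    have := Finset.card_le_card this
    have := Finset.card_le_two (a := v) (b := x)
    omega
  have hccw : Ccw x v z := by
    constructor
    · exact cyc_pos.2 (Ne.symm hxv)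
    · have e := cyc_change v x z
      have h1 := hxmax z hz.1 (Ne.symm hvz)
      have h2 : cyc v z ≠ cyc v x := fun h => hxz (cyc_inj h).symm
      rw [if_neg (by omega)] at e
      have e3 : cyc x v = N - cyc v x := cyc_back hxv
      have := cyc_lt v x
      have := cyc_pos.2 (Ne.symm hvz)
      have := cyc_lt v z
      omega
  refine ⟨(f : ℂ →L[ℝ] ℝ).toLinearMap, x, v, z, hx, hv.1, hz.1, hwA v hv.1 hvM, hccw, hcxv,
    hcvz, ?_, ?_⟩
  · intro u hu
    have := hwmax u hu
    show f (P u) ≤ f (P v)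
    linarith
  · show f (P z) < f (P v)
    linarith [hz.2]

end Pool.Agent.Helper18.GP
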