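import Pool.Agent.Helper9.GP.DegSt

namespace Pool.Agent.Helper18.GP

open Relation Classical

variable {N : ℕ}

theorem t_dgPinch (h1 : dgSide) (h2 : stPinch) (h3 : stWedge) (h4 : stMet) : dgPinch := by
  intro N n ih V G P A F hcard hcfg a ha g hg c hc hccw hall hag hgc hd
  have hM := h4 N V G P hcfg.tri
  have hdd : ∀ x ∈ V, ∀ y ∈ V, 0 ≤ dV V G P x y ∧ dV V G P x y = dV V G P y x :=
    fun x hx y hy => ⟨hM.nonneg _ (dl_mem G hx) _ (dl_mem G hy),
      hM.symm _ (dl_mem G hx) _ (dl_mem G hy)⟩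
  have hAV := hcfg.AV
  have hac : Arc V a c = V := by
    apply Finset.Subset.antisymm (Arc_sub _ _ _)
    intro v hv
    exact mem_Arc.2 ⟨hv, hall v hv⟩
  have hgc' := cyc_change_le (a := a) (b := g) (v := c) hccw.2.le
  have hga : cyc g a = N - cyc a g := cyc_back (by
    rintro rfl
    have := hccw.1
    rw [cyc_self] at this
    omega)
  have hlt := cyc_lt a c
  have hN : 0 < N := by omega
  -- cards
  have hc1 : (Arc V a g).card < n := by
    rw [← hcard]
    apply Finset.card_lt_card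
    refine ⟨Arc_sub _ _ _, fun h => ?_⟩
    have := mem_Arc.1 (h hc)
    have := hccw.2
    omega
  have hc2 : (Arc V g c).card < n := by
    rw [← hcard]
    apply Finset.card_lt_card
    refine ⟨Arc_sub _ _ _, fun h => ?_⟩
    have := mem_Arc.1 (h ha)
    have := hccw.1
    have := hccw.2
    omega
  -- cover
  have hcov : ∀ v ∈ V, v ∈ Arc V a g ∨ v ∈ Arc V g c := by
    intro v hv
    rcases Nat.lt_or_ge (cyc a v) (cyc a g) with h | h
    · exact Or.inl (mem_Arc.2 ⟨hv, h.le⟩)
    · right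
      refine mem_Arc.2 ⟨hv, ?_⟩
      rw [cyc_change_le h, hgc']
      have := hall v hv
      omega
  obtain ⟨w1, w2, w3⟩ := h3 N V A F (dV V G P) hdd hcfg.FA a ha g hg c hc hccw hall
  have hr0 : 0 < rho := by unfold rho; positivity
  have sideag := fun A' F' (h : FA (Arc V a g) A' F') =>
    h1 N n ih V G P hcfg.tri hcfg.wk a ha g hg hag hc1 A' F' h
  have sidegc := fun A' F' (h : FA (Arc V g c) A' F') =>
    h1 N n ih V G P hcfg.tri hcfg.wk g hg c hc hgc hc2 A' F' h
  by_cases e1 : (A ∩ Arc V a g).Nonempty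
  · by_cases e2 : (A ∩ Arc V g c).Nonempty
    · obtain ⟨F₁, F₂, f1, f2, f3⟩ := w1
      have k1 := sideag _ _ f1
      have k2 := sidegc _ _ f2
      have k3 := h2 N V G P hcfg.tri a ha g hg c hc hccw hd A (by rw [hac]; exact hAV) e1 e2
      nlinarith
    · have hsub : A ⊆ Arc V a g := by
        intro v hv
        rcases hcov v (hAV hv) with h | h
        · exact h
        · exact absurd ⟨v, Finset.mem_inter.2 ⟨hv, h⟩⟩ e2
      obtain ⟨F₁, f1, f2⟩ := w2 hsub
      have k1 := sideag _ _ f1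
      nlinarith
  · have hsub : A ⊆ Arc V g c := by
      intro v hv
      rcases hcov v (hAV hv) with h | h
      · exact absurd ⟨v, Finset.mem_inter.2 ⟨hv, h⟩⟩ e1
      · exact h
    obtain ⟨F₂, f1, f2⟩ := w3 hsub
    have k1 := sidegc _ _ f1
    nlinarith

end Pool.Agent.Helper18.GP
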