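import Pool.Agent.Helper9.GP.DegSt

namespace Pool.Agent.Helper18.GP

open Relation Classical

variable {N : ℕ}

theorem t_dgSide (hArc : stArcTri) (hGlue : stGlue) (hRet : stRet) : dgSide := by
  intro N n ih V G P hT hW a ha b hb hadj hc A' F' h1
  have T1 := hArc N V G hT a ha b hb hadj
  have G1 := hGlue N V G P hT a ha b hb hadj
  have C1 : Cfg (Arc V a b) G P A' F' := h1.Cfg T1 (Wk_sub hW (Arc_sub _ _ _))
  have D1 : ∀ x ∈ Arc V a b, ∀ y ∈ Arc V a b, dV (Arc V a b) G P x y = dV V G P x y :=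
    fun x hx y hy => G1.sub _ (dl_mem G hx) _ (dl_mem G hy)
  have E1 := Mst_congr (V := Arc V a b) F' D1
  have R1 := hRet N V G P hT a ha b hb hadj A' h1.AV
  have K1 := ih _ hc _ _ _ _ _ rfl C1
  rw [E1] at K1
  linarith

end Pool.Agent.Helper18.GP
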