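import Pool.Agent.Helper9.GP.DegSt

namespace Pool.Agent.Helper18.GP

open Relation Classical

variable {N : ℕ}

theorem t_dgZero (h1 : dgSide) (h2 : stPocket) (h3 : stZero) (h4 : stSel) (h5 : stCut1)
    (h6 : stCut2) (h7 : stMet) (h8 : stLnP) : dgZero := by
  intro N n ih V G P A F hcard hcfg a ha b hb hab hadj hP hex1 hex2
  have hM := h7 N V G P hcfg.tri
  have hL := h8 N V G P hcfg.tri
  have hdd : ∀ x ∈ V, ∀ y ∈ V, 0 ≤ dV V G P x y ∧ dV V G P x y = dV V G P y x :=
    fun x hx y hy => ⟨hM.nonneg _ (dl_mem G hx) _ (dl_mem G hy),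
      hM.symm _ (dl_mem G hx) _ (dl_mem G hy)⟩
  have hAV := hcfg.AV
  have hr0 : 0 < rho := by unfold rho; positivity
  have hgen : ∀ x y : Fin N, x ∈ V → y ∈ V → x ≠ y → (∃ v ∈ V, Ccw y v x) →
      (Arc V x y).card < n := by
    intro x y hx hy hxy ⟨v, hv, hv1, hv2⟩
    rw [← hcard]
    apply Finset.card_lt_card
    refine ⟨Arc_sub _ _ _, fun h => ?_⟩
    rcases mem_Arc_both (V := V) hxy (mem_Arc.2 ⟨hv, hv2.le⟩) (h hv) with e | e
    · rw [e, cyc_self] at hv1; omega
    · rw [e] at hv2; omega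
  have hc1 := hgen a b ha hb hab hex2
  have hc2 := hgen b a hb ha (Ne.symm hab) hex1
  have sideab := fun A' F' (h : FA (Arc V a b) A' F') =>
    h1 N n ih V G P hcfg.tri hcfg.wk a ha b hb hadj hc1 A' F' h
  have sideba := fun A' F' (h : FA (Arc V b a) A' F') =>
    h1 N n ih V G P hcfg.tri hcfg.wk b hb a ha hadj.symm hc2 A' F' h
  by_cases s1 : A ⊆ Arc V a b
  · obtain ⟨F', f1, f2⟩ := h2 N V A F (dV V G P) hdd hcfg.FA a ha b hb hab s1
    have := sideab _ _ f1
    nlinarith
  by_cases s2 : A ⊆ Arc V b a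
  · obtain ⟨F', f1, f2⟩ := h2 N V A F (dV V G P) hdd hcfg.FA b hb a ha (Ne.symm hab) s2
    have := sideba _ _ f1
    nlinarith
  have e1 : (A ∩ Arc V a b).Nonempty := by
    rw [Finset.not_subset] at s2
    obtain ⟨x, hx, hx'⟩ := s2
    rcases mem_Arc_or (Ne.symm hab) (hAV hx) with h | h
    · exact ⟨x, Finset.mem_inter.2 ⟨hx, h⟩⟩
    · exact absurd h hx'
  have e2 : (A ∩ Arc V b a).Nonempty := by
    rw [Finset.not_subset] at s1
    obtain ⟨x, hx, hx'⟩ := s1
    rcases mem_Arc_or (Ne.symm hab) (hAV hx) with h | h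
    · exact absurd h hx'
    · exact ⟨x, Finset.mem_inter.2 ⟨hx, h⟩⟩
  have kz := h3 N V G P hcfg.tri a ha b hb hadj hP A hAV e1 e2
  have sub1 : insert a (insert b (A ∩ Arc V a b)) ⊆ V := by
    intro x hx
    simp only [Finset.mem_insert, Finset.mem_inter] at hx
    rcases hx with rfl | rfl | h
    · exact ha
    · exact hb
    · exact hAV h.1
  have sub2 : insert a (insert b (A ∩ Arc V b a)) ⊆ V := by
    intro x hx
    simp only [Finset.mem_insert, Finset.mem_inter] at hx
    rcases hx with rfl | rfl | h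
    · exact ha
    · exact hb
    · exact hAV h.1
  have case1 : (b ∈ A ∨ ∃ x ∈ insert a (A ∩ Arc V a b), EqvGen (Fr F (Arc V a b)) b x) →
      rho * Mst V (dV V G P) F ≤ Ln V G P A := by
    intro h
    obtain ⟨f1, f2, f3⟩ := h5 N V A F (dV V G P) hdd hcfg.FA a ha b hb hab h
    have k1 := sideab _ _ f1
    have k2 := sideba _ _ f2
    have m1 : Ln V G P (insert a (A ∩ Arc V a b)) ≤
        Ln V G P (insert a (insert b (A ∩ Arc V a b))) := by
      apply hL.mono _ sub1
      intro x hx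
      simp only [Finset.mem_insert] at hx ⊢
      tauto
    have m2 : Ln V G P (insert a ((A ∩ Arc V b a).erase b)) ≤
        Ln V G P (insert a (insert b (A ∩ Arc V b a))) := by
      apply hL.mono _ sub2
      intro x hx
      simp only [Finset.mem_insert, Finset.mem_erase] at hx ⊢
      tauto
    nlinarith
  have case2 : (b ∈ A ∨ ∃ x ∈ insert a (A ∩ Arc V b a), EqvGen (Fr F (Arc V b a)) b x) →
      rho * Mst V (dV V G P) F ≤ Ln V G P A := by
    intro h
    obtain ⟨f1, f2, f3⟩ := h6 N V A F (dV V G P) hdd hcfg.FA a ha b hb hab h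
    have k1 := sideba _ _ f1
    have k2 := sideab _ _ f2
    have m1 : Ln V G P (insert a (A ∩ Arc V b a)) ≤
        Ln V G P (insert a (insert b (A ∩ Arc V b a))) := by
      apply hL.mono _ sub2
      intro x hx
      simp only [Finset.mem_insert] at hx ⊢
      tauto
    have m2 : Ln V G P (insert a ((A ∩ Arc V a b).erase b)) ≤
        Ln V G P (insert a (insert b (A ∩ Arc V a b))) := by
      apply hL.mono _ sub1
      intro x hx
      simp only [Finset.mem_insert, Finset.mem_erase] at hx ⊢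
      tauto
    nlinarith
  by_cases hbA : b ∈ A
  · exact case1 (Or.inl hbA)
  · rcases h4 N V A F hcfg.FA a ha b hb hab hbA with h | h
    · exact case1 (Or.inr h)
    · exact case2 (Or.inr h)

end Pool.Agent.Helper18.GP
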