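import Pool.Agent.Helper9.GP.DegSt

/-!
# Gilbert-Pollak, DEG: a side of the polygon of length zero
-/

namespace Pool.Agent.Helper18.GP

open Relation Classical

variable {N : ℕ}

private theorem val_zeroside (a b c : Fin N) : Ccw a b c ↔ (a.val < b.val ∧ b.val < c.val) ∨
    (b.val < c.val ∧ c.val < a.val) ∨ (c.val < a.val ∧ a.val < b.val) := by
  have ha := a.isLt; have hb := b.isLt; have hc := c.isLt
  unfold Ccw cyc
  split_ifs <;> omega

private theorem rot_zeroside {a b c : Fin N} (h : Ccw a b c) : Ccw b c a := by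
  rw [val_zeroside] at h ⊢; omega

private theorem ne_zeroside {a b c : Fin N} (h : Ccw a b c) : a ≠ b ∧ b ≠ c ∧ a ≠ c := by
  rw [val_zeroside] at h
  refine ⟨?_, ?_, ?_⟩ <;> · rintro rfl; omega

/-- the induction, over the number of neighbours of `a` -/
private theorem ind_zeroside (h1 : dgPinch) (h2 : dgFlip) (h3 : stApex) (h4 : stBdAdj)
    (h5 : stMet) {n : ℕ} (ih : IH N n) (hn : 3 ≤ n) {V : Finset (Fin N)} {P : Fin N → ℂ}
    {A : Finset (Fin N)} {F : Fin N → Fin N → Prop} (hV : V.card = n) (hFA : FA V A F)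
    {a b : Fin N} (ha : a ∈ V) (hb : b ∈ V) (hab : a ≠ b) (hP : P a = P b)
    (hs : ∀ v ∈ V, ¬ Ccw a v b) : ∀ (k : ℕ) (G : SimpleGraph (Fin N)), IsTri V G → Wk V G P →
      (V.filter fun y => G.Adj a y).card = k → rho * Mst V (dV V G P) F ≤ Ln V G P A := by
  intro k
  induction k using Nat.strong_induction_on with
  | _ k ihk =>
  intro G hT hW hk
  have hGab : G.Adj a b := h4 N V G hT a b ⟨ha, hb, hab, Or.inl hs⟩
  have hex : ∃ v ∈ V, Ccw b v a := by
    rcases Ccw_of_card ha hb hab (by omega) with ⟨v, hv, hc⟩ | h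
    · exact absurd hc (hs v hv)
    · exact h
  obtain ⟨c, ⟨hc, hbca, hGbc, hGca⟩, _⟩ := h3 N V G hT b hb a ha hGab.symm hex
  have habc : Ccw a b c := rot_zeroside (rot_zeroside hbca)
  by_cases hex2 : ∃ v ∈ V, Ccw c v a
  · obtain ⟨d, ⟨hd, hcda, hGcd, hGda⟩, _⟩ := h3 N V G hT c hc a ha hGca hex2
    have hacd : Ccw a c d := rot_zeroside (rot_zeroside hcda)
    obtain ⟨_, _, G', hT', hW', hI, _, hnac, _, hadj, _⟩ := h2 N V G P hT hW a ha b hb c hc d hd
      habc hacd hGab hGbc hGcd hGda hGca.symm 0 ⟨le_refl _, zero_le_one⟩ 0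
      ⟨le_refl _, zero_le_one⟩ (by rw [hP]; simp)
    have hlt : (V.filter fun y => G'.Adj a y).card < k := by
      rw [← hk]
      apply Finset.card_lt_card
      rw [Finset.ssubset_iff_of_subset]
      · refine ⟨c, ?_, ?_⟩
        · rw [Finset.mem_filter]; exact ⟨hc, hGca.symm⟩
        · rw [Finset.mem_filter]; exact fun h => hnac h.2
      · intro y hy
        rw [Finset.mem_filter] at hy ⊢
        refine ⟨hy.1, ?_⟩
        rw [← hadj a ha y hy.1]
        · exact hy.2
        · rintro (⟨_, e⟩ | ⟨e, _⟩)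
          · rw [e] at hy; exact hnac hy.2
          · exact (ne_zeroside habc).2.2 e
        · rintro (⟨e, _⟩ | ⟨e, _⟩)
          · exact hab e
          · exact (ne_zeroside hacd).2.2 e
    have := ihk _ hlt G' hT' hW' rfl
    rw [Mst_congr F (fun x hx y hy => hI.1 x hx y hy), hI.2 A hFA.AV] at this
    exact this
  · push Not at hex2
    have hM := h5 N V G P hT
    have hd : ∀ x ∈ V, ∀ y ∈ V, G.Adj x y → dV V G P x y = ‖P x - P y‖ := by
      intro x hx y hy hxy
      unfold dV
      rw [hM.sh _ (dl_mem G hx) _ (dl_mem G hy), dev_dl, dev_dl]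
      intro u v hu hv huv
      have key : ∀ w, ((dl x : Fin N → ℝ) w ≠ 0 ∨ (dl y : Fin N → ℝ) w ≠ 0) → w = x ∨ w = y := by
        intro w hw
        by_contra hcon
        rw [not_or] at hcon
        unfold dl at hw
        rw [Pi.single_eq_of_ne hcon.1, Pi.single_eq_of_ne hcon.2] at hw
        simp at hw
      rcases key u hu with rfl | rfl <;> rcases key v hv with rfl | rfl
      · exact absurd rfl huv
      · exact hxy
      · exact hxy.symm
      · exact absurd rfl huv
    refine h1 N n ih V G P A F hV (hFA.Cfg hT hW) a ha b hb c hc habc ?_ hGab hGbc ?_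
    · intro v hv
      by_contra hcon
      rw [not_le] at hcon
      apply hex2 v hv
      have : Ccw a c v := by
        refine ⟨?_, hcon⟩
        rw [cyc_pos]
        exact (ne_zeroside habc).2.2.symm
      exact rot_zeroside this
    · rw [hd a ha c hc hGca.symm, hd a ha b hb hGab, hd b hb c hc hGbc, hP, sub_self, norm_zero,
        zero_add]

theorem t_dgZeroSide (h1 : dgPinch) (h2 : dgFlip) (h3 : stApex) (h4 : stBdAdj) (h5 : stMet) :
    dgZeroSide := by
  intro N n ih hn V G P A F hV hC a ha b hb hab hP hs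
  exact ind_zeroside h1 h2 h3 h4 h5 ih hn hV hC.FA ha hb hab hP hs _ G hC.tri hC.wk rfl

end Pool.Agent.Helper18.GP
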