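import Pool.Agent.Helper9.GP.DegTop
import Pool.Agent.Helper9.GP.D_side
import Pool.Agent.Helper9.GP.D_pinch
import Pool.Agent.Helper9.GP.D_zero
import Pool.Agent.Helper9.GP.D_zeroside
import Pool.Agent.Helper9.GP.D_flip
import Pool.Agent.Helper9.GP.D_flat
import Pool.Agent.Helper9.GP.D_fan
import Pool.Agent.Helper9.GP.D_hull
import Pool.Agent.Helper9.GP.D_cpl

/-!
# Gilbert-Pollak, chapter DEG: `stDeg` and `stBdd` from the statements of the other chapters
-/

namespace Pool.Agent.Helper18.GP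

theorem stDeg_all (hSmall : stSmall) (hApex : stApex) (hBd : stBdAdj) (hMet : stMet)
    (hFlip : stFlip) (hArc : stArcTri) (hGlue : stGlue) (hRet : stRet) (hPinch : stPinch)
    (hWedge : stWedge) (hPocket : stPocket) (hZero : stZero) (hSel : stSel) (hC1 : stCut1)
    (hC2 : stCut2) (hLn : stLnP) : stDeg := by
  have h1 := t_dgSide hArc hGlue hRet
  have h2 := t_dgPinch h1 hPinch hWedge hMet
  have h3 := t_dgZero h1 hPocket hZero hSel hC1 hC2 hMet hLn
  have h4 := t_dgFlip hFlip hApex
  have h5 := t_dgZeroSide h2 h4 hApex hBd hMet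
  have h6 := t_dgFlat h2 h4 hApex hBd hMet
  exact stDeg_of hSmall hApex h3 h5 h6

theorem stBdd_all (hSmall : stSmall) (hApex : stApex) (hBd : stBdAdj) (hMet : stMet)
    (hPos : stPos) (hArc : stArcTri) (hGlue : stGlue) (hRet : stRet) (hPinch : stPinch)
    (hWedge : stWedge) (hDrop : stDrop) (hCI : stCI) : stBdd := by
  have h1 := t_dgSide hArc hGlue hRet
  have h2 := t_dgFan hApex hMet
  have h3 := t_dgCPL h1 hMet hPos hGlue hCI hPinch hWedge hApex
  exact stBdd_of hSmall hMet hBd hDrop h2 t_dgHull h3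

end Pool.Agent.Helper18.GP
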