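import Pool.Agent.Helper9.GP.PlSt

/-!
# Gilbert-Pollak, chapter COR, part P: counting edges at a point (coinciding inner nodes)
-/

namespace Pool.Agent.Helper18.GP

open Relation Classical

private lemma inc_cons_count (z : ℂ) (e : ℂ × ℂ) (L : List (ℂ × ℂ)) :
    inc z (e :: L) = (if (e.1 = z ∧ e.2 ≠ z) ∨ (e.1 ≠ z ∧ e.2 = z) then 1 else 0) + inc z L := by
  unfold inc
  by_cases h : (e.1 = z ∧ e.2 ≠ z) ∨ (e.1 ≠ z ∧ e.2 = z)
  · rw [List.filter_cons_of_pos (by simpa using h), if_pos h, List.length_cons]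
    omega
  · rw [List.filter_cons_of_neg (by simpa using h), if_neg h]
    omega

private lemma inc_append_count (z : ℂ) (L M : List (ℂ × ℂ)) :
    inc z (L ++ M) = inc z L + inc z M := by
  unfold inc
  rw [List.filter_append, List.length_append]

private lemma aux_count (z : ℂ) (t : BT) : ∀ x : ℂ, (∀ e ∈ t.ed x, e.1 ≠ e.2) →
    (x ≠ z → 3 * t.inn.count z ≤ inc z (t.ed x)) ∧
    (x = z → 1 + 3 * t.inn.count z ≤ inc z (t.ed x)) := by
  induction t with
  | lf p =>
    intro x h
    refine ⟨fun _ => by simp [BT.inn], fun hx => ?_⟩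
    have hp : x ≠ p := h (x, p) (by simp [BT.ed])
    have hz : p ≠ z := fun hh => hp (hx.trans hh.symm)
    simp only [BT.ed, BT.inn]
    rw [inc_cons_count, if_pos (Or.inl ⟨hx, hz⟩)]
    simp
  | nd y a b iha ihb =>
    intro x h
    have hxy : x ≠ y := h (x, y) (by simp [BT.ed])
    have ha := iha y (fun e he => h e (by simp [BT.ed, he]))
    have hb := ihb y (fun e he => h e (by simp [BT.ed, he]))
    have hi : inc z ((BT.nd y a b).ed x) =
        (if (x = z ∧ y ≠ z) ∨ (x ≠ z ∧ y = z) then 1 else 0) + (inc z (a.ed y) + inc z (b.ed y)) := by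
      simp only [BT.ed]
      rw [inc_cons_count, inc_append_count]
    rw [hi]
    have hc : (BT.nd y a b).inn.count z =
        (if y = z then 1 else 0) + (a.inn.count z + b.inn.count z) := by
      simp only [BT.inn]
      rw [List.count_cons, List.count_append]
      by_cases hyz : y = z
      · simp [hyz]; ring
      · simp [hyz]
    rw [hc]
    by_cases hyz : y = z
    · have hxz : x ≠ z := fun hh => hxy (hh.trans hyz.symm)
      have h1 := ha.2 hyz
      have h2 := hb.2 hyz
      rw [if_pos (Or.inr ⟨hxz, hyz⟩), if_pos hyz]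
      refine ⟨fun _ => by omega, fun hh => absurd hh hxz⟩
    · have h1 := ha.1 hyz
      have h2 := hb.1 hyz
      rw [if_neg hyz]
      refine ⟨fun _ => by omega, fun hh => ?_⟩
      rw [if_pos (Or.inl ⟨hh, hyz⟩)]
      omega

theorem t_plCount : plCount := fun t x z hx h => (aux_count z t x h).1 hx

end Pool.Agent.Helper18.GP
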