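import Pool.Agent.Helper9.GP.PlSt

/-!
# Gilbert-Pollak, chapter COR, part P (helper4): edges of a shortest network meet only at ends
-/

namespace Pool.Agent.Helper18.GP

open Relation Classical

private theorem eqv_lift_end {E E' : List (ℂ × ℂ)}
    (h : ∀ x y, (x, y) ∈ E → EqvGen (fun x y => (x, y) ∈ E') x y) {x y : ℂ}
    (hxy : EqvGen (fun x y => (x, y) ∈ E) x y) : EqvGen (fun x y => (x, y) ∈ E') x y := by
  induction hxy with
  | rel x y h' => exact h x y h'
  | refl x => exact EqvGen.refl x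
  | symm x y _ ih => exact EqvGen.symm _ _ ih
  | trans x y z _ _ ih1 ih2 => exact EqvGen.trans _ _ _ ih1 ih2

private theorem nconn_lift_end {E E' : List (ℂ × ℂ)} {S : Set ℂ}
    (h : ∀ x y, (x, y) ∈ E → EqvGen (fun x y => (x, y) ∈ E') x y) (hE : NConn E S) :
    NConn E' S := fun a ha b hb => eqv_lift_end h (hE a ha b hb)

/-- a point joined to `p` in `(p,q) :: E` is joined to `p` or `q` in `E` -/
private theorem reach_end {E : List (ℂ × ℂ)} {p q r : ℂ}
    (h : EqvGen (fun x y => (x, y) ∈ (p, q) :: E) r p) :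
    EqvGen (fun x y => (x, y) ∈ E) r p ∨ EqvGen (fun x y => (x, y) ∈ E) r q := by
  have key : ∀ x y, EqvGen (fun x y => (x, y) ∈ (p, q) :: E) x y →
      ((EqvGen (fun x y => (x, y) ∈ E) x p ∨ EqvGen (fun x y => (x, y) ∈ E) x q) ↔
      (EqvGen (fun x y => (x, y) ∈ E) y p ∨ EqvGen (fun x y => (x, y) ∈ E) y q)) := by
    intro x y hxy
    induction hxy with
    | rel x y h' =>
      rcases List.mem_cons.mp h' with h' | h'
      · rw [Prod.mk.injEq] at h'
        obtain ⟨rfl, rfl⟩ := h'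
        exact ⟨fun _ => Or.inr (EqvGen.refl _), fun _ => Or.inl (EqvGen.refl _)⟩
      · have h1 : EqvGen (fun x y => (x, y) ∈ E) x y := EqvGen.rel _ _ h'
        constructor
        · rintro (h2 | h2)
          · exact Or.inl (EqvGen.trans _ _ _ (EqvGen.symm _ _ h1) h2)
          · exact Or.inr (EqvGen.trans _ _ _ (EqvGen.symm _ _ h1) h2)
        · rintro (h2 | h2)
          · exact Or.inl (EqvGen.trans _ _ _ h1 h2)
          · exact Or.inr (EqvGen.trans _ _ _ h1 h2)
    | refl x => exact Iff.rfl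
    | symm x y _ ih => exact ih.symm
    | trans x y z _ _ ih1 ih2 => exact ih1.trans ih2
  exact (key r p h).mpr (Or.inl (EqvGen.refl _))

private theorem core_end {S : Set ℂ} {e f : ℂ × ℂ} {L0 : List (ℂ × ℂ)}
    (h1 : NConn (e :: f :: L0) (S ∪ {z | ∃ g ∈ e :: f :: L0, z = g.1 ∨ z = g.2}))
    (h2 : ∀ E, NConn E S → nlen dist (e :: f :: L0) ≤ nlen dist E) {z : ℂ}
    (hz : z ∈ segment ℝ e.1 e.2) (hz' : z ∈ segment ℝ f.1 f.2) : z = e.1 ∨ z = e.2 := by
  by_contra hc
  push Not at hc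
  obtain ⟨p, q⟩ := e
  obtain ⟨r, s⟩ := f
  simp only at hz hz' hc
  have d1 := dist_add_dist_of_mem_segment hz
  have d2 := dist_add_dist_of_mem_segment hz'
  have hrp : EqvGen (fun x y => (x, y) ∈ (p, q) :: (r, s) :: L0) r p :=
    h1 r (Or.inr ⟨(r, s), by simp, Or.inl rfl⟩) p (Or.inr ⟨(p, q), by simp, Or.inl rfl⟩)
  have hS : NConn ((p, q) :: (r, s) :: L0) S := fun a ha b hb => h1 a (Or.inl ha) b (Or.inl hb)
  -- lifting of the pairs of `f :: L0`
  have hl : ∀ E' : List (ℂ × ℂ), (r, z) ∈ E' → (z, s) ∈ E' → (∀ g ∈ L0, g ∈ E') →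
      ∀ x y, (x, y) ∈ (r, s) :: L0 → EqvGen (fun x y => (x, y) ∈ E') x y := by
    intro E' e1 e2 e3 x y hxy
    rcases List.mem_cons.mp hxy with h | h
    · rw [Prod.mk.injEq] at h
      obtain ⟨rfl, rfl⟩ := h
      exact EqvGen.trans _ _ _ (EqvGen.rel _ _ e1) (EqvGen.rel _ _ e2)
    · exact EqvGen.rel _ _ (e3 _ h)
  rcases reach_end hrp with h | h
  · have hc' : NConn ((z, q) :: (r, z) :: (z, s) :: L0) S := by
      refine nconn_lift_end ?_ hS
      have hl' := hl ((z, q) :: (r, z) :: (z, s) :: L0) (by simp) (by simp)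
        (fun g hg => by simp [hg])
      intro x y hxy
      rcases List.mem_cons.mp hxy with h' | h'
      · rw [Prod.mk.injEq] at h'
        obtain ⟨rfl, rfl⟩ := h'
        have a1 := EqvGen.symm _ _ (eqv_lift_end hl' h)
        exact EqvGen.trans _ _ _ a1 (EqvGen.trans _ z _ (EqvGen.rel r z (by simp))
          (EqvGen.rel z y (by simp)))
      · exact hl' x y h'
    have h3 := h2 _ hc'
    simp only [nlen, List.map_cons, List.sum_cons] at h3
    have h4 : dist p z ≤ 0 := by linarith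
    exact hc.1 (dist_le_zero.mp h4).symm
  · have hc' : NConn ((p, z) :: (r, z) :: (z, s) :: L0) S := by
      refine nconn_lift_end ?_ hS
      have hl' := hl ((p, z) :: (r, z) :: (z, s) :: L0) (by simp) (by simp)
        (fun g hg => by simp [hg])
      intro x y hxy
      rcases List.mem_cons.mp hxy with h' | h'
      · rw [Prod.mk.injEq] at h'
        obtain ⟨rfl, rfl⟩ := h'
        have a1 := eqv_lift_end hl' h
        exact EqvGen.trans _ z _ (EqvGen.rel x z (by simp)) (EqvGen.trans _ r _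
          (EqvGen.symm _ _ (EqvGen.rel r z (by simp))) a1)
      · exact hl' x y h'
    have h3 := h2 _ hc'
    simp only [nlen, List.map_cons, List.sum_cons] at h3
    have h4 : dist z q ≤ 0 := by linarith
    exact hc.2 (dist_le_zero.mp h4)

theorem t_plEnd : plEnd := by
  intro S e f L0 h1 h2 _ _ z hz hz'
  refine ⟨core_end h1 h2 hz hz', ?_⟩
  have hmem : ∀ g, g ∈ f :: e :: L0 ↔ g ∈ e :: f :: L0 := by
    intro g
    simp only [List.mem_cons]
    tauto
  refine core_end (e := f) (f := e) (L0 := L0) (S := S) ?_ ?_ hz' hz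
  · have hset : {z | ∃ g ∈ f :: e :: L0, z = g.1 ∨ z = g.2} =
        {z | ∃ g ∈ e :: f :: L0, z = g.1 ∨ z = g.2} := by
      ext z
      constructor
      · rintro ⟨g, hg, h⟩
        exact ⟨g, (hmem g).mp hg, h⟩
      · rintro ⟨g, hg, h⟩
        exact ⟨g, (hmem g).mpr hg, h⟩
    rw [hset]
    exact nconn_lift_end (fun x y hxy => EqvGen.rel _ _ ((hmem _).mpr hxy)) h1
  · intro E hE
    refine le_trans (le_of_eq ?_) (h2 E hE)
    simp only [nlen, List.map_cons, List.sum_cons]
    ring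

end Pool.Agent.Helper18.GP
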