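import Pool.Agent.Helper9.GP.PlSt

/-!
# Gilbert-Pollak, chapter COR, part P: from a binary tree with 120 degree angles to `HT`
-/

namespace Pool.Agent.Helper18.GP

open Relation Classical

theorem om_inv_ht : om⁻¹ = (⟨1 / 2, -(Real.sqrt 3 / 2)⟩ : ℂ) := by
  symm
  refine eq_inv_of_mul_eq_one_right ?_
  have h3 : Real.sqrt 3 * Real.sqrt 3 = 3 := Real.mul_self_sqrt (by norm_num)
  apply Complex.ext
  · simp only [om, Complex.mul_re, Complex.one_re]
    nlinarith
  · simp only [om, Complex.mul_im, Complex.one_im]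
    ring

theorem angle_ht {d u v : ℂ} (hd : dt d d = 1) (hu : dt u u = 1) (hv : dt v v = 1)
    (h1 : dt (-d) u ≤ -1 / 2) (h2 : dt (-d) v ≤ -1 / 2) (h3 : dt u v ≤ -1 / 2) :
    (u = d * om ∧ v = d * om⁻¹) ∨ (u = d * om⁻¹ ∧ v = d * om) := by
  rw [om_inv_ht]
  unfold om
  have hs3 : Real.sqrt 3 * Real.sqrt 3 = 3 := Real.mul_self_sqrt (by norm_num)
  simp only [dt, Complex.neg_re, Complex.neg_im] at *
  have hsum : (u.re + v.re - d.re) ^ 2 + (u.im + v.im - d.im) ^ 2 ≤ 0 := by nlinarith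
  have hre : u.re + v.re - d.re = 0 := by
    have : (u.re + v.re - d.re) ^ 2 ≤ 0 := by
      nlinarith [sq_nonneg (u.im + v.im - d.im)]
    exact pow_eq_zero_iff (two_ne_zero) |>.1 (le_antisymm this (sq_nonneg _))
  have him : u.im + v.im - d.im = 0 := by
    have : (u.im + v.im - d.im) ^ 2 ≤ 0 := by
      nlinarith [sq_nonneg (u.re + v.re - d.re)]
    exact pow_eq_zero_iff (two_ne_zero) |>.1 (le_antisymm this (sq_nonneg _))
  have hvr : v.re = d.re - u.re := by linarith
  have hvi : v.im = d.im - u.im := by linarith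
  have hdot : d.re * u.re + d.im * u.im = 1 / 2 := by
    rw [hvr, hvi] at hv
    nlinarith
  have hc : (d.re * u.im - d.im * u.re) ^ 2 = (Real.sqrt 3 / 2) ^ 2 := by
    have e : (d.re * u.im - d.im * u.re) ^ 2 = (d.re * d.re + d.im * d.im) *
        (u.re * u.re + u.im * u.im) - (d.re * u.re + d.im * u.im) ^ 2 := by ring
    rw [e, hd, hu, hdot]
    nlinarith
  have er : u.re = d.re * (1 / 2) - d.im * (d.re * u.im - d.im * u.re) := by
    have e : d.re * (d.re * u.re + d.im * u.im) - d.im * (d.re * u.im - d.im * u.re) =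
        (d.re * d.re + d.im * d.im) * u.re := by ring
    rw [hdot, hd] at e
    linarith
  have ei : u.im = d.re * (d.re * u.im - d.im * u.re) + d.im * (1 / 2) := by
    have e : d.re * (d.re * u.im - d.im * u.re) + d.im * (d.re * u.re + d.im * u.im) =
        (d.re * d.re + d.im * d.im) * u.im := by ring
    rw [hdot, hd] at e
    linarith
  rcases sq_eq_sq_iff_eq_or_eq_neg.1 hc with h | h
  · left
    rw [h] at er ei
    constructor
    · apply Complex.ext
      · simp only [Complex.mul_re]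
        linarith
      · simp only [Complex.mul_im]
        linarith
    · apply Complex.ext
      · simp only [Complex.mul_re]
        linarith
      · simp only [Complex.mul_im]
        linarith
  · right
    rw [h] at er ei
    constructor
    · apply Complex.ext
      · simp only [Complex.mul_re]
        linarith
      · simp only [Complex.mul_im]
        linarith
    · apply Complex.ext
      · simp only [Complex.mul_re]
        linarith
      · simp only [Complex.mul_im]
        linarith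

theorem unit_ht {z : ℂ} (h : z ≠ 0) : dt (z / ‖z‖) (z / ‖z‖) = 1 := by
  have h1 : ‖z / (‖z‖ : ℂ)‖ = 1 := by
    rw [norm_div, Complex.norm_real, norm_norm, div_self (norm_ne_zero_iff.2 h)]
  have h2 : Complex.normSq (z / (‖z‖ : ℂ)) = 1 := by
    rw [Complex.normSq_eq_norm_sq, h1]
    norm_num
  rw [Complex.normSq_apply] at h2
  exact h2

theorem back_ht {x z : ℂ} (h : z ≠ x) : x + (‖z - x‖ : ℂ) * ((z - x) / ‖z - x‖) = z := by
  have h0 : (‖z - x‖ : ℂ) ≠ 0 := by
    have : ‖z - x‖ ≠ 0 := norm_ne_zero_iff.2 (sub_ne_zero.2 h)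
    exact_mod_cast this
  rw [mul_div_cancel₀ _ h0]
  ring

theorem edhead_ht (t : BT) (x : ℂ) : ∃ L, t.ed x = (x, t.rt) :: L := by
  cases t with
  | lf p => exact ⟨[], rfl⟩
  | nd z a b => exact ⟨a.ed z ++ b.ed z, rfl⟩

theorem nlen_cons_ht (e : ℂ × ℂ) (L : List (ℂ × ℂ)) :
    nlen dist (e :: L) = dist e.1 e.2 + nlen dist L := by
  simp [nlen]

theorem nlen_append_ht (L M : List (ℂ × ℂ)) :
    nlen dist (L ++ M) = nlen dist L + nlen dist M := by
  simp [nlen]

theorem permnodes_ht (z : ℂ) (A B C D : List ℂ) :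
    (z :: ((A ++ C) ++ (B ++ D))).Perm ((A ++ B) ++ (z :: (C ++ D))) := by
  rw [List.perm_iff_count]
  intro y
  simp only [List.count_cons, List.count_append]
  omega

theorem t_plHT : plHT := by
  intro t
  induction t with
  | lf p =>
    intro x hne _
    have hxp : p ≠ x := fun h => hne (x, p) (by simp [BT.ed]) h.symm
    have hb : x + (‖p - x‖ : ℂ) * ((p - x) / ‖p - x‖) = p := back_ht hxp
    refine ⟨HT.lf ‖p - x‖, norm_pos_iff.2 (sub_ne_zero.2 hxp), ?_, ?_, ?_, ?_, ?_⟩
    · show ‖p - x‖ = nlen dist [(x, p)]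
      rw [nlen_cons_ht]
      simp only [nlen, List.map_nil, List.sum_nil, add_zero]
      rw [dist_comm, dist_eq_norm]
    · show List.Perm [x + (‖p - x‖ : ℂ) * ((p - x) / ‖p - x‖)] [p]
      rw [hb]
    · show List.Perm [x + (‖p - x‖ : ℂ) * ((p - x) / ‖p - x‖)] ([p] ++ [])
      rw [hb]
      exact List.Perm.refl _
    · show List.Perm [(x, x + (‖p - x‖ : ℂ) * ((p - x) / ‖p - x‖))] [(x, p)]
      rw [hb]
    · intro z a b h
      cases h
  | nd z a b iha ihb =>
    intro x hne hp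
    have hed : (BT.nd z a b).ed x = (x, z) :: (a.ed z ++ b.ed z) := rfl
    rw [hed] at hne hp
    have hzx : z ≠ x := fun h => hne (x, z) (by simp) h.symm
    obtain ⟨La, hLa⟩ := edhead_ht a z
    obtain ⟨Lb, hLb⟩ := edhead_ht b z
    have haz : a.rt ≠ z := fun h => hne (z, a.rt) (by simp [hLa]) h.symm
    have hbz : b.rt ≠ z := fun h => hne (z, b.rt) (by simp [hLb]) h.symm
    have hperm : ((x, z) :: (a.ed z ++ b.ed z)).Perm
        ((x, z) :: (z, a.rt) :: (z, b.rt) :: (La ++ Lb)) := by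
      rw [hLa, hLb]
      refine List.Perm.cons _ ?_
      rw [List.cons_append]
      exact List.Perm.cons _ List.perm_middle
    obtain ⟨q1, q2, q3⟩ := hp z x a.rt b.rt (La ++ Lb) hperm
    have hneg : (x - z) / (‖x - z‖ : ℂ) = -((z - x) / (‖z - x‖ : ℂ)) := by
      rw [norm_sub_rev x z, ← neg_sub z x, neg_div]
    rw [hneg] at q1 q2
    have hang := angle_ht (unit_ht (sub_ne_zero.2 hzx)) (unit_ht (sub_ne_zero.2 haz))
      (unit_ht (sub_ne_zero.2 hbz)) q1 q2 q3
    have hback := back_ht hzx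
    obtain ⟨sa, pa, la, lva, na, ea, _⟩ := iha z (fun e he => hne e (by simp [he]))
      (fun w p i j L0 hL => by
        refine hp w p i j (L0 ++ ((x, z) :: b.ed z)) ?_
        have e1 : ((x, z) :: (a.ed z ++ b.ed z)).Perm (a.ed z ++ ((x, z) :: b.ed z)) :=
          List.perm_middle.symm
        have e2 : (a.ed z ++ ((x, z) :: b.ed z)).Perm
            (((p, w) :: (w, i) :: (w, j) :: L0) ++ ((x, z) :: b.ed z)) := hL.append_right _
        exact e1.trans e2)
    obtain ⟨sb, pb, lb, lvb, nb, eb, _⟩ := ihb z (fun e he => hne e (by simp [he]))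
      (fun w p i j L0 hL => by
        refine hp w p i j (L0 ++ ((x, z) :: a.ed z)) ?_
        have e0 : ((x, z) :: (a.ed z ++ b.ed z)).Perm ((x, z) :: (b.ed z ++ a.ed z)) :=
          List.Perm.cons _ List.perm_append_comm
        have e1 : ((x, z) :: (b.ed z ++ a.ed z)).Perm (b.ed z ++ ((x, z) :: a.ed z)) :=
          List.perm_middle.symm
        have e2 : (b.ed z ++ ((x, z) :: a.ed z)).Perm
            (((p, w) :: (w, i) :: (w, j) :: L0) ++ ((x, z) :: a.ed z)) := hL.append_right _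
        exact (e0.trans e1).trans e2)
    have hlpos : 0 < ‖z - x‖ := norm_pos_iff.2 (sub_ne_zero.2 hzx)
    have hlen : nlen dist ((x, z) :: (a.ed z ++ b.ed z)) =
        ‖z - x‖ + (nlen dist (a.ed z) + nlen dist (b.ed z)) := by
      rw [nlen_cons_ht, nlen_append_ht, dist_comm, dist_eq_norm]
    rcases hang with ⟨hu, hv⟩ | ⟨hu, hv⟩
    · refine ⟨HT.nd ‖z - x‖ sa sb, ⟨hlpos, pa, pb⟩, ?_, ?_, ?_, ?_, ?_⟩
      · show ‖z - x‖ + sa.len + sb.len = nlen dist ((x, z) :: (a.ed z ++ b.ed z))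
        rw [hlen, la, lb]
        ring
      · show List.Perm (sa.leaves (x + (‖z - x‖ : ℂ) * ((z - x) / ‖z - x‖))
          ((z - x) / ‖z - x‖ * om) ++ sb.leaves (x + (‖z - x‖ : ℂ) * ((z - x) / ‖z - x‖))
          ((z - x) / ‖z - x‖ * om⁻¹)) (a.lv ++ b.lv)
        rw [hback, ← hu, ← hv]
        exact lva.append lvb
      · show List.Perm ((x + (‖z - x‖ : ℂ) * ((z - x) / ‖z - x‖)) ::
          (sa.nodes (x + (‖z - x‖ : ℂ) * ((z - x) / ‖z - x‖))
          ((z - x) / ‖z - x‖ * om) ++ sb.nodes (x + (‖z - x‖ : ℂ) * ((z - x) / ‖z - x‖))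
          ((z - x) / ‖z - x‖ * om⁻¹))) ((a.lv ++ b.lv) ++ (z :: (a.inn ++ b.inn)))
        rw [hback, ← hu, ← hv]
        exact (List.Perm.cons _ (na.append nb)).trans (permnodes_ht z a.lv b.lv a.inn b.inn)
      · show List.Perm ((x, x + (‖z - x‖ : ℂ) * ((z - x) / ‖z - x‖)) ::
          (sa.edges (x + (‖z - x‖ : ℂ) * ((z - x) / ‖z - x‖))
          ((z - x) / ‖z - x‖ * om) ++ sb.edges (x + (‖z - x‖ : ℂ) * ((z - x) / ‖z - x‖))
          ((z - x) / ‖z - x‖ * om⁻¹))) ((x, z) :: (a.ed z ++ b.ed z))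
        rw [hback, ← hu, ← hv]
        exact List.Perm.cons _ (ea.append eb)
      · intro _ _ _ _
        exact ⟨_, _, _, rfl⟩
    · refine ⟨HT.nd ‖z - x‖ sb sa, ⟨hlpos, pb, pa⟩, ?_, ?_, ?_, ?_, ?_⟩
      · show ‖z - x‖ + sb.len + sa.len = nlen dist ((x, z) :: (a.ed z ++ b.ed z))
        rw [hlen, la, lb]
        ring
      · show List.Perm (sb.leaves (x + (‖z - x‖ : ℂ) * ((z - x) / ‖z - x‖))
          ((z - x) / ‖z - x‖ * om) ++ sa.leaves (x + (‖z - x‖ : ℂ) * ((z - x) / ‖z - x‖))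
          ((z - x) / ‖z - x‖ * om⁻¹)) (a.lv ++ b.lv)
        rw [hback, ← hu, ← hv]
        exact (lvb.append lva).trans List.perm_append_comm
      · show List.Perm ((x + (‖z - x‖ : ℂ) * ((z - x) / ‖z - x‖)) ::
          (sb.nodes (x + (‖z - x‖ : ℂ) * ((z - x) / ‖z - x‖))
          ((z - x) / ‖z - x‖ * om) ++ sa.nodes (x + (‖z - x‖ : ℂ) * ((z - x) / ‖z - x‖))
          ((z - x) / ‖z - x‖ * om⁻¹))) ((a.lv ++ b.lv) ++ (z :: (a.inn ++ b.inn)))
        rw [hback, ← hu, ← hv]
        refine (List.Perm.cons _ ((nb.append na).trans List.perm_append_comm)).trans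
          (permnodes_ht z a.lv b.lv a.inn b.inn)
      · show List.Perm ((x, x + (‖z - x‖ : ℂ) * ((z - x) / ‖z - x‖)) ::
          (sb.edges (x + (‖z - x‖ : ℂ) * ((z - x) / ‖z - x‖))
          ((z - x) / ‖z - x‖ * om) ++ sa.edges (x + (‖z - x‖ : ℂ) * ((z - x) / ‖z - x‖))
          ((z - x) / ‖z - x‖ * om⁻¹))) ((x, z) :: (a.ed z ++ b.ed z))
        rw [hback, ← hu, ← hv]
        exact List.Perm.cons _ ((eb.append ea).trans List.perm_append_comm)
      · intro _ _ _ _
        exact ⟨_, _, _, rfl⟩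

end Pool.Agent.Helper18.GP
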