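import Pool.Agent.Helper9.GP.PlSt

namespace Pool.Agent.Helper18.GP

open Relation Classical

private lemma nsq_pair (p : ℂ) : ‖p‖ ^ 2 = dt p p := by
  rw [Complex.sq_norm, Complex.normSq_apply]
  rfl

private lemma move_pair {p w : ℂ} (hp : p ≠ 0) (hw : ‖w‖ = 1) (s : ℝ) :
    ‖p - (s : ℂ) * w‖ ≤ ‖p‖ - s * dt (p / ‖p‖) w + s ^ 2 / (2 * ‖p‖) := by
  have ha : 0 < ‖p‖ := norm_pos_iff.2 hp
  have hw2 : dt w w = 1 := by rw [← nsq_pair, hw, one_pow]
  have hd : dt (p / ‖p‖) w = dt p w / ‖p‖ := by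
    unfold dt
    rw [Complex.div_ofReal_re, Complex.div_ofReal_im]
    ring
  obtain ⟨t, ht⟩ : ∃ t : ℝ, t = s ^ 2 - 2 * s * dt p w := ⟨_, rfl⟩
  have hsq : ‖p - (s : ℂ) * w‖ ^ 2 = ‖p‖ ^ 2 + t := by
    rw [nsq_pair, nsq_pair, ht]
    have : s ^ 2 = s ^ 2 * dt w w := by rw [hw2, mul_one]
    rw [this]
    unfold dt
    rw [Complex.sub_re, Complex.sub_im, Complex.re_ofReal_mul, Complex.im_ofReal_mul]
    ring
  have hrhs : ‖p‖ - s * dt (p / ‖p‖) w + s ^ 2 / (2 * ‖p‖) = ‖p‖ + t / (2 * ‖p‖) := by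
    rw [hd, ht]
    field_simp
    ring
  rw [hrhs]
  have hnn : 0 ≤ ‖p‖ ^ 2 + t := by rw [← hsq]; positivity
  have h1 : 0 ≤ ‖p‖ + t / (2 * ‖p‖) := by
    have : ‖p‖ + t / (2 * ‖p‖) = (‖p‖ ^ 2 + (‖p‖ ^ 2 + t)) / (2 * ‖p‖) := by
      field_simp
      ring
    rw [this]
    positivity
  apply le_of_sq_le_sq _ h1
  rw [hsq]
  have : (‖p‖ + t / (2 * ‖p‖)) ^ 2 = ‖p‖ ^ 2 + t + (t / (2 * ‖p‖)) ^ 2 := by
    field_simp
    ring
  rw [this]
  have := sq_nonneg (t / (2 * ‖p‖))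
  linarith

theorem t_plPair : plPair := by
  intro S z i j E0 hc hmin hi hj
  by_contra hcon
  push Not at hcon
  have hi' : i - z ≠ 0 := sub_ne_zero.2 hi
  have hj' : j - z ≠ 0 := sub_ne_zero.2 hj
  have ha : 0 < ‖i - z‖ := norm_pos_iff.2 hi'
  have hb : 0 < ‖j - z‖ := norm_pos_iff.2 hj'
  obtain ⟨u, hu⟩ : ∃ u : ℂ, u = (i - z) / ‖i - z‖ := ⟨_, rfl⟩
  obtain ⟨v, hv⟩ : ∃ v : ℂ, v = (j - z) / ‖j - z‖ := ⟨_, rfl⟩
  rw [← hu, ← hv] at hcon
  have hu1 : ‖u‖ = 1 := by
    rw [hu, norm_div, Complex.norm_real, Real.norm_of_nonneg ha.le, div_self ha.ne']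
  have hv1 : ‖v‖ = 1 := by
    rw [hv, norm_div, Complex.norm_real, Real.norm_of_nonneg hb.le, div_self hb.ne']
  obtain ⟨m, hm⟩ : ∃ m : ℝ, m = ‖u + v‖ := ⟨_, rfl⟩
  have hm2 : m ^ 2 = 2 + 2 * dt u v := by
    have e1 : dt u u = 1 := by rw [← nsq_pair, hu1, one_pow]
    have e2 : dt v v = 1 := by rw [← nsq_pair, hv1, one_pow]
    have e3 : dt (u + v) (u + v) = dt u u + dt v v + 2 * dt u v := by
      unfold dt
      rw [Complex.add_re, Complex.add_im]
      ring
    rw [hm, nsq_pair, e3, e1, e2]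
    ring
  have hm0 : 0 ≤ m := by rw [hm]; exact norm_nonneg _
  have hm1 : 1 < m := by
    by_contra hle
    push Not at hle
    nlinarith
  have hmp : 0 < m := by linarith
  obtain ⟨w, hw⟩ : ∃ w : ℂ, w = (u + v) / m := ⟨_, rfl⟩
  have hw1 : ‖w‖ = 1 := by
    rw [hw, norm_div, Complex.norm_real, Real.norm_of_nonneg hm0, ← hm, div_self hmp.ne']
  have huw : dt u w + dt v w = m := by
    have e1 : dt u w + dt v w = dt (u + v) (u + v) / m := by
      rw [hw]
      unfold dt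
      rw [Complex.div_ofReal_re, Complex.div_ofReal_im, Complex.add_re, Complex.add_im]
      ring
    rw [e1, ← nsq_pair, ← hm]
    field_simp
  obtain ⟨K, hK⟩ : ∃ K : ℝ, K = 1 / (2 * ‖i - z‖) + 1 / (2 * ‖j - z‖) := ⟨_, rfl⟩
  have hKp : 0 < K := by rw [hK]; positivity
  obtain ⟨s, hs⟩ : ∃ s : ℝ, s = (m - 1) / (2 * K) := ⟨_, rfl⟩
  have hsp : 0 < s := by
    rw [hs]
    exact div_pos (by linarith) (by linarith)
  have hsK : s * K = (m - 1) / 2 := by
    rw [hs]
    field_simp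
  have h1 := move_pair hi' hw1 s
  have h2 := move_pair hj' hw1 s
  rw [← hu] at h1
  rw [← hv] at h2
  obtain ⟨z', hz'⟩ : ∃ z' : ℂ, z' = z + (s : ℂ) * w := ⟨_, rfl⟩
  have hnew : NConn ((z, z') :: (z', i) :: (z', j) :: E0) S := by
    have key : ∀ x y : ℂ, EqvGen (fun x y => (x, y) ∈ (z, i) :: (z, j) :: E0) x y →
        EqvGen (fun x y => (x, y) ∈ (z, z') :: (z', i) :: (z', j) :: E0) x y := by
      intro x y h
      induction h with
      | rel x y h =>
        rcases List.mem_cons.1 h with h | h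
        · have hx : x = z := congrArg Prod.fst h
          have hy : y = i := congrArg Prod.snd h
          rw [hx, hy]
          exact EqvGen.trans _ z' _ (EqvGen.rel _ _ (by simp)) (EqvGen.rel _ _ (by simp))
        · rcases List.mem_cons.1 h with h | h
          · have hx : x = z := congrArg Prod.fst h
            have hy : y = j := congrArg Prod.snd h
            rw [hx, hy]
            exact EqvGen.trans _ z' _ (EqvGen.rel _ _ (by simp)) (EqvGen.rel _ _ (by simp))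
          · exact EqvGen.rel _ _ (List.mem_cons_of_mem _ (List.mem_cons_of_mem _
              (List.mem_cons_of_mem _ h)))
      | refl x => exact EqvGen.refl x
      | symm x y _ ih => exact EqvGen.symm _ _ ih
      | trans x y z _ _ ih1 ih2 => exact EqvGen.trans _ _ _ ih1 ih2
    intro a ha b hb
    exact key a b (hc a ha b hb)
  have hlen := hmin _ hnew
  have hcons : ∀ (f : ℂ × ℂ) (L : List (ℂ × ℂ)), nlen dist (f :: L) = dist f.1 f.2 + nlen dist L := by
    intro f L; simp [nlen]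
  simp only [hcons] at hlen
  have d1 : dist z i = ‖i - z‖ := by rw [dist_comm, dist_eq_norm]
  have d2 : dist z j = ‖j - z‖ := by rw [dist_comm, dist_eq_norm]
  have d3 : dist z z' = s := by
    rw [dist_comm, dist_eq_norm, hz', add_sub_cancel_left, norm_mul, hw1, mul_one,
      Complex.norm_real, Real.norm_of_nonneg hsp.le]
  have d4 : dist z' i = ‖i - z - (s : ℂ) * w‖ := by
    rw [dist_comm, dist_eq_norm, hz']
    congr 1
    ring
  have d5 : dist z' j = ‖j - z - (s : ℂ) * w‖ := by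
    rw [dist_comm, dist_eq_norm, hz']
    congr 1
    ring
  rw [d1, d2, d3, d4, d5] at hlen
  have hsum : s ^ 2 / (2 * ‖i - z‖) + s ^ 2 / (2 * ‖j - z‖) = s * (s * K) := by
    rw [hK]; ring
  rw [hsK] at hsum
  have hsuw : s * dt u w + s * dt v w = s * m := by rw [← mul_add, huw]
  have hneg : s - s * m + s * ((m - 1) / 2) < 0 := by
    have : s - s * m + s * ((m - 1) / 2) = -(s * (m - 1) / 2) := by ring
    rw [this]
    have : 0 < s * (m - 1) := mul_pos hsp (by linarith)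
    linarith
  linarith

end Pool.Agent.Helper18.GP
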