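import Pool.Agent.Helper9.GP.PlSt

/-!
# Gilbert-Pollak, chapter COR, part P, module three: at most three edges at a point
-/

namespace Pool.Agent.Helper18.GP

open Relation Classical

theorem nlen_perm_three {L M : List (ℂ × ℂ)} (h : L.Perm M) : nlen dist L = nlen dist M := by
  unfold nlen
  exact (h.map _).sum_eq

theorem nlen_cons_three (e : ℂ × ℂ) (L : List (ℂ × ℂ)) :
    nlen dist (e :: L) = dist e.1 e.2 + nlen dist L := by
  unfold nlen
  rw [List.map_cons, List.sum_cons]

theorem nconn_mono_three {L M : List (ℂ × ℂ)} {S : Set ℂ}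
    (h : ∀ e ∈ L, e ∈ M ∨ (e.2, e.1) ∈ M) (hL : NConn L S) : NConn M S := by
  intro a ha b hb
  have key : ∀ x y, EqvGen (fun x y => (x, y) ∈ L) x y → EqvGen (fun x y => (x, y) ∈ M) x y := by
    intro x y hxy
    induction hxy with
    | rel x y hr =>
      rcases h _ hr with h1 | h1
      · exact EqvGen.rel _ _ h1
      · exact EqvGen.symm _ _ (EqvGen.rel _ _ h1)
    | refl x => exact EqvGen.refl _
    | symm x y _ ih => exact EqvGen.symm _ _ ih
    | trans x y w _ _ ih1 ih2 => exact EqvGen.trans _ _ _ ih1 ih2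
  exact key a b (hL a ha b hb)

/-- the end different from `z` -/
noncomputable def oth_three (z : ℂ) (e : ℂ × ℂ) : ℂ := if e.1 = z then e.2 else e.1

theorem oth_ne_three {z : ℂ} {e : ℂ × ℂ} (he : (e.1 = z ∧ e.2 ≠ z) ∨ (e.1 ≠ z ∧ e.2 = z)) :
    oth_three z e ≠ z := by
  unfold oth_three
  rcases he with ⟨h1, h2⟩ | ⟨h1, h2⟩
  · rw [if_pos h1]; exact h2
  · rw [if_neg h1]; exact h1

theorem oth_eq_three {z : ℂ} {e : ℂ × ℂ} (he : (e.1 = z ∧ e.2 ≠ z) ∨ (e.1 ≠ z ∧ e.2 = z)) :
    e = (z, oth_three z e) ∨ (e.2, e.1) = (z, oth_three z e) := by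
  unfold oth_three
  rcases he with ⟨h1, h2⟩ | ⟨h1, h2⟩
  · rw [if_pos h1]
    left
    exact Prod.ext h1 rfl
  · rw [if_neg h1]
    right
    exact Prod.ext h2 rfl

theorem oth_dist_three {z : ℂ} {e : ℂ × ℂ} (he : (e.1 = z ∧ e.2 ≠ z) ∨ (e.1 ≠ z ∧ e.2 = z)) :
    dist z (oth_three z e) = dist e.1 e.2 := by
  unfold oth_three
  rcases he with ⟨h1, h2⟩ | ⟨h1, h2⟩
  · rw [if_pos h1, h1]
  · rw [if_neg h1, h2, dist_comm]

theorem pair_three (h1 : plPair) (S : Set ℂ) (z i j : ℂ) (M E0 : List (ℂ × ℂ))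
    (hp : M.Perm ((z, i) :: (z, j) :: E0)) (hc : NConn M S)
    (hmin : ∀ E, NConn E S → nlen dist M ≤ nlen dist E) (hi : i ≠ z) (hj : j ≠ z) :
    dt ((i - z) / ‖i - z‖) ((j - z) / ‖j - z‖) ≤ -1 / 2 := by
  refine h1 S z i j E0 (nconn_mono_three (fun e he => Or.inl (hp.mem_iff.1 he)) hc) ?_ hi hj
  intro E hE
  rw [← nlen_perm_three hp]
  exact hmin E hE

theorem unit_three {z i : ℂ} (hi : i ≠ z) :
    dt ((i - z) / ‖i - z‖) ((i - z) / ‖i - z‖) = 1 := by
  have h0 : ‖i - z‖ ≠ 0 := norm_ne_zero_iff.2 (sub_ne_zero.2 hi)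
  have h1 : ‖(i - z) / (‖i - z‖ : ℂ)‖ = 1 := by
    rw [norm_div, Complex.norm_real, norm_norm, div_self h0]
  have h2 : dt ((i - z) / ‖i - z‖) ((i - z) / ‖i - z‖) = Complex.normSq ((i - z) / ‖i - z‖) := by
    rw [Complex.normSq_apply]
    rfl
  rw [h2, Complex.normSq_eq_norm_sq, h1]
  norm_num

theorem four_three (a b c d : ℂ) (ha : dt a a = 1) (hb : dt b b = 1) (hc : dt c c = 1)
    (hd : dt d d = 1) (hab : dt a b ≤ -1 / 2) (hac : dt a c ≤ -1 / 2) (had : dt a d ≤ -1 / 2)
    (hbc : dt b c ≤ -1 / 2) (hbd : dt b d ≤ -1 / 2) (hcd : dt c d ≤ -1 / 2) : False := by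
  unfold dt at *
  nlinarith [sq_nonneg (a.re + b.re + c.re + d.re), sq_nonneg (a.im + b.im + c.im + d.im)]

theorem t_plThree (h1 : plPair) : plThree := by
  intro S z L hL hmin
  by_contra hcon
  push Not at hcon
  unfold inc at hcon
  set p : ℂ × ℂ → Bool := fun e => decide ((e.1 = z ∧ e.2 ≠ z) ∨ (e.1 ≠ z ∧ e.2 = z)) with hp
  have hperm : (L.filter p ++ L.filter (fun e => !(p e))).Perm L := List.filter_append_perm p L
  generalize hF : L.filter p = F at hperm hcon
  generalize L.filter (fun e => !(p e)) = R at hperm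
  have hFp : ∀ e ∈ F, (e.1 = z ∧ e.2 ≠ z) ∨ (e.1 ≠ z ∧ e.2 = z) := by
    intro e he
    rw [← hF, List.mem_filter] at he
    exact of_decide_eq_true he.2
  match F, hcon, hFp, hperm with
  | e1 :: e2 :: e3 :: e4 :: F', _, hFp, hperm =>
    have p1 := hFp e1 (by simp)
    have p2 := hFp e2 (by simp)
    have p3 := hFp e3 (by simp)
    have p4 := hFp e4 (by simp)
    set E0 : List (ℂ × ℂ) := F' ++ R with hE0
    set i1 := oth_three z e1 with hi1
    set i2 := oth_three z e2 with hi2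
    set i3 := oth_three z e3 with hi3
    set i4 := oth_three z e4 with hi4
    have hperm' : (e1 :: e2 :: e3 :: e4 :: E0).Perm L := by
      rw [hE0]
      simpa using hperm
    set M : List (ℂ × ℂ) := (z, i1) :: (z, i2) :: (z, i3) :: (z, i4) :: E0 with hM
    have hturn : ∀ (e : ℂ × ℂ), (e.1 = z ∧ e.2 ≠ z) ∨ (e.1 ≠ z ∧ e.2 = z) →
        (z, oth_three z e) ∈ M → e ∈ M ∨ (e.2, e.1) ∈ M := by
      intro e he hm
      rcases oth_eq_three he with h | h
      · left; rw [h]; exact hm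
      · right; rw [h]; exact hm
    have hMc : NConn M S := by
      refine nconn_mono_three ?_ hL
      intro e he
      have he' := hperm'.mem_iff.2 he
      simp only [List.mem_cons] at he'
      rcases he' with h | h | h | h | h
      · rw [h]; exact hturn e1 p1 (by simp [hM, hi1])
      · rw [h]; exact hturn e2 p2 (by simp [hM, hi2])
      · rw [h]; exact hturn e3 p3 (by simp [hM, hi3])
      · rw [h]; exact hturn e4 p4 (by simp [hM, hi4])
      · left
        simp only [hM, List.mem_cons]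
        tauto
    have hlen : nlen dist M = nlen dist L := by
      rw [← nlen_perm_three hperm', hM]
      simp only [nlen_cons_three]
      rw [hi1, hi2, hi3, hi4, oth_dist_three p1, oth_dist_three p2, oth_dist_three p3,
        oth_dist_three p4]
    have hMmin : ∀ E, NConn E S → nlen dist M ≤ nlen dist E := by
      intro E hE
      rw [hlen]
      exact hmin E hE
    have n1 : i1 ≠ z := oth_ne_three p1
    have n2 : i2 ≠ z := oth_ne_three p2
    have n3 : i3 ≠ z := oth_ne_three p3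
    have n4 : i4 ≠ z := oth_ne_three p4
    have q12 := pair_three h1 S z i1 i2 M ((z, i3) :: (z, i4) :: E0) (List.Perm.refl _) hMc hMmin
      n1 n2
    have q13 := pair_three h1 S z i1 i3 M ((z, i2) :: (z, i4) :: E0)
      ((List.Perm.swap _ _ _).cons _) hMc hMmin n1 n3
    have q14 := pair_three h1 S z i1 i4 M ((z, i2) :: (z, i3) :: E0)
      ((((List.Perm.swap _ _ _).cons _).trans (List.Perm.swap _ _ _)).cons _) hMc hMmin n1 n4
    have q23 := pair_three h1 S z i2 i3 M ((z, i1) :: (z, i4) :: E0)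
      ((List.Perm.swap _ _ _).trans ((List.Perm.swap _ _ _).cons _)) hMc hMmin n2 n3
    have q24 := pair_three h1 S z i2 i4 M ((z, i1) :: (z, i3) :: E0)
      ((List.Perm.swap _ _ _).trans
        ((((List.Perm.swap _ _ _).cons _).trans (List.Perm.swap _ _ _)).cons _)) hMc hMmin n2 n4
    have q34 := pair_three h1 S z i3 i4 M ((z, i1) :: (z, i2) :: E0)
      (by
        rw [hM]
        have s1 : ((z, i1) :: (z, i2) :: (z, i3) :: (z, i4) :: E0).Perm
            ((z, i1) :: (z, i3) :: (z, i2) :: (z, i4) :: E0) := (List.Perm.swap _ _ _).cons _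
        have s2 : ((z, i1) :: (z, i3) :: (z, i2) :: (z, i4) :: E0).Perm
            ((z, i3) :: (z, i1) :: (z, i2) :: (z, i4) :: E0) := List.Perm.swap _ _ _
        have s3 : ((z, i3) :: (z, i1) :: (z, i2) :: (z, i4) :: E0).Perm
            ((z, i3) :: (z, i1) :: (z, i4) :: (z, i2) :: E0) :=
          ((List.Perm.swap _ _ _).cons _).cons _
        have s4 : ((z, i3) :: (z, i1) :: (z, i4) :: (z, i2) :: E0).Perm
            ((z, i3) :: (z, i4) :: (z, i1) :: (z, i2) :: E0) := (List.Perm.swap _ _ _).cons _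
        exact ((s1.trans s2).trans s3).trans s4) hMc hMmin n3 n4
    exact four_three _ _ _ _ (unit_three n1) (unit_three n2) (unit_three n3) (unit_three n4)
      q12 q13 q14 q23 q24 q34
  | [], hc, _, _ => simp at hc
  | [_], hc, _, _ => simp at hc
  | [_, _], hc, _, _ => simp at hc
  | [_, _, _], hc, _, _ => simp at hc

end Pool.Agent.Helper18.GP
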