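import Pool.Agent.Helper9.GP.PlSt

/-!
# Gilbert-Pollak, chapter COR: a finite network contains a binary tree
-/

namespace Pool.Agent.Helper18.GP

open Relation Classical

theorem nlen_nil_tree : nlen (dist : ℂ → ℂ → ℝ) [] = 0 := by simp [nlen]

theorem nlen_cons_tree (e : ℂ × ℂ) (L : List (ℂ × ℂ)) :
    nlen dist (e :: L) = dist e.1 e.2 + nlen dist L := by simp [nlen]

theorem nlen_append_tree (L L' : List (ℂ × ℂ)) :
    nlen dist (L ++ L') = nlen dist L + nlen dist L' := by simp [nlen]

theorem nlen_nonneg_tree (L : List (ℂ × ℂ)) : 0 ≤ nlen dist L := by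
  unfold nlen
  refine List.sum_nonneg fun r hr => ?_
  rw [List.mem_map] at hr
  obtain ⟨e, -, rfl⟩ := hr
  exact dist_nonneg

theorem nlen_perm_tree {L L' : List (ℂ × ℂ)} (h : L.Perm L') :
    nlen dist L = nlen dist L' := by
  unfold nlen
  exact (h.map _).sum_eq

theorem nlen_filter_tree (L : List (ℂ × ℂ)) (P : ℂ × ℂ → Bool) :
    nlen dist (L.filter P) + nlen dist (L.filter fun e => !P e) = nlen dist L := by
  induction L with
  | nil => simp [nlen]
  | cons e L ih =>
    by_cases h : P e
    · rw [List.filter_cons_of_pos h, List.filter_cons_of_neg (by simpa using h), nlen_cons_tree,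
        nlen_cons_tree]
      linarith
    · rw [List.filter_cons_of_neg (by simpa using h), List.filter_cons_of_pos (by simpa using h),
        nlen_cons_tree, nlen_cons_tree]
      linarith

/-- change of the starting point -/
theorem nlen_ed_tree (t : BT) (x y : ℂ) :
    nlen dist (t.ed x) ≤ dist x y + nlen dist (t.ed y) := by
  cases t with
  | lf p =>
    simp only [BT.ed, nlen_cons_tree, nlen_nil_tree]
    linarith [dist_triangle x y p]
  | nd z a b =>
    simp only [BT.ed, nlen_cons_tree]
    linarith [dist_triangle x y z]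

theorem inv_tree {r : ℂ → ℂ → Prop} {U : ℂ → Prop} (h : ∀ x y, r x y → (U x ↔ U y)) {x y : ℂ}
    (hxy : EqvGen r x y) : U x ↔ U y := by
  induction hxy with
  | rel x y h1 => exact h x y h1
  | refl x => exact Iff.rfl
  | symm x y _ ih => exact ih.symm
  | trans x y z _ _ ih1 ih2 => exact ih1.trans ih2

theorem t_plTree : plTree := by
  intro E
  obtain ⟨n, hn⟩ : ∃ n, E.length = n := ⟨_, rfl⟩
  induction n using Nat.strong_induction_on generalizing E with
  | _ n ih =>
  intro x B hB hxB hE
  -- an edge at `x`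
  obtain ⟨e, y, heE, he⟩ : ∃ (e : ℂ × ℂ) (y : ℂ), e ∈ E ∧ (e = (x, y) ∨ e = (y, x)) := by
    by_contra hcon
    push Not at hcon
    obtain ⟨b, hb⟩ := hB
    have h1 := hE x (Set.mem_insert _ _) b (Set.mem_insert_of_mem _ hb)
    have h2 := (inv_tree (U := fun z => z = x) (fun u v huv => by
      constructor
      · rintro rfl
        exact absurd rfl (hcon (u, v) v huv).1
      · rintro rfl
        exact absurd rfl (hcon (u, v) u huv).2) h1).1 rfl
    rw [h2] at hb
    exact hxB hb
  have hperm := List.perm_cons_erase heE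
  obtain ⟨E0, hE0⟩ : ∃ E0, E0 = E.erase e := ⟨_, rfl⟩
  rw [← hE0] at hperm
  have hlen : E0.length < n := by
    have := hperm.length_eq
    rw [List.length_cons] at this
    omega
  have hnl : nlen dist E = dist x y + nlen dist E0 := by
    rw [nlen_perm_tree hperm, nlen_cons_tree]
    rcases he with rfl | rfl
    · rfl
    · rw [dist_comm]
  obtain ⟨C, hC⟩ : ∃ C : Set ℂ, C = {z | EqvGen (fun a b => (a, b) ∈ E0) x z} := ⟨_, rfl⟩
  have hxC : x ∈ C := by rw [hC]; exact EqvGen.refl _
  have hcl : ∀ a b, (a, b) ∈ E0 → (a ∈ C ↔ b ∈ C) := by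
    intro a b hab
    rw [hC]
    constructor
    · intro h
      exact EqvGen.trans _ _ _ h (EqvGen.rel _ _ hab)
    · intro h
      exact EqvGen.trans _ _ _ h (EqvGen.symm _ _ (EqvGen.rel _ _ hab))
  obtain ⟨Ex, hEx⟩ : ∃ Ex, Ex = E0.filter fun p => decide (p.1 ∈ C) := ⟨_, rfl⟩
  obtain ⟨Ey, hEy⟩ : ∃ Ey, Ey = E0.filter fun p => !decide (p.1 ∈ C) := ⟨_, rfl⟩
  have hsum : nlen dist Ex + nlen dist Ey = nlen dist E0 := by
    rw [hEx, hEy]
    exact nlen_filter_tree E0 _
  have hlx : Ex.length < n := by
    rw [hEx]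
    exact (List.length_filter_le _ _).trans_lt hlen
  have hly : Ey.length < n := by
    rw [hEy]
    exact (List.length_filter_le _ _).trans_lt hlen
  -- claim 1
  have c1 : ∀ a b, EqvGen (fun a b => (a, b) ∈ E0) a b → a ∈ C →
      EqvGen (fun a b => (a, b) ∈ Ex) a b := by
    intro a b hab
    induction hab with
    | rel a b h =>
      intro ha
      refine EqvGen.rel _ _ ?_
      rw [hEx, List.mem_filter]
      exact ⟨h, by simpa using ha⟩
    | refl a => intro _; exact EqvGen.refl _
    | symm a b h ih1 =>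
      intro hb
      exact EqvGen.symm _ _ (ih1 ((inv_tree hcl h).2 hb))
    | trans a b c h1 _ ih1 ih2 =>
      intro ha
      exact EqvGen.trans _ _ _ (ih1 ha) (ih2 ((inv_tree hcl h1).1 ha))
  have c1' : ∀ b ∈ C, EqvGen (fun a b => (a, b) ∈ Ex) x b := by
    intro b hb
    rw [hC] at hb
    exact c1 x b hb hxC
  -- claim 2
  have c2 : ∀ b ∈ B, b ∈ C ∨ EqvGen (fun a b => (a, b) ∈ Ey) y b := by
    intro b hb
    have h1 := hE x (Set.mem_insert _ _) b (Set.mem_insert_of_mem _ hb)
    refine (inv_tree (U := fun z => z ∈ C ∨ EqvGen (fun a b => (a, b) ∈ Ey) y z) ?_ h1).1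
      (Or.inl hxC)
    intro u v huv
    have huv' : (u, v) = e ∨ (u, v) ∈ E0 := List.mem_cons.1 (hperm.mem_iff.1 huv)
    have hy' : y ∈ C ∨ EqvGen (fun a b => (a, b) ∈ Ey) y y := Or.inr (EqvGen.refl _)
    have hx' : x ∈ C ∨ EqvGen (fun a b => (a, b) ∈ Ey) y x := Or.inl hxC
    rcases huv' with h | h
    · rcases he with he | he
      · rw [he] at h
        obtain ⟨rfl, rfl⟩ := Prod.mk.inj h
        exact ⟨fun _ => hy', fun _ => hx'⟩
      · rw [he] at h
        obtain ⟨rfl, rfl⟩ := Prod.mk.inj h
        exact ⟨fun _ => hx', fun _ => hy'⟩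
    · by_cases hu : u ∈ C
      · exact ⟨fun _ => Or.inl ((hcl u v h).1 hu), fun _ => Or.inl hu⟩
      · have hv : v ∉ C := fun hv => hu ((hcl u v h).2 hv)
        have huvy : (u, v) ∈ Ey := by
          rw [hEy, List.mem_filter]
          exact ⟨h, by simpa using hu⟩
        constructor
        · rintro (h' | h')
          · exact absurd h' hu
          · exact Or.inr (EqvGen.trans _ _ _ h' (EqvGen.rel _ _ huvy))
        · rintro (h' | h')
          · exact absurd h' hv
          · exact Or.inr (EqvGen.trans _ _ _ h' (EqvGen.symm _ _ (EqvGen.rel _ _ huvy)))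
  have hdxy : 0 ≤ dist x y := dist_nonneg
  have hex0 := nlen_nonneg_tree Ex
  have hey0 := nlen_nonneg_tree Ey
  obtain ⟨B1, hB1⟩ : ∃ B1, B1 = B.filter fun z => z ∈ C := ⟨_, rfl⟩
  obtain ⟨B2, hB2⟩ : ∃ B2, B2 = B.filter fun z => z ∉ C := ⟨_, rfl⟩
  have hB12 : B1 ∪ B2 = B := by
    rw [hB1, hB2]
    exact Finset.filter_union_filter_not_eq _ _
  have hx1 : x ∉ B1 := fun h => hxB (by rw [hB1] at h; exact (Finset.mem_filter.1 h).1)
  have hNx : NConn Ex (insert x (B1 : Set ℂ)) := by
    have h1 : ∀ b ∈ insert x (B1 : Set ℂ), EqvGen (fun a b => (a, b) ∈ Ex) x b := by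
      rintro b (rfl | hb)
      · exact EqvGen.refl _
      · refine c1' b ?_
        rw [hB1] at hb
        exact (Finset.mem_filter.1 (Finset.mem_coe.1 hb)).2
    intro a ha b hb
    exact EqvGen.trans _ _ _ (EqvGen.symm _ _ (h1 a ha)) (h1 b hb)
  rcases B2.eq_empty_or_nonempty with hemp | hne
  · -- all of `B` is joined to `x` without `e`
    rw [hemp, Finset.union_empty] at hB12
    rw [hB12] at hNx
    obtain ⟨t, ht1, ht2, ht3⟩ := ih _ hlx Ex rfl x B hB hxB hNx
    exact ⟨t, ht1, ht2, by linarith⟩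
  · have hN2 : ∀ b ∈ B2, EqvGen (fun a b => (a, b) ∈ Ey) y b := by
      intro b hb
      rw [hB2, Finset.mem_filter] at hb
      exact (c2 b hb.1).resolve_left hb.2
    have hNy : ∀ B' ⊆ B2, NConn Ey (insert y (B' : Set ℂ)) := by
      intro B' hB'
      have h1 : ∀ b ∈ insert y (B' : Set ℂ), EqvGen (fun a b => (a, b) ∈ Ey) y b := by
        rintro b (rfl | hb)
        · exact EqvGen.refl _
        · exact hN2 b (hB' hb)
      intro a ha b hb
      exact EqvGen.trans _ _ _ (EqvGen.symm _ _ (h1 a ha)) (h1 b hb)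
    -- the tree on the other side
    obtain ⟨t2, h21, h22, h23⟩ : ∃ t : BT, t.lv.Nodup ∧ t.lv.toFinset = B2 ∧
        nlen dist (t.ed y) ≤ nlen dist Ey := by
      by_cases hyB : y ∈ B2
      · rcases (B2.erase y).eq_empty_or_nonempty with he0 | hne0
        · refine ⟨BT.lf y, by simp [BT.lv], ?_, ?_⟩
          · have h1 : B2 = {y} := by
              rw [← Finset.insert_erase hyB, he0]
              rfl
            rw [h1]
            simp [BT.lv]
          · simp only [BT.ed, nlen_cons_tree, nlen_nil_tree, dist_self]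
            linarith
        · obtain ⟨t', h1, h2, h3⟩ := ih _ hly Ey rfl y (B2.erase y) hne0
            (Finset.notMem_erase _ _) (hNy _ (Finset.erase_subset _ _))
          refine ⟨BT.nd y (BT.lf y) t', ?_, ?_, ?_⟩
          · simp only [BT.lv, List.singleton_append, List.nodup_cons]
            refine ⟨?_, h1⟩
            rw [← List.mem_toFinset, h2]
            exact Finset.notMem_erase _ _
          · simp only [BT.lv, List.singleton_append, List.toFinset_cons]
            rw [h2, Finset.insert_erase hyB]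
          · simp only [BT.ed, nlen_cons_tree, nlen_append_tree, nlen_nil_tree, dist_self]
            linarith
      · exact ih _ hly Ey rfl y B2 hne hyB (hNy _ (Finset.Subset.refl _))
    have h24 := nlen_ed_tree t2 x y
    rcases B1.eq_empty_or_nonempty with he1 | hne1
    · rw [he1, Finset.empty_union] at hB12
      refine ⟨t2, h21, by rw [h22, hB12], ?_⟩
      linarith
    · obtain ⟨t1, h11, h12, h13⟩ := ih _ hlx Ex rfl x B1 hne1 hx1 hNx
      refine ⟨BT.nd x t1 t2, ?_, ?_, ?_⟩
      · simp only [BT.lv]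
        rw [List.nodup_append']
        refine ⟨h11, h21, ?_⟩
        rw [List.disjoint_iff_ne]
        rintro a ha b hb rfl
        rw [← List.mem_toFinset, h12, hB1, Finset.mem_filter] at ha
        rw [← List.mem_toFinset, h22, hB2, Finset.mem_filter] at hb
        exact hb.2 ha.2
      · simp only [BT.lv, List.toFinset_append]
        rw [h12, h22, hB12]
      · simp only [BT.ed, nlen_cons_tree, nlen_append_tree, dist_self]
        linarith

end Pool.Agent.Helper18.GP
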