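import Pool.Agent.Helper9.GP.PlSt

/-!
# Gilbert-Pollak, chapter COR, part P: an edge of length zero forces four edges
-/

namespace Pool.Agent.Helper18.GP

open Relation Classical

private theorem inc_cons_zero (z : ℂ) (e : ℂ × ℂ) (L : List (ℂ × ℂ)) :
    inc z (e :: L) = (if (e.1 = z ∧ e.2 ≠ z) ∨ (e.1 ≠ z ∧ e.2 = z) then 1 else 0) + inc z L := by
  unfold inc
  rw [List.filter_cons]
  split_ifs with h1 h2 h2
  · rw [List.length_cons]; omega
  · exact absurd (of_decide_eq_true h1) h2
  · exact absurd (decide_eq_true h2) h1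
  · omega

private theorem inc_append_zero (z : ℂ) (L M : List (ℂ × ℂ)) :
    inc z (L ++ M) = inc z L + inc z M := by
  unfold inc
  rw [List.filter_append, List.length_append]

private theorem inc_one_zero (z : ℂ) (t : BT) :
    z ∉ t.lv → 1 ≤ inc z (t.ed z) ∧ (t.rt = z → 2 ≤ inc z (t.ed z)) := by
  induction t with
  | lf p =>
    intro hz
    have hp : p ≠ z := by
      rintro rfl
      exact hz (by simp [BT.lv])
    have h1 : inc z (BT.ed (BT.lf p) z) = 1 := by
      show inc z [(z, p)] = 1
      rw [inc_cons_zero, if_pos (Or.inl ⟨rfl, hp⟩)]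
      rfl
    refine ⟨by omega, fun h => absurd h hp⟩
  | nd y a b iha ihb =>
    intro hz
    have hza : z ∉ a.lv := fun h => hz (by simp [BT.lv, h])
    have hzb : z ∉ b.lv := fun h => hz (by simp [BT.lv, h])
    have h0 : inc z (BT.ed (BT.nd y a b) z) =
        (if (z = z ∧ y ≠ z) ∨ (z ≠ z ∧ y = z) then 1 else 0) +
          (inc z (a.ed y) + inc z (b.ed y)) := by
      show inc z ((z, y) :: (a.ed y ++ b.ed y)) = _
      rw [inc_cons_zero, inc_append_zero]
    by_cases hy : y = z
    · subst hy
      have h1 := (iha hza).1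
      have h2 := (ihb hzb).1
      refine ⟨by omega, fun _ => by omega⟩
    · rw [if_pos (Or.inl ⟨rfl, hy⟩)] at h0
      exact ⟨by omega, fun h => absurd h hy⟩

private theorem inc_two_zero (z : ℂ) (t : BT) : z ∉ t.lv →
    (∀ x, x ≠ z → (z, z) ∈ t.ed x → 4 ≤ inc z (t.ed x)) ∧
      ((z, z) ∈ t.ed z → 2 ≤ inc z (t.ed z)) := by
  induction t with
  | lf p =>
    intro hz
    have hp : p ≠ z := by
      rintro rfl
      exact hz (by simp [BT.lv])
    have h1 : ∀ x, (z, z) ∉ BT.ed (BT.lf p) x := by
      intro x hx
      have h2 : (z, z) = (x, p) := by simpa [BT.ed] using hx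
      exact hp (congrArg Prod.snd h2).symm
    exact ⟨fun x _ hx => absurd hx (h1 x), fun hx => absurd hx (h1 z)⟩
  | nd y a b iha ihb =>
    intro hz
    have hza : z ∉ a.lv := fun h => hz (by simp [BT.lv, h])
    have hzb : z ∉ b.lv := fun h => hz (by simp [BT.lv, h])
    have h0 : ∀ x, inc z (BT.ed (BT.nd y a b) x) =
        (if (x = z ∧ y ≠ z) ∨ (x ≠ z ∧ y = z) then 1 else 0) +
          (inc z (a.ed y) + inc z (b.ed y)) := by
      intro x
      show inc z ((x, y) :: (a.ed y ++ b.ed y)) = _
      rw [inc_cons_zero, inc_append_zero]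
    have hm : ∀ x, (z, z) ∈ BT.ed (BT.nd y a b) x → (z = x ∧ z = y) ∨ (z, z) ∈ a.ed y ∨
        (z, z) ∈ b.ed y := by
      intro x hx
      have h1 : (z, z) ∈ (x, y) :: (a.ed y ++ b.ed y) := hx
      rcases List.mem_cons.1 h1 with h2 | h2
      · rw [Prod.mk.injEq] at h2
        exact Or.inl h2
      · exact Or.inr (List.mem_append.1 h2)
    by_cases hy : y = z
    · subst hy
      have ha1 := (inc_one_zero y a hza).1
      have hb1 := (inc_one_zero y b hzb).1
      constructor
      · intro x hx hmem
        have h1 := h0 x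
        rw [if_pos (Or.inr ⟨hx, rfl⟩)] at h1
        rcases hm x hmem with h2 | h2 | h2
        · exact absurd h2.1.symm hx
        · have h3 := (iha hza).2 h2
          omega
        · have h3 := (ihb hzb).2 h2
          omega
      · intro _
        have h1 := h0 y
        omega
    · constructor
      · intro x hx hmem
        have h1 := h0 x
        rcases hm x hmem with h2 | h2 | h2
        · exact absurd h2.2.symm hy
        · have h3 := (iha hza).1 y hy h2
          omega
        · have h3 := (ihb hzb).1 y hy h2
          omega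
      · intro hmem
        have h1 := h0 z
        rcases hm z hmem with h2 | h2 | h2
        · exact absurd h2.2.symm hy
        · have h3 := (iha hza).1 y hy h2
          omega
        · have h3 := (ihb hzb).1 y hy h2
          omega

theorem t_plZero : plZero := by
  intro t x z hz hx hmem
  exact (inc_two_zero z t hz).1 x hx hmem

end Pool.Agent.Helper18.GP
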