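import Pool.Agent.Helper9.GP.PwSt

/-!
# Gilbert-Pollak, chapter COR: `FullOK` from the word rules and `stG`
-/

set_option autoImplicit false

namespace Pool.Agent.Helper18.GP

open Relation Classical

namespace Prc

lemma om_sq : om ^ 2 = om - 1 := by
  have h : Real.sqrt 3 * Real.sqrt 3 = 3 := Real.mul_self_sqrt (by norm_num)
  apply Complex.ext
  · simp only [sq, om, Complex.mul_re, Complex.sub_re, Complex.one_re]
    nlinarith
  · simp only [sq, om, Complex.mul_im, Complex.sub_im, Complex.one_im]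
    ring

lemma om_cube : om ^ 3 = -1 := by
  calc om ^ 3 = om ^ 2 * om := by ring
    _ = (om - 1) * om := by rw [om_sq]
    _ = om ^ 2 - om := by ring
    _ = -1 := by rw [om_sq]; ring

lemma om_ne : om ≠ 0 := by
  intro h
  have := om_cube
  rw [h] at this
  norm_num at this

lemma om_inv : om⁻¹ = - om ^ 2 := by
  apply inv_eq_of_mul_eq_one_right
  calc om * -om ^ 2 = - om ^ 3 := by ring
    _ = 1 := by rw [om_cube]; ring

lemma norm_om : ‖om‖ = 1 := by
  have h : ‖om‖ ^ 3 = 1 := by
    rw [← norm_pow, om_cube, norm_neg, norm_one]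
  exact (pow_eq_one_iff_of_nonneg (norm_nonneg _) (by norm_num)).1 h

/-- the right-most leaf -/
noncomputable def F : HT → ℂ → ℂ → ℂ
  | .lf l, x, d => x + l * d
  | .nd l _ b, x, d => F b (x + l * d) (d * om⁻¹)

/-- inner nodes of the right contour, deepest first -/
noncomputable def A : HT → ℂ → ℂ → List ℂ
  | .lf _, _, _ => []
  | .nd l _ b, x, d => A b (x + l * d) (d * om⁻¹) ++ [x + l * d]

/-- the left-most leaf -/
noncomputable def Lf : HT → ℂ → ℂ → ℂ
  | .lf l, x, d => x + l * d
  | .nd l a _, x, d => Lf a (x + l * d) (d * om)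

/-- inner nodes of the left contour, deepest first -/
noncomputable def C : HT → ℂ → ℂ → List ℂ
  | .lf _, _, _ => []
  | .nd l a _, x, d => C a (x + l * d) (d * om) ++ [x + l * d]

/-- the leaves from right to left -/
noncomputable def O : HT → ℂ → ℂ → List ℂ
  | .lf l, x, d => [x + l * d]
  | .nd l a b, x, d => O b (x + l * d) (d * om⁻¹) ++ O a (x + l * d) (d * om)

/-- length of the right contour -/
noncomputable def rcl : HT → ℝ
  | .lf l => l
  | .nd l _ b => l + rcl b

/-- edges of a path -/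
def es (L : List ℂ) : List (ℂ × ℂ) := L.zip L.tail

lemma es_cons (x y : ℂ) (L : List ℂ) : es (x :: y :: L) = (x, y) :: es (y :: L) := rfl

lemma es_append (L : List ℂ) (x : ℂ) (M : List ℂ) :
    es (L ++ x :: M) = es (L ++ [x]) ++ es (x :: M) := by
  induction L with
  | nil => simp [es]
  | cons a L ih =>
    cases L with
    | nil => simp [es]
    | cons b L =>
      simp only [List.cons_append] at ih ⊢
      rw [es_cons, ih, es_cons, List.cons_append]

lemma Hx_append (L : List ℂ) : ∀ (d x : ℂ) (M : List ℂ), Hx d (L ++ [x]) →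
    Hx (d * om ^ L.length) (x :: M) → Hx d (L ++ x :: M) := by
  induction L with
  | nil => intro d x M _ h; simpa using h
  | cons a L ih =>
    intro d x M h1 h2
    cases L with
    | nil =>
      refine ⟨h1.1, ?_⟩
      simpa using h2
    | cons b L =>
      simp only [List.cons_append] at h1 ⊢
      refine ⟨h1.1, ?_⟩
      apply ih (d * om) x M h1.2
      rw [List.length_cons, pow_succ'] at h2
      rwa [mul_assoc]

lemma pl_append (L : List ℂ) : ∀ (x : ℂ) (M : List ℂ),
    pl (L ++ x :: M) = pl (L ++ [x]) + pl (x :: M) := by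
  induction L with
  | nil => intro x M; simp [pl]
  | cons a L ih =>
    intro x M
    cases L with
    | nil => simp [pl]
    | cons b L =>
      simp only [List.cons_append] at ih ⊢
      rw [pl, ih, pl]; ring

lemma dinv (d : ℂ) : d * om⁻¹ = -(d * om ^ 2) := by rw [om_inv]; ring

/-! ### right contour upwards -/

lemma ru_hx : ∀ (t : HT) (x d : ℂ), t.Pos → ∃ d' : ℂ, Hx d' (F t x d :: A t x d ++ [x]) ∧
    d' * om ^ (F t x d :: A t x d).length = -(d * om) := by
  intro t
  induction t with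
  | lf l =>
    intro x d hl
    refine ⟨-d, ⟨⟨l, hl, ?_⟩, trivial⟩, ?_⟩
    · simp [F]
    · simp [A]
  | nd l a b iha ihb =>
    intro x d hp
    obtain ⟨d', h1, h2⟩ := ihb (x + l * d) (d * om⁻¹) hp.2.2
    have h3 : d' * om ^ (F b (x + l * d) (d * om⁻¹) :: A b (x + l * d) (d * om⁻¹)).length = -d := by
      rw [h2, mul_assoc, inv_mul_cancel₀ om_ne, mul_one]
    refine ⟨d', ?_, ?_⟩
    · have : F (HT.nd l a b) x d :: A (HT.nd l a b) x d ++ [x] =
        (F b (x + l * d) (d * om⁻¹) :: A b (x + l * d) (d * om⁻¹)) ++ (x + l * d) :: [x] := by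
        simp [F, A]
      rw [this]
      apply Hx_append _ _ _ _ h1
      rw [h3]
      refine ⟨⟨l, hp.1, by ring⟩, trivial⟩
    · have : (F (HT.nd l a b) x d :: A (HT.nd l a b) x d).length =
        (F b (x + l * d) (d * om⁻¹) :: A b (x + l * d) (d * om⁻¹)).length + 1 := by
        simp [F, A]
      rw [this, pow_succ, ← mul_assoc, h3]; ring

lemma ld_hx : ∀ (t : HT) (x d : ℂ), t.Pos → Hx d (x :: (C t x d).reverse ++ [Lf t x d]) := by
  intro t
  induction t with
  | lf l =>
    intro x d hl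
    exact ⟨⟨l, hl, rfl⟩, trivial⟩
  | nd l a b iha ihb =>
    intro x d hp
    have := iha (x + l * d) (d * om) hp.2.1
    have e : x :: (C (HT.nd l a b) x d).reverse ++ [Lf (HT.nd l a b) x d] =
      x :: (x + l * d) :: ((C a (x + l * d) (d * om)).reverse ++ [Lf a (x + l * d) (d * om)]) := by
      simp [C, Lf]
    rw [e]
    exact ⟨⟨l, hp.1, rfl⟩, this⟩

lemma ru_sub : ∀ (t : HT) (x d : ℂ), (F t x d :: A t x d).reverse.Sublist (t.nodes x d) := by
  intro t
  induction t with
  | lf l => intro x d; simp [F, A, HT.nodes]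
  | nd l a b iha ihb =>
    intro x d
    have e : (F (HT.nd l a b) x d :: A (HT.nd l a b) x d).reverse = (x + l * d) ::
      (F b (x + l * d) (d * om⁻¹) :: A b (x + l * d) (d * om⁻¹)).reverse := by
      simp [F, A]
    rw [e]
    exact List.Sublist.cons_cons _ ((ihb _ _).trans (List.sublist_append_right _ _))

lemma ld_sub : ∀ (t : HT) (x d : ℂ),
    ((C t x d).reverse ++ [Lf t x d]).Sublist (t.nodes x d) := by
  intro t
  induction t with
  | lf l => intro x d; simp [C, Lf, HT.nodes]
  | nd l a b iha ihb =>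
    intro x d
    have e : (C (HT.nd l a b) x d).reverse ++ [Lf (HT.nd l a b) x d] =
      (x + l * d) :: ((C a (x + l * d) (d * om)).reverse ++ [Lf a (x + l * d) (d * om)]) := by
      simp [C, Lf]
    rw [e]
    exact List.Sublist.cons_cons _ ((iha _ _).trans (List.sublist_append_left _ _))

lemma ru_es : ∀ (t : HT) (x d : ℂ),
    ((es (F t x d :: A t x d ++ [x])).map Prod.swap).reverse.Sublist (t.edges x d) := by
  intro t
  induction t with
  | lf l => intro x d; simp [F, A, HT.edges, es]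
  | nd l a b iha ihb =>
    intro x d
    have e : F (HT.nd l a b) x d :: A (HT.nd l a b) x d ++ [x] =
        (F b (x + l * d) (d * om⁻¹) :: A b (x + l * d) (d * om⁻¹)) ++ (x + l * d) :: [x] := by
        simp [F, A]
    rw [e, es_append, List.map_append, List.reverse_append]
    have e2 : ((es [x + l * d, x]).map Prod.swap).reverse = [(x, x + l * d)] := by simp [es]
    rw [e2]
    exact List.Sublist.cons_cons _ ((ihb _ _).trans (List.sublist_append_right _ _))

lemma ld_es : ∀ (t : HT) (x d : ℂ),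
    (es (x :: (C t x d).reverse ++ [Lf t x d])).Sublist (t.edges x d) := by
  intro t
  induction t with
  | lf l => intro x d; simp [C, Lf, HT.edges, es]
  | nd l a b iha ihb =>
    intro x d
    have e : x :: (C (HT.nd l a b) x d).reverse ++ [Lf (HT.nd l a b) x d] =
      x :: (x + l * d) :: ((C a (x + l * d) (d * om)).reverse ++ [Lf a (x + l * d) (d * om)]) := by
      simp [C, Lf]
    rw [e, es_cons]
    exact List.Sublist.cons_cons _ ((iha _ _).trans (List.sublist_append_left _ _))

/-! ### `EndOnly` -/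

lemma eoSym {e f : ℂ × ℂ} (h : EndOnly e f) : EndOnly f e :=
  fun z h1 h2 => (h z h2 h1).symm

lemma eoL {e f : ℂ × ℂ} (h : EndOnly e f) : EndOnly e.swap f := by
  intro z h1 h2
  have h1' : z ∈ segment ℝ e.1 e.2 := by rw [segment_symm]; exact h1
  exact ⟨(h z h1' h2).1.symm, (h z h1' h2).2⟩

lemma eoR {e f : ℂ × ℂ} (h : EndOnly e f) : EndOnly e f.swap :=
  eoSym (eoL (eoSym h))

lemma pw_ru {t : HT} {x d : ℂ} (h : (t.edges x d).Pairwise EndOnly) :
    (es (F t x d :: A t x d ++ [x])).Pairwise EndOnly := by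
  have h1 := h.sublist (ru_es t x d)
  rw [List.pairwise_reverse, List.pairwise_map] at h1
  refine h1.imp ?_
  intro a b hab
  have := eoR (eoL (eoSym hab))
  simpa using this

/-! ### chains -/

lemma HC_node {l : ℝ} {a b : HT} {x d : ℂ} (hd : d ≠ 0) (hp : (HT.nd l a b).Pos)
    (hn : ((HT.nd l a b).nodes x d).Nodup)
    (he : ((HT.nd l a b).edges x d).Pairwise EndOnly) :
    ∃ d', HC d' (F a (x + l * d) (d * om) :: A a (x + l * d) (d * om) ++
      (x + l * d) :: (C b (x + l * d) (d * om⁻¹)).reverse ++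
        [Lf b (x + l * d) (d * om⁻¹)]) := by
  obtain ⟨d', h1, h2⟩ := ru_hx a (x + l * d) (d * om) hp.2.1
  have h3 := ld_hx b (x + l * d) (d * om⁻¹) hp.2.2
  have hd' : d' ≠ 0 := by
    rintro rfl
    rw [zero_mul] at h2
    have : d * om * om = 0 := by rw [← neg_eq_zero, ← h2]
    simp [hd, om_ne] at this
  set y := x + l * d with hy
  have e1 : F a y (d * om) :: A a y (d * om) ++ y :: (C b y (d * om⁻¹)).reverse ++
      [Lf b y (d * om⁻¹)] = (F a y (d * om) :: A a y (d * om)) ++
      y :: ((C b y (d * om⁻¹)).reverse ++ [Lf b y (d * om⁻¹)]) := by simp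
  rw [e1]
  simp only [HT.nodes, HT.edges, ← hy, List.nodup_cons, List.nodup_append, List.pairwise_cons,
    List.pairwise_append] at hn he
  refine ⟨d', hd', ?_, ?_, ?_⟩
  · apply Hx_append _ _ _ _ h1
    rw [h2]
    have : -(d * om * om) = d * om⁻¹ := by rw [dinv]; ring
    rw [this]
    exact h3
  · rw [List.nodup_append]
    refine ⟨?_, ?_, ?_⟩
    · have := hn.2.1.sublist (ru_sub a y (d * om))
      rwa [List.nodup_reverse] at this
    · rw [List.nodup_cons]
      refine ⟨fun hm => hn.1 ?_, hn.2.2.1.sublist (ld_sub b y (d * om⁻¹))⟩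
      exact List.mem_append_right _ ((ld_sub b y (d * om⁻¹)).subset hm)
    · intro u hu v hv huv
      subst huv
      have hu' : u ∈ a.nodes y (d * om) := (ru_sub a y (d * om)).subset (List.mem_reverse.2 hu)
      rcases List.mem_cons.1 hv with hv | hv
      · subst hv
        exact hn.1 (List.mem_append_left _ hu')
      · exact hn.2.2.2 u hu' u ((ld_sub b y (d * om⁻¹)).subset hv) rfl
  · change (es _).Pairwise EndOnly
    rw [es_append, List.pairwise_append]
    refine ⟨pw_ru he.2.1, he.2.2.1.sublist (ld_es b y (d * om⁻¹)), ?_⟩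
    intro e he1 f hf
    have h5 : e.swap ∈ a.edges y (d * om) := by
      apply (ru_es a y (d * om)).subset
      rw [List.mem_reverse, List.mem_map]
      exact ⟨e, he1, rfl⟩
    have h6 : f ∈ b.edges y (d * om⁻¹) := (ld_es b y (d * om⁻¹)).subset hf
    have := eoL (he.2.2.2 _ h5 _ h6)
    simpa using this

lemma HC_ru {t : HT} {x d : ℂ} (hd : d ≠ 0) (hp : t.Pos) (h : Emb x d t) :
    ∃ d', HC d' (F t x d :: A t x d ++ [x]) := by
  obtain ⟨d', h1, h2⟩ := ru_hx t x d hp
  have hd' : d' ≠ 0 := by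
    rintro rfl
    rw [zero_mul] at h2
    have : d * om = 0 := by rw [← neg_eq_zero, ← h2]
    simp [hd, om_ne] at this
  have hn := h.nodup
  rw [List.nodup_cons] at hn
  refine ⟨d', hd', h1, ?_, pw_ru h.pw⟩
  rw [List.nodup_append]
  refine ⟨?_, List.nodup_singleton _, ?_⟩
  · have := hn.2.sublist (ru_sub t x d)
    rwa [List.nodup_reverse] at this
  · intro u hu v hv huv
    rw [List.mem_singleton] at hv
    subst huv hv
    exact hn.1 ((ru_sub t u d).subset (List.mem_reverse.2 hu))

lemma HC_ld {t : HT} {x d : ℂ} (hd : d ≠ 0) (hp : t.Pos) (h : Emb x d t) :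
    HC d (x :: (C t x d).reverse ++ [Lf t x d]) := by
  have hn := h.nodup
  rw [List.nodup_cons] at hn
  refine ⟨hd, ld_hx t x d hp, ?_, h.pw.sublist (ld_es t x d)⟩
  rw [List.cons_append, List.nodup_cons]
  exact ⟨fun hm => hn.1 ((ld_sub t x d).subset hm), hn.2.sublist (ld_sub t x d)⟩

/-! ### lengths -/

lemma pl_ru : ∀ (t : HT) (x d : ℂ), ‖d‖ = 1 → t.Pos → pl (F t x d :: A t x d ++ [x]) = rcl t := by
  intro t
  induction t with
  | lf l =>
    intro x d hd hl
    have hl' : 0 < l := hl
    simp [F, A, pl, rcl, hd, abs_of_pos hl']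
  | nd l a b iha ihb =>
    intro x d hd hp
    have e : F (HT.nd l a b) x d :: A (HT.nd l a b) x d ++ [x] =
        (F b (x + l * d) (d * om⁻¹) :: A b (x + l * d) (d * om⁻¹)) ++ (x + l * d) :: [x] := by
        simp [F, A]
    have hd2 : ‖d * om⁻¹‖ = 1 := by rw [norm_mul, norm_inv, norm_om, hd]; norm_num
    rw [e, pl_append, ihb _ _ hd2 hp.2.2]
    have hl : 0 < l := hp.1
    simp [pl, rcl, hd, abs_of_pos hl]
    ring

/-! ### leaves -/

lemma O_last : ∀ (t : HT) (x d : ℂ), ∃ O', O t x d = O' ++ [Lf t x d] := by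
  intro t
  induction t with
  | lf l => intro x d; exact ⟨[], rfl⟩
  | nd l a b iha ihb =>
    intro x d
    obtain ⟨O', h⟩ := iha (x + l * d) (d * om)
    refine ⟨O b (x + l * d) (d * om⁻¹) ++ O', ?_⟩
    simp [O, Lf, h]

lemma O_mem : ∀ (t : HT) (x d z : ℂ), z ∈ O t x d ↔ z ∈ t.leaves x d := by
  intro t
  induction t with
  | lf l => intro x d z; simp [O, HT.leaves]
  | nd l a b iha ihb =>
    intro x d z
    simp only [O, HT.leaves, List.mem_append, iha, ihb]
    tauto

/-! ### the recursion -/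

/-- angle `2π/3` -/
noncomputable def f2 (p : ℂ) : ℂ × Option ℝ := (p, some (2 * Real.pi / 3))

/-- angle `4π/3` -/
noncomputable def f4 (p : ℂ) : ℂ × Option ℝ := (p, some (4 * Real.pi / 3))

/-- no angle -/
def f0 (p : ℂ) : ℂ × Option ℝ := (p, none)

theorem proc (hGZ : stGZ) : ∀ (t : HT) (x d : ℂ), ‖d‖ = 1 → t.Pos → (t.nodes x d).Nodup →
    (t.edges x d).Pairwise EndOnly → ∀ (R : Wd) (c : ℝ),
    Pw ((A t x d).map f2 ++ R ++ [f0 (F t x d)]) c →
    Pw ((C t x d).map f4 ++ R ++ (O t x d).map f0) (c + t.len - rcl t) := by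
  intro t
  induction t with
  | lf l =>
    intro x d hd hp hn he R c h
    have e : c + (HT.lf l).len - rcl (HT.lf l) = c := by simp [HT.len, rcl]
    rw [e]
    simpa [A, F, C, O] using h
  | nd l a b iha ihb =>
    intro x d hd hp hn he R c h
    have hd0 : d ≠ 0 := by
      intro h0; rw [h0, norm_zero] at hd; exact zero_ne_one hd
    obtain ⟨d', hHC⟩ := HC_node hd0 hp hn he
    have hda : ‖d * om‖ = 1 := by rw [norm_mul, norm_om, hd]; norm_num
    have hdb : ‖d * om⁻¹‖ = 1 := by rw [norm_mul, norm_inv, norm_om, hd]; norm_num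
    set y := x + l * d with hy
    simp only [HT.nodes, HT.edges, ← hy, List.nodup_cons, List.nodup_append, List.pairwise_cons,
      List.pairwise_append] at hn he
    -- the right subtree
    have s1 := ihb y (d * om⁻¹) hdb hp.2.2 hn.2.2.1 he.2.2.1 (f2 y :: R) c (by
      have e : (A (HT.nd l a b) x d).map f2 ++ R ++ [f0 (F (HT.nd l a b) x d)] =
        (A b y (d * om⁻¹)).map f2 ++ f2 y :: R ++ [f0 (F b y (d * om⁻¹))] := by
        simp [A, F, ← hy]
      rwa [e] at h)
    obtain ⟨O', hO'⟩ := O_last b y (d * om⁻¹)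
    -- the gap at `y`
    have s2 := hGZ (C b y (d * om⁻¹)) (A a y (d * om)) y (Lf b y (d * om⁻¹)) (F a y (d * om))
      (2 * Real.pi / 3) (c + b.len - rcl b) (R ++ O'.map f0) d' hHC (by
        rw [hO'] at s1
        have e : (C b y (d * om⁻¹)).map f4 ++ f2 y :: R ++ (O' ++ [Lf b y (d * om⁻¹)]).map f0 =
          (C b y (d * om⁻¹)).map (fun p => (p, some (4 * Real.pi / 3))) ++
          (y, some (2 * Real.pi / 3)) :: (R ++ O'.map f0) ++ [(Lf b y (d * om⁻¹), none)] := by
          simp [f2, f0, f4]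
        rwa [e] at s1)
    have e4 : 2 * Real.pi / 3 + 2 * Real.pi / 3 = 4 * Real.pi / 3 := by ring
    rw [e4, pl_ru a y (d * om) hda hp.2.1] at s2
    -- the left subtree
    have s3 := iha y (d * om) hda hp.2.1 hn.2.1 he.2.1 (f4 y :: R ++ (O b y (d * om⁻¹)).map f0)
      (c + b.len - rcl b + rcl a) (by
        have e : (A a y (d * om)).map f2 ++ (f4 y :: R ++ (O b y (d * om⁻¹)).map f0) ++
          [f0 (F a y (d * om))] = (A a y (d * om)).map (fun p => (p, some (2 * Real.pi / 3))) ++
          (y, some (4 * Real.pi / 3)) :: (R ++ O'.map f0) ++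
          [(Lf b y (d * om⁻¹), none), (F a y (d * om), none)] := by
          rw [hO']; simp [f4, f0, f2]
        rwa [e])
    have e5 : (C (HT.nd l a b) x d).map f4 ++ R ++ (O (HT.nd l a b) x d).map f0 =
      (C a y (d * om)).map f4 ++ (f4 y :: R ++ (O b y (d * om⁻¹)).map f0) ++
        (O a y (d * om)).map f0 := by
      simp [C, O, ← hy]
    have e6 : c + (HT.nd l a b).len - rcl (HT.nd l a b) =
      c + b.len - rcl b + rcl a + a.len - rcl a := by
      simp only [HT.len, rcl]; ring
    rw [e5, e6]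
    exact s3

/-- the polygon on all leaves -/
theorem full (hS : stSTART) (hGZ : stGZ) (hF : stFIN) (x d : ℂ) (l : ℝ) (a b : HT)
    (hd : ‖d‖ = 1) (hp : (HT.nd l a b).Pos) (hE : Emb x d (HT.nd l a b)) :
    ∃ w : Wd, Pw w (HT.nd l a b).len ∧
      ∀ z, z ∈ w.map Prod.fst ↔ z ∈ x :: (HT.nd l a b).leaves x d := by
  have hd0 : d ≠ 0 := by
    intro h0; rw [h0, norm_zero] at hd; exact zero_ne_one hd
  set t := HT.nd l a b with ht
  set y := x + l * d with hy
  have hl : 0 < l := hp.1
  have hxy : x ≠ y := by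
    intro h
    have : (l : ℂ) * d = 0 := by
      have h2 := congrArg (fun z => z - x) h
      simpa [hy] using h2.symm
    rcases mul_eq_zero.1 this with h3 | h3
    · exact hl.ne' (by exact_mod_cast h3)
    · exact hd0 h3
  have s0 := hS x y hxy
  obtain ⟨d', hHC⟩ := HC_ru hd0 hp hE
  have hdb : ‖d * om⁻¹‖ = 1 := by rw [norm_mul, norm_inv, norm_om, hd]; norm_num
  have s1 := hGZ [] (A b y (d * om⁻¹)) y x (F b y (d * om⁻¹)) 0 ‖x - y‖ [] d' (by
    have e : F b y (d * om⁻¹) :: A b y (d * om⁻¹) ++ y :: ([] : List ℂ).reverse ++ [x] =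
      F t x d :: A t x d ++ [x] := by simp [ht, F, A, hy]
    rw [e]; exact hHC) (by simpa using s0)
  rw [pl_ru b y (d * om⁻¹) hdb hp.2.2] at s1
  have hn := hE.nodup
  rw [List.nodup_cons] at hn
  have s2 := proc hGZ t x d hd hp hn.2 hE.pw [f0 x] (‖x - y‖ + rcl b) (by
    have e : (A t x d).map f2 ++ [f0 x] ++ [f0 (F t x d)] =
      (A b y (d * om⁻¹)).map (fun p => (p, some (2 * Real.pi / 3))) ++
        (y, some (0 + 2 * Real.pi / 3)) :: [] ++ [(x, none), (F b y (d * om⁻¹), none)] := by
      simp [ht, A, F, f0, f2, hy]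
    rw [e]; exact s1)
  have hc : ‖x - y‖ + rcl b + t.len - rcl t = t.len := by
    have : ‖x - y‖ = l := by
      rw [hy, show x - (x + l * d) = -(l * d) by ring, norm_neg, norm_mul, hd, mul_one,
        Complex.norm_real, Real.norm_eq_abs, abs_of_pos hl]
    rw [this, ht]; simp only [HT.len, rcl]; ring
  rw [hc] at s2
  obtain ⟨O', hO'⟩ := O_last t x d
  have s3 := hF (C t x d) x (Lf t x d) t.len (O'.map f0) d (HC_ld hd0 hp hE) (by
    have e : (C t x d).map (fun p => (p, some (4 * Real.pi / 3))) ++ (x, none) :: O'.map f0 ++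
      [(Lf t x d, none)] = (C t x d).map f4 ++ [f0 x] ++ (O t x d).map f0 := by
      rw [hO']; simp [f0, f4]
    rw [e]; exact s2)
  refine ⟨_, s3, ?_⟩
  intro z
  have h1 : z ∈ t.leaves x d ↔ z ∈ O' ++ [Lf t x d] := by rw [← hO', O_mem]
  have h2 : (O'.map f0).map Prod.fst = O' := by
    rw [List.map_map]; conv_rhs => rw [← List.map_id O']
    rfl
  rw [List.mem_cons, h1, List.map_append, h2]
  simp only [List.map_cons, List.map_nil, List.mem_append, List.mem_cons, List.not_mem_nil,
    or_false]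
  tauto

end Prc

/-- **`FullOK` from the rules.** -/
theorem FullOK_of (hG : stG) (hM : stMAtt) (hMet : stMet) (hS : stSTART) (hGZ : stGZ)
    (hF : stFIN) : FullOK := by
  intro x d l a b hd hp hE
  obtain ⟨w, ⟨N, V, G, P, L, h⟩, hw⟩ := Prc.full hS hGZ hF x d l a b hd hp hE
  have hcfg : Cfg V G P V (fun _ _ => False) :=
    { tri := h.tri
      wk := fun a ha b hb c hc h1 h2 h3 h4 => (h.st a ha b hb c hc h1 h2 h3 h4).le
      AV := subset_rfl
      FB := fun a b hf => hf.elim
      cov := fun v hv => ⟨v, hv, EqvGen.refl v⟩ }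
  have h1 := hG N V.card V G P V (fun _ _ => False) rfl hcfg
  obtain ⟨m, hm1, hm2⟩ := hM N V (dV V G P) (fun _ _ => False)
  have met := hMet N V G P h.tri
  have hpos : ∀ z, z ∈ x :: (HT.nd l a b).leaves x d ↔ ∃ v ∈ V, P v = z := by
    intro z
    rw [← hw z, List.mem_map]
    have hf := h.fit
    constructor
    · rintro ⟨p, hp1, hp2⟩
      obtain ⟨i, hi, hpi⟩ := List.getElem_of_mem hp1
      have hl := hf.length_eq
      have := (List.forall₂_iff_get.1 hf).2 i (by omega) (by simpa using hi)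
      simp only [List.get_eq_getElem] at this
      refine ⟨L[i]'(by omega), (h.mem _).2 (List.getElem_mem _), ?_⟩
      rw [this.1, hpi, hp2]
    · rintro ⟨v, hv, rfl⟩
      obtain ⟨i, hi, hpi⟩ := List.getElem_of_mem ((h.mem v).1 hv)
      have hl := hf.length_eq
      have := (List.forall₂_iff_get.1 hf).2 i (by simpa using hi) (by omega)
      simp only [List.get_eq_getElem] at this
      refine ⟨w[i]'(by omega), List.getElem_mem _, ?_⟩
      rw [← this.1, hpi]
  refine ⟨m.toList.map (fun e => (P e.1, P e.2)), ?_, ?_, ?_⟩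
  · intro e he
    obtain ⟨f, hf, rfl⟩ := List.mem_map.1 he
    have := hm1.1 f (Finset.mem_toList.1 hf)
    exact ⟨(hpos _).2 ⟨f.1, this.1, rfl⟩, (hpos _).2 ⟨f.2, this.2, rfl⟩⟩
  · intro u hu v hv
    obtain ⟨i, hi, rfl⟩ := (hpos u).1 hu
    obtain ⟨j, hj, rfl⟩ := (hpos v).1 hv
    have hij := hm1.2 i hi j hj
    clear hu hv hi hj
    induction hij with
    | rel p q hpq =>
      rcases hpq with hpq | hpq
      · exact EqvGen.rel _ _ (List.mem_map.2 ⟨(p, q), Finset.mem_toList.2 hpq, rfl⟩)
      · exact hpq.elim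
    | refl p => exact EqvGen.refl _
    | symm p q _ ih => exact EqvGen.symm _ _ ih
    | trans p q r _ _ ih1 ih2 => exact EqvGen.trans _ _ _ ih1 ih2
  · have h2 : nlen dist (m.toList.map (fun e => (P e.1, P e.2))) ≤ mw (dV V G P) m := by
      unfold nlen mw
      rw [List.map_map, ← Finset.sum_map_toList]
      apply List.sum_le_sum
      intro e he
      have hV := hm1.1 e (Finset.mem_toList.1 he)
      have := met.low (dl e.1) (dl_mem G hV.1) (dl e.2) (dl_mem G hV.2)
      rw [dev_dl, dev_dl] at this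
      simpa [dist_eq_norm, dV] using this
    have h3 : 0 ≤ rho := by unfold rho; positivity
    calc rho * nlen dist (m.toList.map (fun e => (P e.1, P e.2))) ≤ rho * mw (dV V G P) m :=
          mul_le_mul_of_nonneg_left h2 h3
      _ = rho * Mst V (dV V G P) (fun _ _ => False) := by rw [hm2]
      _ ≤ Ln V G P V := h1
      _ ≤ _ := h.ln

end Pool.Agent.Helper18.GP
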