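import Pool.Agent.Helper9.GP.PlSt

set_option autoImplicit false

namespace Pool.Agent.Helper18.GP

open Relation Classical

namespace CS

lemma mono {L M : List (ℂ × ℂ)} (h : ∀ e ∈ L, e ∈ M) {a b : ℂ}
    (hab : EqvGen (fun x y => (x, y) ∈ L) a b) : EqvGen (fun x y => (x, y) ∈ M) a b := by
  induction hab with
  | rel p q hpq => exact EqvGen.rel _ _ (h _ hpq)
  | refl p => exact EqvGen.refl _
  | symm p q _ ih => exact EqvGen.symm _ _ ih
  | trans p q r _ _ ih1 ih2 => exact EqvGen.trans _ _ _ ih1 ih2

lemma conn0 : ∀ (t : BT) (x z : ℂ), z ∈ x :: (t.lv ++ t.inn) →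
    EqvGen (fun u v => (u, v) ∈ t.ed x) x z := by
  intro t
  induction t with
  | lf p =>
    intro x z hz
    simp only [BT.lv, BT.inn, List.append_nil, List.mem_cons, List.not_mem_nil, or_false] at hz
    rcases hz with rfl | rfl
    · exact EqvGen.refl _
    · exact EqvGen.rel _ _ (by simp [BT.ed])
  | nd y a b iha ihb =>
    intro x z hz
    have hxy : EqvGen (fun u v => (u, v) ∈ (BT.nd y a b).ed x) x y :=
      EqvGen.rel _ _ (by simp [BT.ed])
    have ha : ∀ z, z ∈ y :: (a.lv ++ a.inn) →
        EqvGen (fun u v => (u, v) ∈ (BT.nd y a b).ed x) x z := fun z hz =>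
      EqvGen.trans _ _ _ hxy (mono (fun e he => by simp [BT.ed, he]) (iha y z hz))
    have hb : ∀ z, z ∈ y :: (b.lv ++ b.inn) →
        EqvGen (fun u v => (u, v) ∈ (BT.nd y a b).ed x) x z := fun z hz =>
      EqvGen.trans _ _ _ hxy (mono (fun e he => by simp [BT.ed, he]) (ihb y z hz))
    simp only [BT.lv, BT.inn, List.mem_cons, List.mem_append] at hz
    rcases hz with rfl | ((h | h) | (rfl | h | h))
    · exact EqvGen.refl _
    · exact ha z (by simp [h])
    · exact hb z (by simp [h])
    · exact hxy
    · exact ha z (by simp [h])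
    · exact hb z (by simp [h])

/-- connecting all points to one point -/
lemma of_base {L : List (ℂ × ℂ)} {S : Set ℂ} {x : ℂ}
    (h : ∀ z ∈ S, EqvGen (fun u v => (u, v) ∈ L) x z) : NConn L S := fun a ha b hb =>
  EqvGen.trans _ _ _ (EqvGen.symm _ _ (h a ha)) (h b hb)

end CS

theorem x_plConn : plConn := fun t x => CS.of_base (x := x) (fun z hz => CS.conn0 t x z hz)

lemma CS.lv_ne (t : BT) : t.lv ≠ [] := by
  induction t with
  | lf p => simp [BT.lv]
  | nd z a b iha ihb => simp [BT.lv, iha]

theorem x_plSplit : plSplit := by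
  intro t
  induction t with
  | lf p => intro x w hw; simp [BT.inn] at hw
  | nd z a b iha ihb =>
    intro x w hw
    have conA : ∀ y, ∀ u ∈ y :: (a.lv ++ a.inn), EqvGen (fun u v => (u, v) ∈ a.ed y) y u :=
      fun y u hu => CS.conn0 a y u hu
    have conB : ∀ y, ∀ u ∈ y :: (b.lv ++ b.inn), EqvGen (fun u v => (u, v) ∈ b.ed y) y u :=
      fun y u hu => CS.conn0 b y u hu
    simp only [BT.inn, List.mem_cons, List.mem_append] at hw
    rcases hw with rfl | hw | hw
    · refine ⟨[(x, w)], a.ed w, b.ed w, [], a.lv, b.lv, ?_, CS.lv_ne a, CS.lv_ne b, ?_, ?_, ?_, ?_⟩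
      · simp [BT.lv]
      · apply CS.of_base (x := x)
        rintro u (rfl | rfl | hu)
        · exact EqvGen.rel _ _ (by simp)
        · exact EqvGen.refl _
        · simp at hu
      · apply CS.of_base (x := w)
        rintro u (rfl | hu)
        · exact EqvGen.refl _
        · exact conA _ u (by simp [hu])
      · apply CS.of_base (x := w)
        rintro u (rfl | hu)
        · exact EqvGen.refl _
        · exact conB _ u (by simp [hu])
      · simp [BT.ed, nlen]; ring
    · obtain ⟨Er, Ea, Eb, R, Ba, Bb, h1, h2, h3, h4, h5, h6, h7⟩ := iha z w hw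
      refine ⟨(x, z) :: (Er ++ b.ed z), Ea, Eb, R ++ b.lv, Ba, Bb, ?_, h2, h3, ?_, h5, h6, ?_⟩
      · simp only [BT.lv]
        have := h1.append_right b.lv
        refine this.trans ?_
        simp only [List.append_assoc]
        apply List.Perm.append_left
        rw [← List.append_assoc]
        exact List.perm_append_comm
      · apply CS.of_base (x := x)
        have hxz : EqvGen (fun u v => (u, v) ∈ (x, z) :: (Er ++ b.ed z)) x z :=
          EqvGen.rel _ _ (by simp)
        have hEr : ∀ u, (u = w ∨ u = z ∨ u ∈ R) →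
            EqvGen (fun u v => (u, v) ∈ (x, z) :: (Er ++ b.ed z)) x u := fun u hu =>
          EqvGen.trans _ _ _ hxz (CS.mono (fun e he => by simp [he])
            (h4 z (Or.inr (Or.inl rfl)) u hu))
        rintro u (rfl | rfl | hu)
        · exact hEr _ (Or.inl rfl)
        · exact EqvGen.refl _
        · rcases List.mem_append.1 hu with hu | hu
          · exact hEr _ (Or.inr (Or.inr hu))
          · exact EqvGen.trans _ _ _ hxz (CS.mono (fun e he => by simp [he])
              (conB z u (by simp [hu])))
      · have : nlen dist ((BT.nd z a b).ed x) = dist x z + nlen dist (a.ed z) + nlen dist (b.ed z) := by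
          simp [BT.ed, nlen]; ring
        rw [this, ← h7]
        simp [nlen]; ring
    · obtain ⟨Er, Ea, Eb, R, Ba, Bb, h1, h2, h3, h4, h5, h6, h7⟩ := ihb z w hw
      refine ⟨(x, z) :: (Er ++ a.ed z), Ea, Eb, a.lv ++ R, Ba, Bb, ?_, h2, h3, ?_, h5, h6, ?_⟩
      · simp only [BT.lv]
        have := h1.append_left a.lv
        refine this.trans ?_
        simp only [List.append_assoc]
        exact List.Perm.refl _
      · apply CS.of_base (x := x)
        have hxz : EqvGen (fun u v => (u, v) ∈ (x, z) :: (Er ++ a.ed z)) x z :=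
          EqvGen.rel _ _ (by simp)
        have hEr : ∀ u, (u = w ∨ u = z ∨ u ∈ R) →
            EqvGen (fun u v => (u, v) ∈ (x, z) :: (Er ++ a.ed z)) x u := fun u hu =>
          EqvGen.trans _ _ _ hxz (CS.mono (fun e he => by simp [he])
            (h4 z (Or.inr (Or.inl rfl)) u hu))
        rintro u (rfl | rfl | hu)
        · exact hEr _ (Or.inl rfl)
        · exact EqvGen.refl _
        · rcases List.mem_append.1 hu with hu | hu
          · exact EqvGen.trans _ _ _ hxz (CS.mono (fun e he => by simp [he])
              (conA z u (by simp [hu])))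
          · exact hEr _ (Or.inr (Or.inr hu))
      · have : nlen dist ((BT.nd z a b).ed x) = dist x z + nlen dist (a.ed z) + nlen dist (b.ed z) := by
          simp [BT.ed, nlen]; ring
        rw [this, ← h7]
        simp [nlen]; ring

end Pool.Agent.Helper18.GP
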