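import Pool.Agent.Helper9.GP.PlSt

set_option autoImplicit false

namespace Pool.Agent.Helper18.GP

open Relation Classical

namespace XM

/-- length of the tree attached at `x` -/
noncomputable def ln (t : BT) (x : ℂ) : ℝ := nlen dist (t.ed x)

lemma ln_lf (p x : ℂ) : ln (BT.lf p) x = dist x p := by simp [ln, BT.ed, nlen]

lemma ln_nd (z x : ℂ) (a b : BT) : ln (BT.nd z a b) x = dist x z + ln a z + ln b z := by
  simp [ln, BT.ed, nlen]; ring

lemma ln_lip (t : BT) (x x' : ℂ) : ln t x ≤ ln t x' + dist x x' := by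
  cases t with
  | lf p => rw [ln_lf, ln_lf]; linarith [dist_triangle x x' p]
  | nd z a b => rw [ln_nd, ln_nd]; linarith [dist_triangle x x' z]

lemma ln_nonneg (t : BT) (x : ℂ) : 0 ≤ ln t x := by
  unfold ln nlen
  apply List.sum_nonneg
  intro c hc
  obtain ⟨e, _, rfl⟩ := List.mem_map.1 hc
  exact dist_nonneg

/-- trees on `B` -/
def Tr (B : Finset ℂ) (t : BT) : Prop := t.lv.Nodup ∧ t.lv.toFinset = B

def Best (B : Finset ℂ) (x : ℂ) (t : BT) : Prop := Tr B t ∧ ∀ t', Tr B t' → ln t x ≤ ln t' x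

lemma lv_ne (t : BT) : t.lv ≠ [] := by
  induction t with
  | lf p => simp [BT.lv]
  | nd z a b iha ihb => simp [BT.lv, iha]

lemma Tr.ne {B : Finset ℂ} {t : BT} (h : Tr B t) : B.Nonempty := by
  rw [← h.2]
  obtain ⟨p, hp⟩ := List.exists_mem_of_ne_nil _ (lv_ne t)
  exact ⟨p, List.mem_toFinset.2 hp⟩

lemma Tr_nd {B : Finset ℂ} {z : ℂ} {a b : BT} : Tr B (BT.nd z a b) →
    ∃ B1, B1 ⊆ B ∧ Tr B1 a ∧ Tr (B \ B1) b := by
  rintro ⟨h1, h2⟩
  simp only [BT.lv, List.nodup_append, List.toFinset_append] at h1 h2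
  refine ⟨a.lv.toFinset, ?_, ⟨h1.1, rfl⟩, ⟨h1.2.1, ?_⟩⟩
  · rw [← h2]; exact Finset.subset_union_left
  · ext u
    rw [← h2]
    simp only [List.mem_toFinset, Finset.mem_sdiff, Finset.mem_union]
    constructor
    · intro hu
      exact ⟨Or.inr hu, fun h => h1.2.2 u h u hu rfl⟩
    · rintro ⟨h | h, h'⟩
      · exact absurd h h'
      · exact h

lemma nd_Tr {B B1 : Finset ℂ} (z : ℂ) {a b : BT} (h : B1 ⊆ B) (ha : Tr B1 a)
    (hb : Tr (B \ B1) b) : Tr B (BT.nd z a b) := by
  refine ⟨?_, ?_⟩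
  · simp only [BT.lv, List.nodup_append]
    refine ⟨ha.1, hb.1, ?_⟩
    intro u hu v hv huv
    subst huv
    have h1 : u ∈ B1 := by rw [← ha.2]; exact List.mem_toFinset.2 hu
    have h2 : u ∈ B \ B1 := by rw [← hb.2]; exact List.mem_toFinset.2 hv
    exact (Finset.mem_sdiff.1 h2).2 h1
  · simp only [BT.lv, List.toFinset_append, ha.2, hb.2]
    exact Finset.union_sdiff_of_subset h

/-- the best split with a given first part -/
lemma best_split {B B1 : Finset ℂ} (h : B1 ⊆ B) (x : ℂ) (h1 : ∀ z, ∃ t, Best B1 z t)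
    (h2 : ∀ z, ∃ t, Best (B \ B1) z t) :
    ∃ t, Tr B t ∧ ∀ z a b, Tr B1 a → Tr (B \ B1) b → ln t x ≤ ln (BT.nd z a b) x := by
  choose T1 hT1 using h1
  choose T2 hT2 using h2
  have lip : ∀ (T : ℂ → BT) (D : Finset ℂ), (∀ z, Best D z (T z)) →
      Continuous fun z => ln (T z) z := by
    intro T D hT
    have : LipschitzWith 1 fun z => ln (T z) z := by
      apply LipschitzWith.of_le_add
      intro z z'
      calc ln (T z) z ≤ ln (T z') z := (hT z).2 _ (hT z').1
        _ ≤ ln (T z') z' + dist z z' := ln_lip _ _ _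
    exact this.continuous
  have hc : Continuous fun z => dist x z + ln (T1 z) z + ln (T2 z) z :=
    ((continuous_const.dist continuous_id).add (lip T1 _ hT1)).add (lip T2 _ hT2)
  have ht : Filter.Tendsto (fun z => dist x z + ln (T1 z) z + ln (T2 z) z)
      (Filter.cocompact ℂ) Filter.atTop := by
    apply Filter.tendsto_atTop_mono _ (tendsto_dist_left_cocompact_atTop x)
    intro z
    linarith [ln_nonneg (T1 z) z, ln_nonneg (T2 z) z]
  obtain ⟨z0, hz0⟩ := hc.exists_forall_le ht
  refine ⟨BT.nd z0 (T1 z0) (T2 z0), nd_Tr z0 h (hT1 z0).1 (hT2 z0).1, ?_⟩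
  intro z a b ha hb
  rw [ln_nd, ln_nd]
  have e1 := (hT1 z).2 a ha
  have e2 := (hT2 z).2 b hb
  have e3 := hz0 z
  linarith

lemma main : ∀ n : ℕ, ∀ B : Finset ℂ, B.card = n → B.Nonempty → ∀ x, ∃ t, Best B x t := by
  intro n
  induction n using Nat.strong_induction_on with
  | _ n ih =>
    intro B hB hne x
    by_cases h1 : B.card = 1
    · obtain ⟨p, hp⟩ := Finset.card_eq_one.1 h1
      subst hp
      refine ⟨BT.lf p, ⟨by simp [BT.lv], by simp [BT.lv]⟩, ?_⟩
      intro t' ht'
      cases t' with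
      | lf q =>
        have := ht'.2
        simp only [BT.lv, List.toFinset_cons, List.toFinset_nil] at this
        have hq : q = p := by
          have h3 : q ∈ ({p} : Finset ℂ) := by rw [← this]; simp
          simpa using h3
        rw [hq]
      | nd z a b =>
        obtain ⟨B1, hs, ha, hb⟩ := Tr_nd ht'
        have e1 := ha.ne
        have e2 := hb.ne
        have e3 : B1 = {p} := (Finset.subset_singleton_iff.1 hs).resolve_left e1.ne_empty
        rw [e3, Finset.sdiff_self] at e2
        exact absurd e2 Finset.not_nonempty_empty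
    · -- all proper parts
      have hcard : 0 < B.card := hne.card_pos
      have hsplit : ∀ B1 ∈ B.powerset.filter (fun B1 => B1.Nonempty ∧ (B \ B1).Nonempty),
          ∃ t, Tr B t ∧ ∀ z a b, Tr B1 a → Tr (B \ B1) b → ln t x ≤ ln (BT.nd z a b) x := by
        intro B1 hB1
        rw [Finset.mem_filter, Finset.mem_powerset] at hB1
        obtain ⟨hs, hn1, hn2⟩ := hB1
        have hc : (B \ B1).card + B1.card = B.card := Finset.card_sdiff_add_card_eq_card hs
        apply best_split hs x
        · exact ih B1.card (by have := hn2.card_pos; omega) B1 rfl hn1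
        · exact ih (B \ B1).card (by have := hn1.card_pos; omega) (B \ B1) rfl hn2
      haveI : Nonempty BT := ⟨BT.lf 0⟩
      choose! T hT using hsplit
      obtain ⟨p, hp⟩ := hne
      have hfne : (B.powerset.filter (fun B1 => B1.Nonempty ∧ (B \ B1).Nonempty)).Nonempty := by
        refine ⟨{p}, ?_⟩
        rw [Finset.mem_filter, Finset.mem_powerset]
        refine ⟨by simpa using hp, Finset.singleton_nonempty p, ?_⟩
        rw [← Finset.card_pos, Finset.card_sdiff_of_subset (by simpa using hp),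
          Finset.card_singleton]
        omega
      obtain ⟨B0, hB0, hmin⟩ := Finset.exists_min_image _ (fun B1 => ln (T B1) x) hfne
      refine ⟨T B0, (hT B0 hB0).1, ?_⟩
      intro t' ht'
      cases t' with
      | lf q =>
        exfalso
        apply h1
        rw [← ht'.2]
        simp [BT.lv]
      | nd z a b =>
        obtain ⟨B1, hs, ha, hb⟩ := Tr_nd ht'
        have hB1 : B1 ∈ B.powerset.filter (fun B1 => B1.Nonempty ∧ (B \ B1).Nonempty) := by
          rw [Finset.mem_filter, Finset.mem_powerset]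
          exact ⟨hs, ha.ne, hb.ne⟩
        exact (hmin B1 hB1).trans ((hT B1 hB1).2 z a b ha hb)

end XM

theorem x_plMin : plMin := by
  intro x B hB
  obtain ⟨t, ht, hmin⟩ := XM.main B.card B rfl hB x
  exact ⟨t, ht.1, ht.2, fun t' h1 h2 => hmin t' ⟨h1, h2⟩⟩

end Pool.Agent.Helper18.GP
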