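import Pool.Agent.Helper9.GP.PlTop
import Pool.Agent.Helper9.GP.P_tree
import Pool.Agent.Helper9.GP.P_pair
import Pool.Agent.Helper9.GP.P_three
import Pool.Agent.Helper9.GP.P_zero
import Pool.Agent.Helper9.GP.P_count
import Pool.Agent.Helper9.GP.P_end
import Pool.Agent.Helper9.GP.P_ht
import Pool.Agent.Helper9.GP.X_conn
import Pool.Agent.Helper9.GP.X_min
import Pool.Agent.Helper9.GP.Proc

/-!
# Gilbert-Pollak, chapter COR: the planar theorem from the polygon theorem and the word rules
-/

namespace Pool.Agent.Helper18.GP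

theorem stPlanar_all (hFull : FullOK) : stPlanar :=
  stPlanar_of hFull t_plTree x_plMin x_plConn x_plSplit t_plPair (t_plThree t_plPair) t_plZero
    t_plCount t_plEnd t_plHT

theorem stPlanar_rules (hG : stG) (hM : stMAtt) (hMet : stMet) (hS : stSTART) (hGZ : stGZ)
    (hF : stFIN) : stPlanar := stPlanar_all (FullOK_of hG hM hMet hS hGZ hF)

end Pool.Agent.Helper18.GP
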