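import Pool.Agent.Helper18.GP.Api

/-!
# Gilbert-Pollak, chapter COR: full 120 degree trees
-/

namespace Pool.Agent.Helper18.GP

open Relation Classical

/-- the sixth root of unity `exp (i pi / 3)` -/
noncomputable def om : ℂ := ⟨1 / 2, Real.sqrt 3 / 2⟩

/-- binary trees with all angles 120 degrees: `lf l` an edge of length `l` ending in a leaf;
`nd l a b` an edge of length `l` in direction `d` ending in a node with two subtrees, `a` leaving in
direction `d * om` (left), `b` in direction `d * om⁻¹` (right) -/
inductive HT : Type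
  | lf (l : ℝ) : HT
  | nd (l : ℝ) (a b : HT) : HT

namespace HT

/-- total length -/
def len : HT → ℝ
  | lf l => l
  | nd l a b => l + len a + len b

/-- all edges have positive length -/
def Pos : HT → Prop
  | lf l => 0 < l
  | nd l a b => 0 < l ∧ Pos a ∧ Pos b

/-- positions of the leaves of the tree starting in `x` with direction `d` -/
noncomputable def leaves : HT → ℂ → ℂ → List ℂ
  | lf l, x, d => [x + l * d]
  | nd l a b, x, d => leaves a (x + l * d) (d * om) ++ leaves b (x + l * d) (d * om⁻¹)

/-- positions of all nodes (leaves and inner nodes) except the start `x` -/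
noncomputable def nodes : HT → ℂ → ℂ → List ℂ
  | lf l, x, d => [x + l * d]
  | nd l a b, x, d =>
      (x + l * d) :: (nodes a (x + l * d) (d * om) ++ nodes b (x + l * d) (d * om⁻¹))

/-- all edges -/
noncomputable def edges : HT → ℂ → ℂ → List (ℂ × ℂ)
  | lf l, x, d => [(x, x + l * d)]
  | nd l a b, x, d =>
      (x, x + l * d) :: (edges a (x + l * d) (d * om) ++ edges b (x + l * d) (d * om⁻¹))

end HT

/-- a common point of the two segments is an end point of both -/
def EndOnly (e f : ℂ × ℂ) : Prop :=
  ∀ z ∈ segment ℝ e.1 e.2, z ∈ segment ℝ f.1 f.2 → (z = e.1 ∨ z = e.2) ∧ (z = f.1 ∨ z = f.2)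

/-- the tree is embedded -/
structure Emb (x d : ℂ) (t : HT) : Prop where
  nodup : (x :: t.nodes x d).Nodup
  pw : (t.edges x d).Pairwise EndOnly

/-- the inequality for full embedded 120 degree trees with at least three leaves (the start `x`
included) -/
def FullOK : Prop := ∀ (x d : ℂ) (l : ℝ) (a b : HT), ‖d‖ = 1 → (HT.nd l a b).Pos →
  Emb x d (HT.nd l a b) →
  ∃ m : List (ℂ × ℂ),
    (∀ e ∈ m, e.1 ∈ x :: (HT.nd l a b).leaves x d ∧ e.2 ∈ x :: (HT.nd l a b).leaves x d) ∧
    NConn m {z | z ∈ x :: (HT.nd l a b).leaves x d} ∧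
    rho * nlen dist m ≤ (HT.nd l a b).len

end Pool.Agent.Helper18.GP
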