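import Pool.Agent.Helper62.GP.StZ
import Pool.Agent.Helper9.GP.HT

/-!
# Gilbert-Pollak, chapter COR: words and the four rules

A word is the list of the vertices of a positive triangulated polygon in counterclockwise order, each
with its position and (if known) its total angle. The rules START, GZ (a gap is filled and all its
interior vertices are zipped), FIN (the last gap). `Pool/Agent/Helper9/GP/Proc.lean` derives `FullOK`
from these rules and `stG`.
-/

set_option autoImplicit false

namespace Pool.Agent.Helper18.GP

open Relation Classical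

/-- words: position and angle, if known -/
abbrev Wd : Type := List (ℂ × Option ℝ)

/-- the positive triangulated polygon `V, G, P`, with its vertices listed in cyclic order in `L`,
realises the word `w`; the Steiner length of the set of all vertices is at most `c` -/
structure Rl {N : ℕ} (V : Finset (Fin N)) (G : SimpleGraph (Fin N)) (P : Fin N → ℂ)
    (L : List (Fin N)) (w : Wd) (c : ℝ) : Prop where
  tri : IsTri V G
  st : St V G P
  mem : ∀ v, v ∈ V ↔ v ∈ L
  nodup : L.Nodup
  cyc : L.Triplewise Ccw
  fit : List.Forall₂ (fun v p => P v = p.1 ∧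
    ∀ al, p.2 = some al → Pool.Agent.Helper62.GP.ang V G P v = al) L w
  ln : Ln V G P V ≤ c

/-- the word `w` is realised with Steiner length at most `c` -/
def Pw (w : Wd) (c : ℝ) : Prop :=
  ∃ (N : ℕ) (V : Finset (Fin N)) (G : SimpleGraph (Fin N)) (P : Fin N → ℂ) (L : List (Fin N)),
    Rl V G P L w c

/-- hex chain: the successive directions are `d, d * om, d * om ^ 2, ..` -/
def Hx : ℂ → List ℂ → Prop
  | _, [] => True
  | _, [_] => True
  | d, x :: y :: L => (∃ l : ℝ, 0 < l ∧ y = x + l * d) ∧ Hx (d * om) (y :: L)

/-- length of a path -/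
noncomputable def pl : List ℂ → ℝ
  | [] => 0
  | [_] => 0
  | x :: y :: L => ‖x - y‖ + pl (y :: L)

/-- embedded hex chain -/
structure HC (d : ℂ) (L : List ℂ) : Prop where
  ne : d ≠ 0
  hx : Hx d L
  nodup : L.Nodup
  pw : (L.zip L.tail).Pairwise EndOnly

/-- the start: a polygon with two vertices -/
def stSTART : Prop := ∀ x y : ℂ, x ≠ y → Pw [(y, some 0), (x, none)] ‖x - y‖

/-- **gap and zips**. The counterclockwise polygon `c_1, .., c_m, y, R, e` with angles `4π/3` at
`c_1, .., c_m` (`C = [c_1, .., c_m]`) and angle `al` at `y`, and the embedded hex chain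
`q, a_1, .., a_j, y, c_m, .., c_1, e` (`A = [a_1, .., a_j]`; the angle on its left side is `2π/3` at
each inner vertex). The gap polygon `q, A, y, c_m, .., c_1, e` is triangulated by two fans
(Lemma J) and glued on; the inner vertices `c_m, .., c_1` are zipped. -/
def stGZ : Prop := ∀ (C A : List ℂ) (y e q : ℂ) (al c : ℝ) (R : Wd) (d : ℂ),
  HC d (q :: A ++ y :: C.reverse ++ [e]) →
  Pw (C.map (fun p => (p, some (4 * Real.pi / 3))) ++ (y, some al) :: R ++ [(e, none)]) c →
  Pw (A.map (fun p => (p, some (2 * Real.pi / 3))) ++ (y, some (al + 2 * Real.pi / 3)) :: R ++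
    [(e, none), (q, none)]) (c + pl (q :: A ++ [y]))

/-- **the last gap**: the embedded hex chain `x, c_m, .., c_1, e` -/
def stFIN : Prop := ∀ (C : List ℂ) (x e : ℂ) (c : ℝ) (R : Wd) (d : ℂ),
  HC d (x :: C.reverse ++ [e]) →
  Pw (C.map (fun p => (p, some (4 * Real.pi / 3))) ++ (x, none) :: R ++ [(e, none)]) c →
  Pw (R ++ [(e, none), (x, none)]) c

end Pool.Agent.Helper18.GP
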