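import Pool.Agent.Helper9.GP.Top

/-!
# Project GP: assembly of the main inequality `stG` from the chapter interfaces
-/

noncomputable section

namespace Helper9.GP

open Relation

/-- construction of `Dat` -/
def stDat : Prop :=
  ∀ n, 3 ≤ n → IH n → ∀ r T P A F, IsMinr n r T P A F → L (List.finRange n) T P A = 1 →
    (∀ T' P' A' F', IsMinr n r T' P' A' F' → L (List.finRange n) T' P' A' = 1 → Gf P' ≤ Gf P) →
    ∃ u, Dat n r T P A F u

theorem dat_of (hT : stTouch) (hS : stNoSplit) (h3 : stThree) (hV : stVar) : stDat := by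
  intro n hn ih r T P A F hm h1 hmax
  have hA := h3 n hn r T P A F hm
  obtain ⟨u, u0, u1, us, tor, len, var, varx⟩ := hV (Fin n) (List.finRange n) T P hm.tri hm.pos
    (fun v => List.mem_finRange v) A hA (fun w hw => hT n hn r T P A F hm w hw)
    (fun w q q' l1 l2 l3 hl hw hq hq' ha =>
      hS n hn ih r T P A F hm w q q' l1 l2 l3 hl hw hq hq' ha)
  rw [h1] at len var varx
  exact ⟨u, ⟨hm, h1, hmax, hA, u0, u1, us, tor, len, var, varx⟩⟩

theorem stG_of (hRel : stRel) (h2 : stTwo) (hMin : stMin) (hDat : stDat)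
    (hM6 : stM6) (hGT : stGamT) (hM7 : stM7) (hM8 : stM8) (hM9 : stM9) : stG := by
  intro n
  induction n using Nat.strong_induction_on with
  | _ n ih =>
    intro hn
    rcases Nat.lt_or_ge 2 n with h | h
    swap
    · obtain rfl : n = 2 := le_antisymm h hn
      exact h2
    have hn3 : 3 ≤ n := h
    have hIH : IH n := fun k hk hkn => ih k hkn hk
    refine hRel n hn ?_
    by_contra hcon
    push Not at hcon
    obtain ⟨T0, P0, hT0, hP0, hbad⟩ := hcon
    obtain ⟨r, T, P, A, F, hm, h1, hmax⟩ := hMin n hn3 hIH ⟨T0, P0, hT0, hP0, hbad⟩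
    obtain ⟨u, hD⟩ := hDat n hn3 hIH r T P A F hm h1 hmax
    have hc := hM6 n hn3 r T P A F u hD
    obtain ⟨T', u', hD', hGam, hE⟩ := hGT n hn3 r T P A F u hD hc
    have hF := hM7 n hn3 hIH r T' P A F u' hD' hE
    subst hF
    have hE' : ∀ a b : Fin n, Edge (List.finRange n) T' a b ↔
        ((a, b) ∈ Gam T' P ∅ ∨ (b, a) ∈ Gam T' P ∅) := by
      intro a b
      rw [hE a b]
      simp
    obtain ⟨s, hs, hs'⟩ := hM8 n hn3 r T' P A u' hD' hE'
    have h9 := hM9 n hn3 T' P s hD'.minr.tri hD'.minr.pos hs hs'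
    -- all vertices are active
    have hA : A = Finset.univ := by
      apply Finset.eq_univ_of_forall
      intro v
      obtain ⟨a, ⟨haA, hva⟩, -⟩ := hD'.minr.cfg.one v (List.mem_finRange v)
      have : v = a := by
        clear haA
        induction hva with
        | rel x y h => simp at h
        | refl => rfl
        | symm x y _ ih => exact ih.symm
        | trans x y z _ _ ih1 ih2 => exact ih1.trans ih2
      rw [this]
      exact haA
    subst hA
    have he := hD'.minr.eq
    have hMp := hD'.minr.Mpos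
    have hr := hD'.minr.rlt
    nlinarith

end Helper9.GP
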