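import Mathlib

/-!
# Project GP (MP_e46579_co): common definitions

Triangulated polygons (`Tri`), points of the polygon (barycentric coordinates), chain networks
(`St`), intrinsic distances (`dd`), Steiner length (`L`), spanning cost with free boundary edges
(`MST`, `M`), configurations (`Cfg`), flips (`Flip`, `Eqv`), the main inequality (`GG n`).
Plan: /team-store/MP_e46579-formal-h9.md.
-/

noncomputable section

namespace Helper9.GP

open Relation

/-- the Steiner ratio of the plane -/
def rho : ℝ := Real.sqrt 3 / 2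

/-- cross product -/
def cr (z w : ℂ) : ℝ := z.re * w.im - z.im * w.re

/-- scalar product -/
def dt (z w : ℂ) : ℝ := z.re * w.re + z.im * w.im

/-- twice the signed area of the triangle `a b c` -/
def ar (a b c : ℂ) : ℝ := cr (b - a) (c - a)

/-! ### Networks in an abstract system of segments -/

section Net
variable {X : Type}

/-- the segments of `S` connect any two points of `B` -/
def Joins (S : List (X × X)) (B : Set X) : Prop :=
  ∀ x ∈ B, ∀ y ∈ B, EqvGen (fun a b => (a, b) ∈ S) x y

/-- total length of a list of segments -/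
def cost (ell : X → X → ℝ) (S : List (X × X)) : ℝ := (S.map fun p => ell p.1 p.2).sum

/-- all segments are allowed -/
def Net (R : X → X → Prop) (S : List (X × X)) : Prop := ∀ p ∈ S, R p.1 p.2

/-- least length of a network of allowed segments joining all points of `B` -/
def St (R : X → X → Prop) (ell : X → X → ℝ) (B : Set X) : ℝ :=
  sInf {c | ∃ S : List (X × X), Net R S ∧ Joins S B ∧ c = cost ell S}

end Net

section Poly
variable {ι : Type}

/-! ### Spanning cost with free edges -/

/-- `m` together with the free edges `F` connects all vertices of the list `l` -/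
def Spans (l : List ι) (F m : Finset (ι × ι)) : Prop :=
  ∀ i ∈ l, ∀ j ∈ l, EqvGen (fun a b => (a, b) ∈ m ∨ (a, b) ∈ F) i j

/-- least cost of a set of pairs of vertices which together with `F` connects `l` -/
def MST (l : List ι) (d : ι → ι → ℝ) (F : Finset (ι × ι)) : ℝ :=
  sInf {c | ∃ m : Finset (ι × ι), (∀ p ∈ m, p.1 ∈ l ∧ p.2 ∈ l) ∧ Spans l F m ∧
    c = ∑ p ∈ m, d p.1 p.2}

/-- directed boundary edges `(v, next v)` of the cyclic list `l` -/
def bd (l : List ι) : Set (ι × ι) := {p | ∃ t, l ~r (p.1 :: p.2 :: t)}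

/-- configuration: `A` active vertices, `F` free boundary edges, every class of `F` contains
exactly one active vertex -/
structure Cfg (l : List ι) (A : Finset ι) (F : Finset (ι × ι)) : Prop where
  sub : ∀ v ∈ A, v ∈ l
  bdF : ∀ p ∈ F, p ∈ bd l
  one : ∀ v ∈ l, ∃! a, a ∈ A ∧ EqvGen (fun x y => (x, y) ∈ F) v a

/-- the inequality of the theorem for an abstract system of segments with marked points `pt i`,
`i ∈ l` in cyclic order -/
def Good {X : Type} (R : X → X → Prop) (ell : X → X → ℝ) (pt : ι → X) (l : List ι) : Prop :=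
  ∀ (A : Finset ι) (F : Finset (ι × ι)), Cfg l A F →
    rho * MST l (fun i j => St R ell {pt i, pt j}) F ≤ St R ell (pt '' (A : Set ι))

/-! ### Triangulated polygons -/

/-- the three cyclic rotations of a triple -/
def rot3 (a b c : ι) : Set (ι × ι × ι) := {(a, b, c), (b, c, a), (c, a, b)}

/-- `Tri l T`: `T` is (the set of counterclockwise faces of) a triangulation of the polygon with
cyclic vertex list `l` (counterclockwise); built by adding ears -/
inductive Tri : List ι → Set (ι × ι × ι) → Prop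
  | seg (a b : ι) (h : a ≠ b) : Tri [a, b] ∅
  | rot {l l' : List ι} {T : Set (ι × ι × ι)} : Tri l T → l ~r l' → Tri l' T
  | ear {a b c : ι} {l : List ι} {T : Set (ι × ι × ι)} : Tri (a :: c :: l) T →
      b ∉ a :: c :: l → Tri (a :: b :: c :: l) (T ∪ rot3 a b c)

/-- cells: vertex sets of faces and of boundary edges -/
def Cell (l : List ι) (T : Set (ι × ι × ι)) (s : Set ι) : Prop :=
  (∃ a b c, (a, b, c) ∈ T ∧ s = {a, b, c}) ∨ (∃ a b, (a, b) ∈ bd l ∧ s = {a, b})

/-- edges of the triangulation (undirected, as a symmetric relation) -/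
def Edge (l : List ι) (T : Set (ι × ι × ι)) (a b : ι) : Prop :=
  (∃ c, (a, b, c) ∈ T) ∨ (∃ c, (b, a, c) ∈ T) ∨ (a, b) ∈ bd l ∨ (b, a) ∈ bd l

/-- every face is weakly positively oriented -/
def WPos (P : ι → ℂ) (T : Set (ι × ι × ι)) : Prop :=
  ∀ t ∈ T, 0 ≤ ar (P t.1) (P t.2.1) (P t.2.2)

/-- every face is positively oriented -/
def Pos (P : ι → ℂ) (T : Set (ι × ι × ι)) : Prop :=
  ∀ t ∈ T, 0 < ar (P t.1) (P t.2.1) (P t.2.2)

/-- flip of the diagonal `ac` of the quadrilateral `a b c d` to `bd`, allowed when the segments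
`[Pa,Pc]` and `[Pb,Pd]` meet and the new faces are weakly positive -/
def Flip (P : ι → ℂ) (T T' : Set (ι × ι × ι)) : Prop :=
  ∃ a b c d : ι, b ≠ d ∧ (a, b, c) ∈ T ∧ (a, c, d) ∈ T ∧
    T' = (T \ (rot3 a b c ∪ rot3 a c d)) ∪ (rot3 a b d ∪ rot3 b c d) ∧
    0 ≤ ar (P a) (P b) (P d) ∧ 0 ≤ ar (P b) (P c) (P d) ∧
    (segment ℝ (P a) (P c) ∩ segment ℝ (P b) (P d)).Nonempty

/-- flip equivalence -/
def Eqv (P : ι → ℂ) : Set (ι × ι × ι) → Set (ι × ι × ι) → Prop := ReflTransGen (Flip P)

variable [Fintype ι] [DecidableEq ι]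

/-- points of the triangulated polygon: barycentric coordinates supported in a cell -/
structure IsPt (l : List ι) (T : Set (ι × ι × ι)) (μ : ι → ℝ) : Prop where
  nonneg : ∀ v, 0 ≤ μ v
  sum : ∑ v, μ v = 1
  cell : ∃ s, Cell l T s ∧ ∀ v, μ v ≠ 0 → v ∈ s

/-- vertices as points -/
def vx (v : ι) : ι → ℝ := fun w => if w = v then 1 else 0

/-- developed position -/
def pos (P : ι → ℂ) (μ : ι → ℝ) : ℂ := ∑ v, (μ v : ℂ) * P v

/-- two points in a common closed cell -/
def Seg (l : List ι) (T : Set (ι × ι × ι)) (x y : ι → ℝ) : Prop :=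
  IsPt l T x ∧ IsPt l T y ∧ ∃ s, Cell l T s ∧ (∀ v, x v ≠ 0 → v ∈ s) ∧ (∀ v, y v ≠ 0 → v ∈ s)

/-- developed length of a segment -/
def lenP (P : ι → ℂ) (x y : ι → ℝ) : ℝ := ‖pos P x - pos P y‖

/-- Steiner length of a set of points of the polygon -/
def SL (l : List ι) (T : Set (ι × ι × ι)) (P : ι → ℂ) (B : Set (ι → ℝ)) : ℝ :=
  St (Seg l T) (lenP P) B

/-- intrinsic distance of two points -/
def ds (l : List ι) (T : Set (ι × ι × ι)) (P : ι → ℂ) (x y : ι → ℝ) : ℝ := SL l T P {x, y}

/-- intrinsic distance of two vertices -/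
def dd (l : List ι) (T : Set (ι × ι × ι)) (P : ι → ℂ) (i j : ι) : ℝ := ds l T P (vx i) (vx j)

/-- Steiner length of a set of vertices -/
def L (l : List ι) (T : Set (ι × ι × ι)) (P : ι → ℂ) (A : Finset ι) : ℝ :=
  SL l T P (vx '' (A : Set ι))

/-- spanning cost of the polygon with free edges `F` -/
def M (l : List ι) (T : Set (ι × ι × ι)) (P : ι → ℂ) (F : Finset (ι × ι)) : ℝ :=
  MST l (dd l T P) F

/-- the main inequality for one polygon -/
def GoodP (l : List ι) (T : Set (ι × ι × ι)) (P : ι → ℂ) : Prop :=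
  ∀ (A : Finset ι) (F : Finset (ι × ι)), Cfg l A F → rho * M l T P F ≤ L l T P A

end Poly

/-- the main inequality for all weakly positive polygons with `n` vertices -/
def GG (n : ℕ) : Prop :=
  ∀ (ι : Type) [Fintype ι] [DecidableEq ι] (l : List ι) (T : Set (ι × ι × ι)) (P : ι → ℂ),
    Tri l T → l.length = n → WPos P T → GoodP l T P

end Helper9.GP
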