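import Pool.Agent.Helper18.GP.NSmin2

/-!
# Gilbert-Pollak, chapter DEG: internal statements
Every `dg...` is a `Prop`, proved in its own module from the hypotheses named in the doc string.
-/

namespace Pool.Agent.Helper18.GP

open Relation Classical

variable {N : ℕ}

/-- positively ordered triples of triangles -/
noncomputable def Trs (V : Finset (Fin N)) (G : SimpleGraph (Fin N)) :
    Finset (Fin N × Fin N × Fin N) :=
  (V ×ˢ V ×ˢ V).filter fun t =>
    Ccw t.1 t.2.1 t.2.2 ∧ G.Adj t.1 t.2.1 ∧ G.Adj t.2.1 t.2.2 ∧ G.Adj t.1 t.2.2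

/-- the three rotations of a triple -/
def rt3 (a b c : Fin N) : Finset (Fin N × Fin N × Fin N) := {(a, b, c), (b, c, a), (c, a, b)}

/-- twice the area of a triple -/
def arT (P : Fin N → ℂ) (t : Fin N × Fin N × Fin N) : ℝ :=
  crs (P t.2.1 - P t.1) (P t.2.2 - P t.1)

/-- (side) The inequality for one side of an edge.
Hypotheses to use: stArcTri, stGlue, stRet.
Proof. `IsTri (Arc V a b) G` by stArcTri, `FA.Cfg` and `Wk_sub` give a configuration on
`Arc V a b`, IH for its number of vertices gives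
`rho * Mst (Arc V a b) (dV (Arc V a b) G P) F' ≤ Ln (Arc V a b) G P A'`; `Mst_congr` and
`GlueP.sub` replace `dV (Arc V a b)` by `dV V`, stRet gives `Ln (Arc V a b) G P A' ≤ Ln V G P A'`. -/
def dgSide : Prop := ∀ (N n : ℕ), IH N n → ∀ (V : Finset (Fin N)) (G : SimpleGraph (Fin N))
  (P : Fin N → ℂ), IsTri V G → Wk V G P → ∀ a ∈ V, ∀ b ∈ V, G.Adj a b → (Arc V a b).card < n →
  ∀ (A' : Finset (Fin N)) (F' : Fin N → Fin N → Prop), FA (Arc V a b) A' F' →
    rho * Mst (Arc V a b) (dV V G P) F' ≤ Ln V G P A'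

/-- (pinch) Hypotheses to use: dgSide, stPinch, stWedge, stMet.
Proof. `d := dV V G P` is symmetric and nonnegative on `V` (stMet). `Arc V a c = V`. Neither
`Arc V a g` (misses `c`) nor `Arc V g c` (misses `a`) is all of `V`, so both have fewer than `n`
vertices. If `A ∩ Arc V a g` and `A ∩ Arc V g c` are both nonempty: stPinch with `B = A` gives
`Ln V G P (insert g (A ∩ Arc V a g)) + Ln V G P (insert g (A ∩ Arc V g c)) ≤ Ln V G P A`; the
first clause of stWedge gives `F₁, F₂` and `Mst V d F ≤ Mst (Arc V a g) d F₁ + Mst (Arc V g c) d F₂`;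
dgSide for the edges `ag` and `gc` bounds both terms. If `A ∩ Arc V a g = ∅` then `A ⊆ Arc V g c`
(as `V = Arc V a g ∪ Arc V g c`): third clause of stWedge and dgSide. Symmetric otherwise. -/
def dgPinch : Prop := ∀ (N n : ℕ), IH N n → ∀ (V : Finset (Fin N)) (G : SimpleGraph (Fin N))
  (P : Fin N → ℂ) (A : Finset (Fin N)) (F : Fin N → Fin N → Prop), V.card = n → Cfg V G P A F →
  ∀ a ∈ V, ∀ g ∈ V, ∀ c ∈ V, Ccw a g c → (∀ v ∈ V, cyc a v ≤ cyc a c) → G.Adj a g → G.Adj g c →
    dV V G P a c = dV V G P a g + dV V G P g c →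
    rho * Mst V (dV V G P) F ≤ Ln V G P A

/-- (zero) an inner edge of length zero.
Hypotheses to use: dgSide, stPocket, stZero, stSel, stCut1, stCut2, stMet, stLnP.
Proof. Both sides `Arc V a b`, `Arc V b a` have fewer than `n` vertices (`card_Arc_add` and the two
existence hypotheses). If `A ⊆ Arc V a b`: stPocket gives `F'` with `FA (Arc V a b) A F'` and
`Mst V d F ≤ Mst (Arc V a b) d F'`, then dgSide. Same if `A ⊆ Arc V b a` (pocket for the pair
`b, a`). Otherwise both `A ∩ Arc V a b`, `A ∩ Arc V b a` are nonempty and stZero with `B = A` gives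
`Ln (insert a (insert b (A ∩ Arc V a b))) + Ln (insert a (insert b (A ∩ Arc V b a))) ≤ Ln A`.
If `b ∈ A` use stCut1 with `w = a`, `u = b`; if `b ∉ A` stSel with `w = a`, `u = b` gives the
hypothesis of stCut1 or of stCut2. Both give two `FA` and
`Mst V d F ≤ Mst (..) d .. + Mst (..) d ..`; the active sets there are subsets of
`insert a (insert b (A ∩ ..))` (LnP.mono), and dgSide bounds both terms. -/
def dgZero : Prop := ∀ (N n : ℕ), IH N n → ∀ (V : Finset (Fin N)) (G : SimpleGraph (Fin N))
  (P : Fin N → ℂ) (A : Finset (Fin N)) (F : Fin N → Fin N → Prop), V.card = n → Cfg V G P A F →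
  ∀ a ∈ V, ∀ b ∈ V, a ≠ b → G.Adj a b → P a = P b → (∃ v ∈ V, Ccw a v b) → (∃ v ∈ V, Ccw b v a) →
    rho * Mst V (dV V G P) F ≤ Ln V G P A

/-- (flip) flips keep weak positivity; the triples of triangles after a flip.
Hypotheses to use: stFlip, stApex.
Proof. `G'` from stFlip. Triangles: a triple of `Trs V G'` not containing the edge `bd` has all
its edges in `G` and none is `ac` (since `¬ G'.Adj a c`), so it is in `Trs V G` and not in
`rt3 a b c ∪ rt3 a c d`. A triple of `Trs V G'` with the edge `bd` has as third vertex the apex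
of `bd` in `G'` on one of the two sides; `G'.Adj a b`, `G'.Adj a d`, `G'.Adj b c`, `G'.Adj c d`
(unchanged edges), so by uniqueness in stApex the third vertex is `a` or `c`. Conversely the
triples of `rt3 a b d ∪ rt3 b c d` are in `Trs V G'` and a triple of `Trs V G` containing the
edge `ac` has third vertex `b` or `d` (stApex in `G`); the others avoid `ac`, and avoid `bd`
(`¬ G.Adj b d` by `IsTri.nc`), so they stay. (Rotations of `Ccw` by `cyc_change`.)
Weak positivity: for the new triples, with `O = (1-s)A + sC = (1-t)B + tD` the function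
`f X = crs (B - X) (D - X)` is affine in `X`, `f O = 0`, `f A = area ABD`, `f C = - area BCD`, so
`(1-s) area ABD = s area BCD`, and `area ABD + area BCD = area ABC + area ACD =: S`, hence
`area ABD = s S`, `area BCD = (1-s) S`. -/
def dgFlip : Prop := ∀ (N : ℕ) (V : Finset (Fin N)) (G : SimpleGraph (Fin N)) (P : Fin N → ℂ),
  IsTri V G → Wk V G P → ∀ a ∈ V, ∀ b ∈ V, ∀ c ∈ V, ∀ d ∈ V, Ccw a b c → Ccw a c d →
  G.Adj a b → G.Adj b c → G.Adj c d → G.Adj d a → G.Adj a c →
  ∀ s ∈ Set.Icc (0 : ℝ) 1, ∀ t ∈ Set.Icc (0 : ℝ) 1,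
    (1 - s : ℝ) * P a + (s : ℝ) * P c = (1 - t : ℝ) * P b + (t : ℝ) * P d →
    arT P (a, b, d) = s * (arT P (a, b, c) + arT P (a, c, d)) ∧
    arT P (b, c, d) = (1 - s) * (arT P (a, b, c) + arT P (a, c, d)) ∧
    ∃ G', IsTri V G' ∧ Wk V G' P ∧ Iso V G G' P ∧ G'.Adj b d ∧ ¬ G'.Adj a c ∧ ¬ G.Adj b d ∧
      (∀ x ∈ V, ∀ y ∈ V, ¬ ((x = a ∧ y = c) ∨ (x = c ∧ y = a)) →
        ¬ ((x = b ∧ y = d) ∨ (x = d ∧ y = b)) → (G'.Adj x y ↔ G.Adj x y)) ∧
      rt3 a b c ∪ rt3 a c d ⊆ Trs V G ∧ Disjoint (rt3 a b d ∪ rt3 b c d) (Trs V G) ∧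
      Trs V G' = (Trs V G \ (rt3 a b c ∪ rt3 a c d)) ∪ (rt3 a b d ∪ rt3 b c d)

/-- (zero side) a side of the polygon of length zero.
Hypotheses to use: dgPinch, dgFlip, stApex, stBdAdj, stMet.
Proof. Strong induction on the number of `G`-neighbours of `a` in `V`, for all `G`. `ab` is an
edge of `G` (stBdAdj). As `3 ≤ n` and no vertex lies strictly between `a` and `b`, stApex for the
pair `b, a` gives `c` with `Ccw b c a`, `G.Adj b c`, `G.Adj c a`; so `Ccw a b c`. If no vertex of
`V` lies strictly between `c` and `a`: `cyc a v ≤ cyc a c` for all `v`, all of `a, b, c` are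
pairwise adjacent, so (MetP.sh) `dV a c = ‖P a - P c‖ = ‖P b - P c‖ = dV b c`, `dV a b = 0`:
dgPinch with `a, b, c`. Otherwise stApex for `c, a` gives `d`, `Ccw c d a`, `G.Adj c d`,
`G.Adj d a`, so `Ccw a c d`; dgFlip with `s = t = 0` (as `P a = P b`) gives `G'`, a triangulation
of the same configuration (`Cfg V G' P A F`), in which `a` has lost the neighbour `c` and gained
none; induction for `G'` and `Iso` (`Mst_congr`) give the claim. -/
def dgZeroSide : Prop := ∀ (N n : ℕ), IH N n → 3 ≤ n → ∀ (V : Finset (Fin N))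
  (G : SimpleGraph (Fin N)) (P : Fin N → ℂ) (A : Finset (Fin N)) (F : Fin N → Fin N → Prop),
  V.card = n → Cfg V G P A F → ∀ a ∈ V, ∀ b ∈ V, a ≠ b → P a = P b → (∀ v ∈ V, ¬ Ccw a v b) →
    rho * Mst V (dV V G P) F ≤ Ln V G P A

/-- (flat) no edges of length zero in the class.
Hypotheses to use: dgPinch, dgFlip, stApex, stBdAdj, stMet.
Proof. Among the finitely many `G'` with `IsTri V G'`, `Wk V G' P`, `Iso V G G' P` take first the
least number `fl G'` of triples `t ∈ Trs V G'` with `arT P t = 0`, and among those the least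
`∑ (x,y) ∈ V ×ˢ V, G'.Adj x y, ‖P x - P y‖^2`. If `fl G' = 0` then `St V G' P`. Otherwise take a
flat triple; its three points are collinear and pairwise different, so one is strictly inside the
segment of the other two. Among all flat triples take one for which the longest side is longest;
call the longest side `ac`, the third vertex `b`, labelled (rotation, renaming) so that
`Ccw a b c`; `P b = (1-s) P a + s P c`, `0 < s < 1`.
If no vertex of `V` lies strictly between `c` and `a`: `dV a c = ‖P a - P c‖ = dV a b + dV b c`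
(MetP.sh), dgPinch (first disjunct, transported by `Iso`). Otherwise stApex for `c, a`: `d`,
`Ccw a c d`. dgFlip with this `s` and `t = 0`: `G''`. If `arT P (a, c, d) > 0` both new triples are
not flat, `fl` has dropped by `3`. If `arT P (a, c, d) = 0`: all four points are collinear, by the
choice of `ac` the point `P d` is in the segment `[P a, P c]`, different from `P a`, `P c`, and so
`‖P b - P d‖ < ‖P a - P c‖`: `fl G''= fl G'` and the sum of squares has dropped. -/
def dgFlat : Prop := ∀ (N n : ℕ), IH N n → 3 ≤ n → ∀ (V : Finset (Fin N))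
  (G : SimpleGraph (Fin N)) (P : Fin N → ℂ) (A : Finset (Fin N)) (F : Fin N → Fin N → Prop),
  V.card = n → Cfg V G P A F →
  (∀ G', IsTri V G' → Wk V G' P → Iso V G G' P → ∀ a ∈ V, ∀ b ∈ V, a ≠ b → G'.Adj a b →
    P a ≠ P b) →
  rho * Mst V (dV V G P) F ≤ Ln V G P A ∨ ∃ G', IsTri V G' ∧ St V G' P ∧ Iso V G G' P

/-- (fan) the path around a vertex can be shortened. `c, c'` neighbours of `v`, all neighbours of
`v` in a closed half plane through `P v`, not both `P c`, `P c'` on its boundary line.
Hypotheses to use: stApex, stMet.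
Proof. Write `e u = P u - P v`, `q u r = (1-r) dl v + r dl u` (a point for `0 ≤ r ≤ 1`, developed
position `P v + r e u`). A neighbour is a vertex `u ∈ V`, `G.Adj v u`; order them by `cyc v`.
(0) If `p, s` are neighbours, `Ccw v p s`, no neighbour `u` with `Ccw v p u`, `Ccw v u s`, then
`G.Adj p s` and `0 < crs (e p) (e s)`: the apex `y` (stApex) of the edge `v s` on the side of `p`
(`Ccw v y s`) is a neighbour, adjacent to `s`, not strictly between `p` and `s`; `Ccw v y p` is
impossible, else `{y, s}` interleaves `{v, p}`; so `y = p`; crs by `St`.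
(1) If `u` is a neighbour and there are neighbours `c, c'` with `Ccw v c u`, `Ccw v u c'` then
`theta (e u) < 0`: let `p` be the last neighbour before `u`, `s` the first one after `u`; by (0)
`crs (e p) (e u) > 0`, `crs (e u) (e s) > 0`; identity in the plane:
`theta (e u) * crs (e p) (e s) = theta (e s) * crs (e p) (e u) + theta (e p) * crs (e u) (e s)`;
if `theta (e u) = 0` both summands on the right (which are `≤ 0`) vanish, so
`theta (e p) = theta (e u) = 0`, and `e p`, `e u` are parallel (`theta ≠ 0` by the hypothesis on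
`c, c'`), against `crs (e p) (e u) > 0`.
(2) Claim for all neighbours `c, c'` with `Ccw v c c'` and (`theta (e c) < 0` or
`theta (e c') < 0`): `0 < crs (e c) (e c')` and there is `ε > 0` with
`dK (q c r) (q c' r') ≤ ‖r e c - r' e c'‖` for all `0 < r, r' < ε`. Strong induction on the number
of neighbours strictly between. None: (0), the two points are in a common face (MetP.sh), `ε = 1`.
Otherwise let `u` be strictly between; `theta (e u) < 0` by (1), so the claim holds for `(c,u)` and
`(u,c')`. `a := crs (e c) (e u) > 0`, `b := crs (e u) (e c') > 0`; the identity of (1) for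
`c, u, c'` has right side `< 0` and `theta (e u) < 0`, so `k := crs (e c) (e c') > 0`.
`b e c + a e c' = k e u`. For small `r, r'` let `r'' = r r' k / (r a + r' b)`; it is
`≤ r k / b` and `≤ r' k / a`, and `r'' e u = (1 - l) r e c + l r' e c'` with
`l = r a / (r a + r' b) ∈ (0,1)`, a point of the segment; so
`dK (q c r) (q c' r') ≤ ‖r e c - r'' e u‖ + ‖r'' e u - r' e c'‖ = ‖r e c - r' e c'‖`.
(3) For a small `r`: `dV c c' ≤ (1-r)‖e c‖ + ‖r e c - r e c'‖ + (1-r)‖e c'‖` (MetP.sh on the edges
`v c`, `v c'`) and `‖e c - e c'‖ < ‖e c‖ + ‖e c'‖` as `crs (e c) (e c') ≠ 0`. -/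
def dgFan : Prop := ∀ (N : ℕ) (V : Finset (Fin N)) (G : SimpleGraph (Fin N)) (P : Fin N → ℂ),
  IsTri V G → St V G P → ∀ theta : ℂ →ₗ[ℝ] ℝ, ∀ v ∈ V, ∀ c ∈ V, ∀ c' ∈ V,
  G.Adj v c → G.Adj v c' → Ccw v c c' → (∀ u ∈ V, G.Adj v u → theta (P u) ≤ theta (P v)) →
  (theta (P c) < theta (P v) ∨ theta (P c') < theta (P v)) →
  0 < crs (P c - P v) (P c' - P v) ∧
    dV V G P c c' < ‖P c - P v‖ + ‖P c' - P v‖

/-- (hull) choice of the functional and of the vertex: pure finite geometry.
Proof. `convexHull ℝ (P '' A)` is compact and convex, so by Hahn-Banach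
(`geometric_hahn_banach_compact_closed` or `geometric_hahn_banach_point_closed`) there is a
linear `theta` with `theta (P a) < theta (P v0)` for all `a ∈ A`. Let `M` be the maximum of
`theta (P v)`, `v ∈ V`. Maximisers are not in `A`, and `A` is not empty. Walk upwards from a
maximiser `w`: let `z` be the first vertex of `V` after `w` (least `cyc w`) that is not a maximiser
(it exists); let `v` be the vertex of `V` just before `z` (largest `cyc w` below `cyc w z`; it is
`w` or between): it is a maximiser. Let `x` be the vertex of `V` just before `v`. `x ≠ z` since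
`3 ≤ V.card`. -/
def dgHull : Prop := ∀ (N : ℕ) (V A : Finset (Fin N)) (P : Fin N → ℂ), A ⊆ V → A.Nonempty →
  3 ≤ V.card → (∃ v ∈ V, P v ∉ convexHull ℝ (P '' (A : Set (Fin N)))) →
  ∃ (theta : ℂ →ₗ[ℝ] ℝ) (x v z : Fin N), x ∈ V ∧ v ∈ V ∧ z ∈ V ∧ v ∉ A ∧ Ccw x v z ∧
    (∀ u ∈ V, ¬ Ccw x u v) ∧ (∀ u ∈ V, ¬ Ccw v u z) ∧ (∀ u ∈ V, theta (P u) ≤ theta (P v)) ∧
    theta (P z) < theta (P v)

/-- (CPL) the polygon cut off by a geodesic.
Hypotheses to use: stMet, stPos, stGlue, stCI, stPinch, stWedge, stApex (for `St_ne`), dgSide.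
Proof. Write `d = dV V G P`, a metric on `V` (stMet, stPos with `St_ne`: `d a b > 0` for `a ≠ b`).
Strong induction on the number of vertices of `S = Arc V z x` (for all `x, z, A, F`).
Let `Γ` be the set of `u ∈ V`, `u ≠ x, z`, with `d x z = d x u + d u z` (equivalently `≥`).
By hypothesis and `mem_Arc_or` all `u ∈ Γ` satisfy `Ccw z u x`.
(1) `Γ = ∅`: `Clear V G P x z`. stCI with `C = {(x, z)}` gives `G'` with the edge `xz`,
`Iso V G G' P`; dgSide for `G'` and the edge `z x` gives
`rho * Mst S (dV V G' P) F ≤ Ln V G' P A`; transport by `Iso`.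
(2) `Γ ≠ ∅`: take `g ∈ Γ` with `d x g` minimal. `Clear V G P x g`: if
`u ≠ x, g` and `d x g = d x u + d u g` then `d x u + d u z ≤ d x u + d u g + d g z = d x z`, so
`u ∈ Γ` (`u ≠ z`, since `d x z > d x g`) and `d x u < d x g`: contradiction. stCI with
`C = {(x, g)}`: `G'` with the edge `xg`, all distances and lengths as before.
The pair `g, z` satisfies the hypothesis of the lemma: let `u ∈ V`, `Ccw g u z`,
`d g z = d g u + d u z`. Then `d x z = d x g + d g u + d u z`. `u ≠ x` (else `d x g = 0`). If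
`Ccw x u z`: `d x z ≥ d x u + d u z`, against the hypothesis. Otherwise `u` is strictly between
`g` and `x` (`Ccw g u x`), so `u ∈ Arc V g x` and `z ∈ Arc V x g`: GlueP.cross for `G'` and the
edge `g x`: a point `ξ = seg g x t` with `d u z = dK u ξ + dK ξ z`, and
`dK x ξ + dK ξ g = d x g` (common face), so
`d x z ≤ dK x ξ + dK ξ z` and `d x z = d x g + d g u + dK u ξ + dK ξ z` give
`d g u + dK u ξ ≤ dK x ξ - d x g ≤ 0`, `d g u = 0`, `u = g`: contradiction.
Now `S = Arc V z x` with `g` inside; `Arc S z g = Arc V z g`, `Arc S g x = Arc V g x`, both have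
fewer vertices than `S`. stPinch with `a = z`, `c = x`, `B = A` and stWedge for `S`, exactly as in
dgPinch: the part `Arc V z g` is bounded by the induction hypothesis for the pair `g, z` (in place
of `x, z`), the part `Arc V g x` by dgSide for `G'` and the edge `g x`. If
`A ∩ Arc V z g = ∅` or `A ∩ Arc V g x = ∅` use the other clauses of stWedge. -/
def dgCPL : Prop := ∀ (N n : ℕ), IH N n → ∀ (V : Finset (Fin N)) (G : SimpleGraph (Fin N))
  (P : Fin N → ℂ), IsTri V G → St V G P → 3 ≤ V.card → ∀ x ∈ V, ∀ z ∈ V, x ≠ z →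
  (Arc V z x).card < n → ∀ (A : Finset (Fin N)) (F : Fin N → Fin N → Prop),
  FA (Arc V z x) A F →
  (∀ u ∈ V, Ccw x u z → dV V G P x z < dV V G P x u + dV V G P u z) →
    rho * Mst (Arc V z x) (dV V G P) F ≤ Ln V G P A

end Pool.Agent.Helper18.GP
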