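import Pool.Agent.Helper9.GP.DegSt

/-!
# Gilbert-Pollak, chapter DEG: assembly of `stDeg` and `stBdd`
-/

namespace Pool.Agent.Helper18.GP

open Relation Classical

variable {N : ℕ}

theorem t_Cfg_iso {V : Finset (Fin N)} {G G' : SimpleGraph (Fin N)} {P : Fin N → ℂ}
    {A : Finset (Fin N)} {F : Fin N → Fin N → Prop} (h : Cfg V G P A F) (hI : Iso V G G' P)
    (hg : rho * Mst V (dV V G' P) F ≤ Ln V G' P A) : rho * Mst V (dV V G P) F ≤ Ln V G P A := by
  rw [hI.2 A h.AV, Mst_congr F hI.1] at hg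
  exact hg

theorem stDeg_of (hSmall : stSmall) (hApex : stApex) (hZ : dgZero) (hZS : dgZeroSide)
    (hFl : dgFlat) : stDeg := by
  intro N n ih V G P A F hcard hcfg
  by_cases hn : n ≤ 2
  · exact Or.inl (hSmall N n hn V G P A F hcard hcfg)
  have hn3 : 3 ≤ n := by omega
  by_cases hz : ∃ G', IsTri V G' ∧ Wk V G' P ∧ Iso V G G' P ∧
      ∃ a ∈ V, ∃ b ∈ V, a ≠ b ∧ G'.Adj a b ∧ P a = P b
  · obtain ⟨G', hT', hW', hI, a, ha, b, hb, hab, hadj, hP⟩ := hz
    have hcfg' : Cfg V G' P A F := ⟨hT', hW', hcfg.AV, hcfg.FB, hcfg.cov⟩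
    left
    apply t_Cfg_iso hcfg hI
    by_cases h1 : ∃ v ∈ V, Ccw a v b
    · by_cases h2 : ∃ v ∈ V, Ccw b v a
      · exact hZ N n ih V G' P A F hcard hcfg' a ha b hb hab hadj hP h1 h2
      · push Not at h2
        exact hZS N n ih hn3 V G' P A F hcard hcfg' b hb a ha (Ne.symm hab) hP.symm h2
    · push Not at h1
      exact hZS N n ih hn3 V G' P A F hcard hcfg' a ha b hb hab hP h1
  · push Not at hz
    rcases hFl N n ih hn3 V G P A F hcard hcfg
      (fun G' h1 h2 h3 a ha b hb hab hadj => hz G' h1 h2 h3 a ha b hb hab hadj) with h | h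
    · exact Or.inl h
    · obtain ⟨G', hT', hS', hI⟩ := h
      exact Or.inr ⟨G', hT', hS', St_ne hApex hT' hS' (by omega), hI⟩

theorem stBdd_of (hSmall : stSmall) (hMet : stMet) (hBd : stBdAdj) (hDrop : stDrop)
    (hFan : dgFan) (hHull : dgHull) (hCPL : dgCPL) : stBdd := by
  intro N n ih V G P A F hcard hcfg hS hlt
  by_contra hcon
  have hn3 : 3 ≤ n := by
    by_contra h
    have := hSmall N n (by omega) V G P A F hcard hcfg
    linarith
  have hM := hMet N V G P hcfg.tri
  have hAne : A.Nonempty := by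
    have hV : V.Nonempty := by
      rw [← Finset.card_pos]; omega
    obtain ⟨v, hv⟩ := hV
    obtain ⟨a, ha, -⟩ := hcfg.cov v hv
    exact ⟨a, ha⟩
  push Not at hcon
  obtain ⟨theta, x, v, z, hx, hv, hz, hvA, hccw, hxv, hvz, hmax, hlt'⟩ :=
    hHull N V A P hcfg.AV hAne (by omega) hcon
  have hxvne : x ≠ v := by
    rintro rfl
    unfold Ccw at hccw
    rw [cyc_self] at hccw
    omega
  have hvzne : v ≠ z := by
    rintro rfl
    unfold Ccw at hccw
    omega
  have hxzne : x ≠ z := by
    rintro rfl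
    unfold Ccw at hccw
    rw [cyc_self] at hccw
    omega
  have a1 : G.Adj x v := hBd N V G hcfg.tri x v ⟨hx, hv, hxvne, Or.inl hxv⟩
  have a2 : G.Adj v z := hBd N V G hcfg.tri v z ⟨hv, hz, hvzne, Or.inl hvz⟩
  have c1 : Ccw v z x := by
    unfold Ccw at hccw ⊢
    rw [cyc_back (Ne.symm hxvne), cyc_change_le (a := x) (b := v) (v := z) (by omega)]
    have := cyc_lt x z
    omega
  obtain ⟨-, hd⟩ := hFan N V G P hcfg.tri hS theta v hv z hz x hx a2 a1.symm c1
    (fun u hu _ => hmax u hu) (Or.inl hlt')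
  have hsh : ∀ a ∈ V, ∀ b ∈ V, G.Adj a b → dV V G P a b = ‖P a - P b‖ := by
    intro a ha b hb hab
    have := hM.sh _ (dl_mem G ha) _ (dl_mem G hb) (by
      intro p q hp hq hpq
      have e : ∀ p : Fin N, (dl a p ≠ 0 ∨ dl b p ≠ 0) → p = a ∨ p = b := by
        intro p hp
        rcases hp with hp | hp
        · left
          by_contra h
          exact hp (by unfold dl; rw [Pi.single_eq_of_ne h])
        · right
          by_contra h
          exact hp (by unfold dl; rw [Pi.single_eq_of_ne h])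
      rcases e p hp with rfl | rfl <;> rcases e q hq with rfl | rfl
      · exact absurd rfl hpq
      · exact hab
      · exact hab.symm
      · exact absurd rfl hpq)
    rw [dev_dl, dev_dl] at this
    exact this
  have hsym : dV V G P x z = dV V G P z x := hM.symm _ (dl_mem G hx) _ (dl_mem G hz)
  have key : dV V G P x z < dV V G P x v + dV V G P v z := by
    rw [hsym, hsh x hx v hv a1, hsh v hv z hz a2, norm_sub_rev (P v) (P z)]
    linarith
  obtain ⟨F', hF', hle⟩ := hDrop N V A F (dV V G P)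
    (fun a ha b hb => ⟨hM.nonneg _ (dl_mem G ha) _ (dl_mem G hb),
      hM.symm _ (dl_mem G ha) _ (dl_mem G hb)⟩) hcfg.FA v hv hvA (by omega)
  have huniq : ∀ u ∈ V, Ccw x u z → u = v := by
    intro u hu huz
    by_contra hne
    rcases Nat.lt_trichotomy (cyc x u) (cyc x v) with h | h | h
    · exact hxv u hu ⟨huz.1, h⟩
    · exact hne (cyc_inj h)
    · refine hvz u hu ⟨cyc_pos.2 hne, ?_⟩
      rw [cyc_change_le h.le, cyc_change_le (a := x) (b := v) (v := z) hccw.2.le]
      have := huz.2
      omega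
  have hArc : V.erase v = Arc V z x := by
    ext u
    rw [Finset.mem_erase, mem_Arc' hxzne.symm]
    constructor
    · rintro ⟨h1, h2⟩
      refine ⟨h2, ?_⟩
      by_contra h
      push Not at h
      exact h1 (huniq u h2 ⟨cyc_pos.2 h.1, h.2⟩)
    · rintro ⟨h1, h2⟩
      refine ⟨?_, h1⟩
      rintro rfl
      rcases h2 with h | h
      · exact hxvne h.symm
      · have := hccw.2
        omega
  rw [hArc] at hF' hle
  have hc : (Arc V z x).card < n := by
    rw [← hArc, Finset.card_erase_of_mem hv]; omega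
  have := hCPL N n ih V G P hcfg.tri hS (by omega) x hx z hz hxzne hc A F' hF' (by
    intro u hu hccwu
    rw [huniq u hu hccwu]
    exact key)
  have hr0 : 0 < rho := by unfold rho; positivity
  nlinarith

end Pool.Agent.Helper18.GP
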