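import Pool.Agent.Helper9.GP.PlSt

/-!
# Gilbert-Pollak, chapter COR: a tree connects its nodes
-/

namespace Pool.Agent.Helper18.GP

open Relation Classical

private theorem mono_conn {L L' : List (ℂ × ℂ)} (h : ∀ e ∈ L, e ∈ L') {x y : ℂ}
    (hxy : EqvGen (fun x y => (x, y) ∈ L) x y) : EqvGen (fun x y => (x, y) ∈ L') x y := by
  induction hxy with
  | rel x y h1 => exact EqvGen.rel _ _ (h _ h1)
  | refl x => exact EqvGen.refl _
  | symm x y _ ih => exact EqvGen.symm _ _ ih
  | trans x y z _ _ ih1 ih2 => exact EqvGen.trans _ _ _ ih1 ih2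

private theorem main_conn (t : BT) : ∀ x z : ℂ, z ∈ x :: (t.lv ++ t.inn) →
    EqvGen (fun a b => (a, b) ∈ t.ed x) x z := by
  induction t with
  | lf p =>
    intro x z hz
    simp only [BT.lv, BT.inn, List.append_nil, List.mem_cons, List.not_mem_nil, or_false] at hz
    rcases hz with rfl | rfl
    · exact EqvGen.refl _
    · exact EqvGen.rel _ _ (by simp [BT.ed])
  | nd y a b iha ihb =>
    intro x z hz
    have hxy : EqvGen (fun u v => (u, v) ∈ (BT.nd y a b).ed x) x y :=
      EqvGen.rel _ _ (by simp [BT.ed])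
    have ha : ∀ e ∈ a.ed y, e ∈ (BT.nd y a b).ed x := by
      intro e he
      simp only [BT.ed, List.mem_cons, List.mem_append]
      exact Or.inr (Or.inl he)
    have hb : ∀ e ∈ b.ed y, e ∈ (BT.nd y a b).ed x := by
      intro e he
      simp only [BT.ed, List.mem_cons, List.mem_append]
      exact Or.inr (Or.inr he)
    simp only [BT.lv, BT.inn, List.mem_cons, List.mem_append] at hz
    rcases hz with rfl | (hz | hz) | rfl | hz | hz
    · exact EqvGen.refl _
    · exact hxy.trans _ _ _ (mono_conn ha (iha y z (by simp [hz])))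
    · exact hxy.trans _ _ _ (mono_conn hb (ihb y z (by simp [hz])))
    · exact hxy
    · exact hxy.trans _ _ _ (mono_conn ha (iha y z (by simp [hz])))
    · exact hxy.trans _ _ _ (mono_conn hb (ihb y z (by simp [hz])))

theorem t_plConn : plConn := by
  intro t x u hu v hv
  exact ((main_conn t x u hu).symm).trans _ _ _ (main_conn t x v hv)

end Pool.Agent.Helper18.GP
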