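import Pool.Agent.Helper9.GP.PlSt

/-!
# Gilbert-Pollak, chapter COR: shortest binary trees exist
-/

namespace Pool.Agent.Helper18.GP

open Relation Classical

private theorem nlen_cons_min (e : ℂ × ℂ) (L : List (ℂ × ℂ)) :
    nlen dist (e :: L) = dist e.1 e.2 + nlen dist L := by simp [nlen]

private theorem nlen_append_min (L L' : List (ℂ × ℂ)) :
    nlen dist (L ++ L') = nlen dist L + nlen dist L' := by simp [nlen]

private theorem nlen_nil_min : nlen (dist : ℂ → ℂ → ℝ) [] = 0 := by simp [nlen]

private theorem nlen_nonneg_min (L : List (ℂ × ℂ)) : 0 ≤ nlen dist L := by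
  unfold nlen
  refine List.sum_nonneg fun r hr => ?_
  rw [List.mem_map] at hr
  obtain ⟨e, -, rfl⟩ := hr
  exact dist_nonneg

/-- change of the starting point -/
private theorem nlen_ed_min (t : BT) (x y : ℂ) :
    nlen dist (t.ed x) ≤ dist x y + nlen dist (t.ed y) := by
  cases t with
  | lf p =>
    simp only [BT.ed, nlen_cons_min, nlen_nil_min]
    linarith [dist_triangle x y p]
  | nd z a b =>
    simp only [BT.ed, nlen_cons_min]
    linarith [dist_triangle x y z]

private theorem lv_ne_min (t : BT) : t.lv ≠ [] := by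
  induction t with
  | lf p => simp [BT.lv]
  | nd z a b iha _ => simp [BT.lv, iha]

/-- `t` has leaf set `B` -/
private def Hs (t : BT) (B : Finset ℂ) : Prop := t.lv.Nodup ∧ t.lv.toFinset = B

/-- `t` is best for `x`, `B` -/
private def Bst (t : BT) (x : ℂ) (B : Finset ℂ) : Prop :=
  Hs t B ∧ ∀ t' : BT, Hs t' B → nlen dist (t.ed x) ≤ nlen dist (t'.ed x)

private theorem Hs_nd (z : ℂ) (a b : BT) (B : Finset ℂ) :
    Hs (BT.nd z a b) B ↔ ∃ B1 ⊆ B, Hs a B1 ∧ Hs b (B \ B1) := by
  constructor
  · rintro ⟨hn, hB⟩
    simp only [BT.lv] at hn hB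
    rw [List.nodup_append'] at hn
    obtain ⟨hna, hnb, hd⟩ := hn
    refine ⟨a.lv.toFinset, ?_, ⟨hna, rfl⟩, hnb, ?_⟩
    · rw [← hB, List.toFinset_append]
      exact Finset.subset_union_left
    · rw [← hB, List.toFinset_append]
      ext v
      simp only [Finset.mem_sdiff, Finset.mem_union, List.mem_toFinset]
      constructor
      · intro hv
        exact ⟨Or.inr hv, fun hva => hd hva hv⟩
      · rintro ⟨h | h, h'⟩
        · exact absurd h h'
        · exact h
  · rintro ⟨B1, hB1, ⟨hna, ha⟩, hnb, hb⟩
    refine ⟨?_, ?_⟩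
    · simp only [BT.lv]
      rw [List.nodup_append']
      refine ⟨hna, hnb, ?_⟩
      intro v hva hvb
      have h1 : v ∈ a.lv.toFinset := List.mem_toFinset.2 hva
      have h2 : v ∈ b.lv.toFinset := List.mem_toFinset.2 hvb
      rw [ha] at h1
      rw [hb, Finset.mem_sdiff] at h2
      exact h2.2 h1
    · simp only [BT.lv, List.toFinset_append, ha, hb]
      exact Finset.union_sdiff_of_subset hB1

private theorem Hs_ne (t : BT) (B : Finset ℂ) (h : Hs t B) : B.Nonempty := by
  rw [← h.2, List.toFinset_nonempty_iff]
  exact lv_ne_min t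

private theorem main_min : ∀ (n : ℕ) (B : Finset ℂ), B.card = n → B.Nonempty →
    ∀ x, ∃ t, Bst t x B := by
  intro n
  induction n using Nat.strong_induction_on with
  | _ n ih =>
    intro B hBn hB x
    by_cases h1 : ∃ b, B = {b}
    · obtain ⟨b, rfl⟩ := h1
      refine ⟨BT.lf b, ⟨by simp [BT.lv], by simp [BT.lv]⟩, ?_⟩
      intro t' ht'
      cases t' with
      | lf p =>
        have := ht'.2
        simp only [BT.lv] at this
        have hp : p = b := by
          have h2 : p ∈ ({b} : Finset ℂ) := by rw [← this]; simp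
          simpa using h2
        rw [hp]
      | nd z a c =>
        exfalso
        rw [Hs_nd] at ht'
        obtain ⟨B1, hB1, ha, hc⟩ := ht'
        obtain ⟨u, hu⟩ := Hs_ne _ _ ha
        obtain ⟨v, hv⟩ := Hs_ne _ _ hc
        rw [Finset.mem_sdiff] at hv
        have hub : u = b := by simpa using hB1 hu
        have hvb : v = b := by simpa using hv.1
        rw [hvb, ← hub] at hv
        exact hv.2 hu
    · -- at least two points
      let P : Finset (Finset ℂ) := B.powerset.filter fun B1 => B1.Nonempty ∧ (B \ B1).Nonempty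
      have hP : P.Nonempty := by
        obtain ⟨b, hb⟩ := hB
        refine ⟨{b}, ?_⟩
        simp only [P, Finset.mem_filter, Finset.mem_powerset, Finset.singleton_subset_iff]
        refine ⟨hb, Finset.singleton_nonempty b, ?_⟩
        rw [Finset.sdiff_nonempty]
        intro hs
        exact h1 ⟨b, Finset.Subset.antisymm hs (by simpa using hb)⟩
      have hlt : ∀ B1 ∈ P, B1.card < n ∧ (B \ B1).card < n := by
        intro B1 hB1
        simp only [P, Finset.mem_filter, Finset.mem_powerset] at hB1
        obtain ⟨hs, hne, hne'⟩ := hB1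
        have h2 := Finset.card_sdiff_add_card_eq_card hs
        have h3 := hne.card_pos
        have h4 := hne'.card_pos
        omega
      have hbest : ∀ C : Finset ℂ, C.Nonempty → C.card < n → ∀ z, ∃ t, Bst t z C :=
        fun C hC hCn z => ih C.card hCn C rfl hC z
      have hsig : ∀ C : Finset ℂ, C.Nonempty → C.card < n → ∃ T : ℂ → BT, (∀ z, Bst (T z) z C) ∧
          Continuous fun z => nlen dist ((T z).ed z) := by
        intro C hC hCn
        choose T hT using hbest C hC hCn
        refine ⟨T, hT, ?_⟩
        have hL : LipschitzWith 1 fun z => nlen dist ((T z).ed z) := by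
          refine LipschitzWith.of_le_add fun y z => ?_
          have h2 := (hT y).2 (T z) (hT z).1
          have h3 := nlen_ed_min (T z) y z
          linarith
        exact hL.continuous
      -- best tree for each first part
      have hpart : ∀ B1 ∈ P, ∃ t, Hs t B ∧ ∀ (z : ℂ) (a b : BT), Hs a B1 → Hs b (B \ B1) →
          nlen dist (t.ed x) ≤ nlen dist ((BT.nd z a b).ed x) := by
        intro B1 hB1
        have hl := hlt B1 hB1
        simp only [P, Finset.mem_filter, Finset.mem_powerset] at hB1
        obtain ⟨hs, hne, hne'⟩ := hB1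
        obtain ⟨T1, hT1, hc1⟩ := hsig B1 hne hl.1
        obtain ⟨T2, hT2, hc2⟩ := hsig (B \ B1) hne' hl.2
        have hcont : Continuous fun z => dist z x + nlen dist ((T1 z).ed z) +
            nlen dist ((T2 z).ed z) :=
          ((continuous_id.dist continuous_const).add hc1).add hc2
        have hlim : Filter.Tendsto (fun z => dist z x + nlen dist ((T1 z).ed z) +
            nlen dist ((T2 z).ed z)) (Filter.cocompact ℂ) Filter.atTop := by
          refine Filter.tendsto_atTop_mono (fun z => ?_) (tendsto_dist_right_cocompact_atTop x)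
          have h2 := nlen_nonneg_min ((T1 z).ed z)
          have h3 := nlen_nonneg_min ((T2 z).ed z)
          linarith
        obtain ⟨z0, hz0⟩ := hcont.exists_forall_le hlim
        refine ⟨BT.nd z0 (T1 z0) (T2 z0), ?_, ?_⟩
        · rw [Hs_nd]
          exact ⟨B1, hs, (hT1 z0).1, (hT2 z0).1⟩
        · intro z a b ha hb
          have h2 := (hT1 z).2 a ha
          have h3 := (hT2 z).2 b hb
          have h4 := hz0 z
          simp only [BT.ed, nlen_cons_min, nlen_append_min]
          rw [dist_comm x z0, dist_comm x z]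
          linarith
      have hBT : Nonempty BT := ⟨BT.lf 0⟩
      choose! T hT using hpart
      obtain ⟨B1, hB1, hmin⟩ := Finset.exists_min_image P (fun C => nlen dist ((T C).ed x)) hP
      refine ⟨T B1, (hT B1 hB1).1, ?_⟩
      intro t' ht'
      cases t' with
      | lf p =>
        exfalso
        refine h1 ⟨p, ?_⟩
        have := ht'.2
        simp only [BT.lv] at this
        rw [← this]
        simp
      | nd z a b =>
        rw [Hs_nd] at ht'
        obtain ⟨C, hC, ha, hb⟩ := ht'
        have hCP : C ∈ P := by
          simp only [P, Finset.mem_filter, Finset.mem_powerset]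
          exact ⟨hC, Hs_ne _ _ ha, Hs_ne _ _ hb⟩
        exact (hmin C hCP).trans ((hT C hCP).2 z a b ha hb)

theorem t_plMin : plMin := by
  intro x B hB
  obtain ⟨t, ht, hmin⟩ := main_min B.card B rfl hB x
  exact ⟨t, ht.1, ht.2, fun t' h1 h2 => hmin t' ⟨h1, h2⟩⟩

end Pool.Agent.Helper18.GP
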