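import Pool.Agent.Helper9.GP.PlSt

/-!
# Gilbert-Pollak, chapter COR: splitting a tree at an inner node
-/

namespace Pool.Agent.Helper18.GP

open Relation Classical

private theorem mono_split {L L' : List (ℂ × ℂ)} (h : ∀ e ∈ L, e ∈ L') {x y : ℂ}
    (hxy : EqvGen (fun x y => (x, y) ∈ L) x y) : EqvGen (fun x y => (x, y) ∈ L') x y := by
  induction hxy with
  | rel x y h1 => exact EqvGen.rel _ _ (h _ h1)
  | refl x => exact EqvGen.refl _
  | symm x y _ ih => exact EqvGen.symm _ _ ih
  | trans x y z _ _ ih1 ih2 => exact EqvGen.trans _ _ _ ih1 ih2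

private theorem star_split {L : List (ℂ × ℂ)} {S : Set ℂ} (c : ℂ)
    (h : ∀ z ∈ S, EqvGen (fun x y => (x, y) ∈ L) c z) : NConn L S :=
  fun u hu v hv => ((h u hu).symm).trans _ _ _ (h v hv)

private theorem lv_ne_split (t : BT) : t.lv ≠ [] := by
  induction t with
  | lf p => simp [BT.lv]
  | nd z a b iha _ => simp [BT.lv, iha]

private theorem nlen_cons_split (e : ℂ × ℂ) (L : List (ℂ × ℂ)) :
    nlen dist (e :: L) = dist e.1 e.2 + nlen dist L := by simp [nlen]

private theorem nlen_append_split (L L' : List (ℂ × ℂ)) :
    nlen dist (L ++ L') = nlen dist L + nlen dist L' := by simp [nlen]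

theorem t_plSplit (h1 : plConn) : plSplit := by
  intro t
  induction t with
  | lf p => intro x w hw; simp [BT.inn] at hw
  | nd z a b iha ihb =>
    intro x w hw
    have hsub : ∀ (t : BT) (y : ℂ), NConn (t.ed y) {v | v = y ∨ v ∈ t.lv} := by
      intro t y u hu v hv
      refine h1 t y u ?_ v ?_
      · rcases hu with rfl | hu
        · simp
        · simp only [Set.mem_setOf_eq, List.mem_cons, List.mem_append]
          exact Or.inr (Or.inl hu)
      · rcases hv with rfl | hv
        · simp
        · simp only [Set.mem_setOf_eq, List.mem_cons, List.mem_append]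
          exact Or.inr (Or.inl hv)
    simp only [BT.inn, List.mem_cons, List.mem_append] at hw
    rcases hw with rfl | hw | hw
    · refine ⟨[(x, w)], a.ed w, b.ed w, [], a.lv, b.lv, ?_, lv_ne_split a, lv_ne_split b,
        ?_, hsub a w, hsub b w, ?_⟩
      · simp [BT.lv]
      · refine star_split w ?_
        rintro v (rfl | rfl | hv)
        · exact EqvGen.refl _
        · exact EqvGen.symm _ _ (EqvGen.rel _ _ (by simp))
        · simp at hv
      · simp only [BT.ed, nlen_cons_split, nlen_append_split]
        simp [nlen]
        ring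
    · obtain ⟨Er, Ea, Eb, R, Ba, Bb, hp, hBa, hBb, hEr, hEa, hEb, hlen⟩ := iha z w hw
      refine ⟨(x, z) :: (Er ++ b.ed z), Ea, Eb, R ++ b.lv, Ba, Bb, ?_, hBa, hBb, ?_, hEa, hEb, ?_⟩
      · simp only [BT.lv]
        refine (hp.append_right b.lv).trans ?_
        simp only [List.append_assoc]
        refine List.Perm.append_left R ?_
        rw [← List.append_assoc]
        exact List.perm_append_comm
      · have hz : ∀ v, (v = w ∨ v = z ∨ v ∈ R) →
            EqvGen (fun p q => (p, q) ∈ (x, z) :: (Er ++ b.ed z)) z v := by
          intro v hv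
          refine mono_split ?_ (hEr z (Or.inr (Or.inl rfl)) v hv)
          intro e he
          simp [he]
        refine star_split z ?_
        rintro v (rfl | rfl | hv)
        · exact hz _ (Or.inl rfl)
        · exact EqvGen.symm _ _ (EqvGen.rel _ _ (by simp))
        · rw [List.mem_append] at hv
          rcases hv with hv | hv
          · exact hz v (Or.inr (Or.inr hv))
          · refine mono_split ?_ (hsub b z z (Or.inl rfl) v (Or.inr hv))
            intro e he
            simp [he]
      · simp only [BT.ed, nlen_cons_split, nlen_append_split]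
        linarith
    · obtain ⟨Er, Ea, Eb, R, Ba, Bb, hp, hBa, hBb, hEr, hEa, hEb, hlen⟩ := ihb z w hw
      refine ⟨(x, z) :: (Er ++ a.ed z), Ea, Eb, a.lv ++ R, Ba, Bb, ?_, hBa, hBb, ?_, hEa, hEb, ?_⟩
      · simp only [BT.lv]
        refine (hp.append_left a.lv).trans ?_
        simp only [List.append_assoc]
        exact List.Perm.refl _
      · have hz : ∀ v, (v = w ∨ v = z ∨ v ∈ R) →
            EqvGen (fun p q => (p, q) ∈ (x, z) :: (Er ++ a.ed z)) z v := by
          intro v hv
          refine mono_split ?_ (hEr z (Or.inr (Or.inl rfl)) v hv)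
          intro e he
          simp [he]
        refine star_split z ?_
        rintro v (rfl | rfl | hv)
        · exact hz _ (Or.inl rfl)
        · exact EqvGen.symm _ _ (EqvGen.rel _ _ (by simp))
        · rw [List.mem_append] at hv
          rcases hv with hv | hv
          · refine mono_split ?_ (hsub a z z (Or.inl rfl) v (Or.inr hv))
            intro e he
            simp [he]
          · exact hz v (Or.inr (Or.inr hv))
      · simp only [BT.ed, nlen_cons_split, nlen_append_split]
        linarith

end Pool.Agent.Helper18.GP
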