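import Pool.Agent.Helper9.GP.HT

/-!
# Gilbert-Pollak, chapter COR, part P: from planar networks to full embedded trees
Every `pl...` is a `Prop`, proved in its own module. Assembly: `FullOK → stPlanar`.
-/

namespace Pool.Agent.Helper18.GP

open Relation Classical

/-- binary trees with positions -/
inductive BT : Type
  | lf (p : ℂ) : BT
  | nd (z : ℂ) (a b : BT) : BT

namespace BT

/-- position of the root -/
def rt : BT → ℂ
  | lf p => p
  | nd z _ _ => z

/-- leaves -/
def lv : BT → List ℂ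
  | lf p => [p]
  | nd _ a b => lv a ++ lv b

/-- inner nodes -/
def inn : BT → List ℂ
  | lf _ => []
  | nd z a b => z :: (inn a ++ inn b)

/-- all edges, with the edge from `x` to the root first -/
def ed : BT → ℂ → List (ℂ × ℂ)
  | lf p, x => [(x, p)]
  | nd z a b, x => (x, z) :: (ed a z ++ ed b z)

end BT

/-- `t` rooted at `x` is a shortest network for its terminals `x` and leaves -/
def Opt (x : ℂ) (t : BT) : Prop :=
  ∀ E : List (ℂ × ℂ), NConn E {z | z ∈ x :: t.lv} → nlen dist (t.ed x) ≤ nlen dist E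

/-- number of pairs in the list with exactly one end at `z` -/
noncomputable def inc (z : ℂ) (L : List (ℂ × ℂ)) : ℕ :=
  (L.filter fun e => decide ((e.1 = z ∧ e.2 ≠ z) ∨ (e.1 ≠ z ∧ e.2 = z))).length

/-- (T1) a network contains a binary tree.
Proof. Strong induction on `E.length` (for all `x`, `B`). For the points of `B ∪ {x}` let `~` be
`EqvGen` of `E`. If no pair of `E` has `x` as an end then (EqvGen induction, or: the property
`z = x` is invariant) every point joined to `x` equals `x`, so `B = {x}` is excluded by `x ∉ B`,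
contradiction with `B` nonempty. So `E` is a permutation of `e :: E0`, `e = (x,y)` or `(y,x)`.
If `y = x` drop `e`. Let `C` be the set of points joined to `x` in `E0`, `Ex`, `Ey` the lists of the
pairs of `E0` with first end (equivalently: an end) in `C` resp. not in `C`. `B1 = B ∩ C`,
`B2 = B \ C`. `Ex` connects `B1 ∪ {x}`. If `B2 = ∅` use induction for `Ex` (length smaller).
Otherwise `y ∉ C` (else all of `B` is in `C`), every point of `B2` is joined to `y` in `Ey`
(a connection in `E` to `x` outside `C` must use `e`). If `y ∉ B2`: induction gives a tree `t2` for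
`y, B2, Ey`; if `y ∈ B2`: if `B2 = {y}` put `t2 = lf y`, else induction for `B2 \ {y}` gives `t'` and
`t2 = nd y (lf y) t'` (an extra edge `(y,y)` of length `0`). Always
`nlen (t2.ed y) ≤ nlen Ey`. If `B1 = ∅`: `nlen (t2.ed x) ≤ dist x y + nlen (t2.ed y)` (triangle
inequality in the first edge: `t2.ed x` and `t2.ed y` differ only there). If `B1 ≠ ∅`: `t1` for
`x, B1, Ex` and `t = nd x t1 t2`: `nlen (t.ed x) = 0 + nlen (t1.ed x) + nlen (t2.ed x)`. -/
def plTree : Prop := ∀ (E : List (ℂ × ℂ)) (x : ℂ) (B : Finset ℂ), B.Nonempty → x ∉ B →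
  NConn E (insert x (B : Set ℂ)) →
  ∃ t : BT, t.lv.Nodup ∧ t.lv.toFinset = B ∧ nlen dist (t.ed x) ≤ nlen dist E

/-- (T2) shortest trees exist.
Proof. Claim for every nonempty `B` by strong induction on `B.card`: for every `x` there is a
tree `t` with `t.lv.Nodup`, `t.lv.toFinset = B` and `nlen (t.ed x) ≤ nlen (t'.ed x)` for all such
`t'`; write `σ B x` for this least value (or `sInf`); `|σ B x - σ B x'| ≤ dist x x'` since `t.ed x`,
`t.ed x'` differ in the first edge only. One point: the only tree is `lf b`. Two or more: every tree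
is `nd z a b`, its length is `dist x z + nlen (a.ed z) + nlen (b.ed z)`, `a.lv.toFinset = B1`,
`b.lv.toFinset = B \ B1`, both nonempty and smaller. For each of the finitely many `B1` the function
`z ↦ dist x z + σ B1 z + σ (B \ B1) z` is continuous, `≥ dist x z`, so it has a minimum on `ℂ`
(on the closed ball around `x` of radius its value at `x`; `IsCompact.exists_isMinOn`); take the
least over `B1` and optimal subtrees there. -/
def plMin : Prop := ∀ (x : ℂ) (B : Finset ℂ), B.Nonempty →
  ∃ t : BT, t.lv.Nodup ∧ t.lv.toFinset = B ∧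
    ∀ t' : BT, t'.lv.Nodup → t'.lv.toFinset = B → nlen dist (t.ed x) ≤ nlen dist (t'.ed x)

/-- (C) a tree connects all its nodes. Proof: induction on `t`. -/
def plConn : Prop := ∀ (t : BT) (x : ℂ), NConn (t.ed x) {z | z ∈ x :: (t.lv ++ t.inn)}

/-- (S) splitting at an inner node.
Proof. Induction on `t`. `t = nd z a b` with `z = w`: `R = []`, `Ba = a.lv`, `Bb = b.lv`,
`Er = [(x,w)]`, `Ea = a.ed w`, `Eb = b.ed w` (connected by plConn). `t = nd z a b` with
`w ∈ a.inn`: from the induction hypothesis for `a`, `z`: `Er, Ea, Eb, R, Ba, Bb`; take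
`(x,z) :: (Er ++ b.ed z)`, `R ++ b.lv`, and the same `Ea, Eb, Ba, Bb`. Same for `w ∈ b.inn`. -/
def plSplit : Prop := ∀ (t : BT) (x w : ℂ), w ∈ t.inn →
  ∃ (Er Ea Eb : List (ℂ × ℂ)) (R Ba Bb : List ℂ), t.lv.Perm (R ++ Ba ++ Bb) ∧ Ba ≠ [] ∧ Bb ≠ [] ∧
    NConn Er {z | z = w ∨ z = x ∨ z ∈ R} ∧ NConn Ea {z | z = w ∨ z ∈ Ba} ∧
    NConn Eb {z | z = w ∨ z ∈ Bb} ∧
    nlen dist Er + nlen dist Ea + nlen dist Eb = nlen dist (t.ed x)

/-- (PI) pair inequality in a shortest network: two edges at `z` have angle at least 120 degrees.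
Pairs may be turned around.
Proof. Let `u, v` be the unit vectors of `i - z`, `j - z` and suppose `dt u v > -1/2`, i.e.
`‖u + v‖ > 1`. Put `w = (u + v)/‖u + v‖`, `z' = z + s w`, `s > 0` small. The list
`(z,z') :: (z',i) :: (z',j) :: E0` connects `S` (the old pairs `(z,i)`, `(z,j)` are replaced by paths
through `z'`), and its length minus the old one is `s + ‖i - z - s w‖ - ‖i - z‖ +
‖j - z - s w‖ - ‖j - z‖ = s (1 - dt u w - dt v w) + O(s^2) = s (1 - ‖u + v‖) + O(s^2) < 0`
(use `‖p - s w‖ ≤ ‖p‖ - s dt (p/‖p‖) w + s^2 / (2‖p‖)`, from `‖p - s w‖^2 = ‖p‖^2 - 2 s dt p w + s^2`).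
Contradiction to minimality. -/
def plPair : Prop := ∀ (S : Set ℂ) (z i j : ℂ) (E0 : List (ℂ × ℂ)),
  NConn ((z, i) :: (z, j) :: E0) S →
  (∀ E, NConn E S → nlen dist ((z, i) :: (z, j) :: E0) ≤ nlen dist E) → i ≠ z → j ≠ z →
  dt ((i - z) / ‖i - z‖) ((j - z) / ‖j - z‖) ≤ -1 / 2

/-- (I3) at most three edges at a point of a shortest network.
Hypotheses to use: plPair.
Proof. If `4 ≤ inc z L` then `L` is, up to a permutation and turning pairs around (which changes
neither `NConn` nor `nlen`), `(z,i1) :: (z,i2) :: (z,i3) :: (z,i4) :: E0` with all `i_k ≠ z`; the unit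
vectors `u_k` of `i_k - z` satisfy `dt u_k u_l ≤ -1/2` for all `k ≠ l` by plPair (after a further
permutation), so `0 ≤ ‖u1 + u2 + u3 + u4‖^2 ≤ 4 - 12/2 = -2`. -/
def plThree : Prop := ∀ (S : Set ℂ) (z : ℂ) (L : List (ℂ × ℂ)), NConn L S →
  (∀ E, NConn E S → nlen dist L ≤ nlen dist E) → inc z L ≤ 3

/-- (N1) an edge of length zero between inner nodes forces four edges at its point.
Proof. `z` is no leaf. Structural induction proving at once: (1) `1 ≤ inc z (t.ed z)`, and
`2 ≤ inc z (t.ed z)` if `t.rt = z`; (2) if `x ≠ z` and `(z,z) ∈ t.ed x` then `4 ≤ inc z (t.ed x)`;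
(3) if `(z,z) ∈ t.ed z` then `2 ≤ inc z (t.ed z)`. `t = lf p`: `p ≠ z`. `t = nd y a b`: if `y = z`:
`(1)` for `a` and `b`: `inc z (t.ed z) ≥ 2`; in (2) the pair `(x,z)` counts one, and `(z,z)` is in
`a.ed z` or `b.ed z`, (3) for it gives 2, (1) for the other one 1. If `y ≠ z`: `(z,y)` counts in (1),
(3) and in (2) `(z,z)` is in `a.ed y` or `b.ed y`, use (2) for it; (3) the same. -/
def plZero : Prop := ∀ (t : BT) (x z : ℂ), z ∉ t.lv → x ≠ z → (z, z) ∈ t.ed x →
  4 ≤ inc z (t.ed x)

/-- (N2) two inner nodes at the same point force more than three edges there.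
Proof. If all edges have different ends: `3 * (t.inn.count z) ≤ inc z (t.ed x)` for `x ≠ z` and
`1 + 3 * (t.inn.count z) ≤ inc z (t.ed z)`, by structural induction (`nd y a b`, `y = z`: the
edge `(x,z)` counts one and both subtrees start at `z`; `y ≠ z`: both subtrees start at `y ≠ z`). -/
def plCount : Prop := ∀ (t : BT) (x z : ℂ), x ≠ z → (∀ e ∈ t.ed x, e.1 ≠ e.2) →
  3 * t.inn.count z ≤ inc z (t.ed x)

/-- (E) the edges of a shortest network meet only at common ends. `L` connects all its own ends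
(and `S`).
Proof. By symmetry (`EndOnly` is symmetric in `e, f`; permute the list) it is enough: if `z` is in
both segments, `z ≠ e.1` and `z ≠ e.2` then contradiction. Write `e = (p,q)`, `f = (r,s)`. As
`e :: f :: L0` connects `p, q, r, s`, in `f :: L0` the point `r` is joined to `p` or to `q` (a
connection from `r` to `p` uses the pair `e` or not: the set of points joined to `p` or `q` in
`f :: L0` is closed under all pairs of the list). Say `r` is joined to `p`. Then
`(z,q) :: (r,z) :: (z,s) :: L0` connects everything that `e :: f :: L0` connects: `f` is replaced by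
`r, z, s`, so `p` is joined to `r`, hence to `z` and to `q`. Its length is smaller by
`dist p z > 0` (`dist p q = dist p z + dist z q` for `z` in the segment). Same if `r` is joined to
`q`, dropping `(z,q)`. -/
def plEnd : Prop := ∀ (S : Set ℂ) (e f : ℂ × ℂ) (L0 : List (ℂ × ℂ)),
  NConn (e :: f :: L0) (S ∪ {z | ∃ g ∈ e :: f :: L0, z = g.1 ∨ z = g.2}) →
  (∀ E, NConn E S → nlen dist (e :: f :: L0) ≤ nlen dist E) → e.1 ≠ e.2 → f.1 ≠ f.2 → EndOnly e f

/-- (H) a tree whose inner nodes have three unit vectors of pair products `≤ -1/2` is an `HT`.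
Proof. Structural induction. `t = lf p`: `HT.lf ‖p - x‖`. `t = nd z a b`: `d := (z - x)/‖z - x‖`; the
unit vectors `u = (a.rt - z)/‖..‖`, `v = (b.rt - z)/‖..‖`, `-d` have pair products `≤ -1/2`, so
`‖u + v - d‖^2 ≤ 0`: `u + v = d` and all products are `-1/2`; `dt u d = 1/2`, `‖u‖ = 1` give `u = d * om` or
`u = d * om⁻¹`, and `v = d - u` is the other one (`om + om⁻¹ = 1`). The induction hypotheses for
`a, z` and `b, z` give the subtrees, in the right order; `z = x + ‖z - x‖ d`. The second
hypothesis passes to the subtrees: `(t.ed x)` is a permutation of `(a.ed z) ++ rest`. -/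
def plHT : Prop := ∀ (t : BT) (x : ℂ), (∀ e ∈ t.ed x, e.1 ≠ e.2) →
  (∀ (z p i j : ℂ) (L0 : List (ℂ × ℂ)), (t.ed x).Perm ((p, z) :: (z, i) :: (z, j) :: L0) →
    dt ((p - z) / ‖p - z‖) ((i - z) / ‖i - z‖) ≤ -1 / 2 ∧
    dt ((p - z) / ‖p - z‖) ((j - z) / ‖j - z‖) ≤ -1 / 2 ∧
    dt ((i - z) / ‖i - z‖) ((j - z) / ‖j - z‖) ≤ -1 / 2) →
  ∃ s : HT, s.Pos ∧ s.len = nlen dist (t.ed x) ∧
    (s.leaves x ((t.rt - x) / ‖t.rt - x‖)).Perm t.lv ∧
    (s.nodes x ((t.rt - x) / ‖t.rt - x‖)).Perm (t.lv ++ t.inn) ∧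
    (s.edges x ((t.rt - x) / ‖t.rt - x‖)).Perm (t.ed x) ∧
    (∀ z a b, t = BT.nd z a b → ∃ l a' b', s = HT.nd l a' b')

end Pool.Agent.Helper18.GP
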