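import Pool.Agent.Helper9.GP.PlSt

/-!
# Gilbert-Pollak, chapter COR, part P: assembly `FullOK → stPlanar`
-/

namespace Pool.Agent.Helper18.GP

open Relation Classical

theorem NConn_mono_pl {X : Type*} {E : List (X × X)} {A B : Set X} (h : NConn E A) (hs : B ⊆ A) :
    NConn E B := fun a ha b hb => h a (hs ha) b (hs hb)

theorem EqvGen_mono_pl {X : Type*} {E E' : List (X × X)} (h : ∀ e ∈ E, e ∈ E') {a b : X}
    (hab : EqvGen (fun x y => (x, y) ∈ E) a b) : EqvGen (fun x y => (x, y) ∈ E') a b := by
  induction hab with
  | rel x y he => exact EqvGen.rel _ _ (h _ he)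
  | refl => exact EqvGen.refl _
  | symm _ _ _ ih => exact EqvGen.symm _ _ ih
  | trans _ _ _ _ _ ih1 ih2 => exact EqvGen.trans _ _ _ ih1 ih2

/-- union of two networks with a common terminal -/
theorem NConn_append_pl {X : Type*} {E E' : List (X × X)} {A B : Set X} {w : X}
    (h : NConn E A) (h' : NConn E' B) (hwA : w ∈ A) (hwB : w ∈ B) :
    NConn (E ++ E') (A ∪ B) := by
  have key : ∀ z ∈ A ∪ B, EqvGen (fun x y => (x, y) ∈ E ++ E') z w := by
    intro z hz
    rcases hz with hz | hz
    · exact EqvGen_mono_pl (fun e he => List.mem_append.2 (Or.inl he)) (h z hz w hwA)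
    · exact EqvGen_mono_pl (fun e he => List.mem_append.2 (Or.inr he)) (h' z hz w hwB)
  intro a ha b hb
  exact EqvGen.trans _ _ _ (key a ha) (EqvGen.symm _ _ (key b hb))

theorem nlen_append_pl {X : Type*} (d : X → X → ℝ) (E E' : List (X × X)) :
    nlen d (E ++ E') = nlen d E + nlen d E' := by
  unfold nlen
  rw [List.map_append, List.sum_append]

theorem nlen_cons_pl {X : Type*} (d : X → X → ℝ) (e : X × X) (E : List (X × X)) :
    nlen d (e :: E) = d e.1 e.2 + nlen d E := by
  unfold nlen
  rw [List.map_cons, List.sum_cons]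

theorem nlen_perm_pl {X : Type*} (d : X → X → ℝ) {E E' : List (X × X)} (h : E.Perm E') :
    nlen d E = nlen d E' := by
  unfold nlen
  exact (h.map _).sum_eq

theorem nlen_nonneg_pl (E : List (ℂ × ℂ)) : 0 ≤ nlen dist E := by
  unfold nlen
  apply List.sum_nonneg
  intro x hx
  rw [List.mem_map] at hx
  obtain ⟨e, -, rfl⟩ := hx
  exact dist_nonneg

theorem NConn_perm_pl {X : Type*} {E E' : List (X × X)} {A : Set X} (h : NConn E A)
    (hp : E.Perm E') : NConn E' A :=
  fun a ha b hb => EqvGen_mono_pl (fun e he => hp.mem_iff.1 he) (h a ha b hb)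

theorem lv_ne_nil_pl : ∀ t : BT, t.lv ≠ []
  | BT.lf p => by simp [BT.lv]
  | BT.nd z a b => by
    intro h
    rw [BT.lv, List.append_eq_nil_iff] at h
    exact lv_ne_nil_pl a h.1

theorem lf_of_card_pl {t : BT} {b : ℂ} (hn : t.lv.Nodup) (hb : t.lv.toFinset = {b}) :
    t = BT.lf b := by
  cases t with
  | lf p =>
    rw [BT.lv, List.toFinset_cons, List.toFinset_nil] at hb
    have : p ∈ ({b} : Finset ℂ) := by rw [← hb]; simp
    rw [Finset.mem_singleton] at this
    rw [this]
  | nd z a c =>
    exfalso
    have h1 : (BT.nd z a c).lv.toFinset.card = 1 := by rw [hb]; simp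
    rw [List.toFinset_card_of_nodup hn, BT.lv, List.length_append] at h1
    have h2 := List.length_pos_iff.2 (lv_ne_nil_pl a)
    have h3 := List.length_pos_iff.2 (lv_ne_nil_pl c)
    omega

theorem ed_fst_pl : ∀ (t : BT) (x : ℂ), ∀ e ∈ t.ed x, e.1 ∈ x :: t.inn
  | BT.lf p, x, e, he => by
    rw [BT.ed, List.mem_singleton] at he
    rw [he]; simp
  | BT.nd z a b, x, e, he => by
    rw [BT.ed, List.mem_cons, List.mem_append] at he
    rw [BT.inn]
    rcases he with rfl | he | he
    · simp
    · have := ed_fst_pl a z e he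
      rw [List.mem_cons] at this
      rcases this with h | h
      · rw [h]; simp
      · simp [h]
    · have := ed_fst_pl b z e he
      rw [List.mem_cons] at this
      rcases this with h | h
      · rw [h]; simp
      · simp [h]

theorem ed_snd_pl : ∀ (t : BT) (x : ℂ), ∀ e ∈ t.ed x, e.2 ∈ t.lv ++ t.inn
  | BT.lf p, x, e, he => by
    rw [BT.ed, List.mem_singleton] at he
    rw [he]; simp [BT.lv]
  | BT.nd z a b, x, e, he => by
    rw [BT.ed, List.mem_cons, List.mem_append] at he
    rw [BT.inn, BT.lv]
    rcases he with rfl | he | he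
    · simp
    · have := ed_snd_pl a z e he
      simp only [List.mem_append, List.mem_cons] at this ⊢
      tauto
    · have := ed_snd_pl b z e he
      simp only [List.mem_append, List.mem_cons] at this ⊢
      tauto

theorem pairwise_of_perm_pl {α : Type*} {R : α → α → Prop} :
    ∀ {L : List α}, (∀ e f L0, L.Perm (e :: f :: L0) → R e f) → L.Pairwise R
  | [], _ => List.Pairwise.nil
  | e :: L, h => by
    rw [List.pairwise_cons]
    constructor
    · intro f hf
      obtain ⟨L0, hL0⟩ : ∃ L0, L.Perm (f :: L0) := ⟨L.erase f, List.perm_cons_erase hf⟩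
      exact h e f L0 (hL0.cons e)
    · apply pairwise_of_perm_pl
      intro f g L0 hL0
      refine h f g (e :: L0) ?_
      exact (hL0.cons e).trans ((List.Perm.swap f e (g :: L0)).trans
        ((List.Perm.swap g e L0).cons f))

theorem stPlanar_of (hFull : FullOK) (hTree : plTree) (hMin : plMin) (hConn : plConn)
    (hSplit : plSplit) (hPair : plPair) (hThree : plThree) (hZero : plZero) (hCount : plCount)
    (hEnd : plEnd) (hHT : plHT) : stPlanar := by
  have hrho0 : 0 < rho := by unfold rho; positivity
  have hrho1 : rho ≤ 1 := by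
    unfold rho
    have : Real.sqrt 3 ≤ 2 := by
      rw [Real.sqrt_le_left (by norm_num)]; norm_num
    linarith
  -- strong induction on the number of points
  have main : ∀ n : ℕ, ∀ A : Finset ℂ, A.card = n → ∀ E : List (ℂ × ℂ), NConn E (A : Set ℂ) →
      ∃ m : List (ℂ × ℂ), (∀ e ∈ m, e.1 ∈ A ∧ e.2 ∈ A) ∧ NConn m (A : Set ℂ) ∧
        rho * nlen dist m ≤ nlen dist E := by
    intro n
    induction n using Nat.strong_induction_on with
    | _ n ih =>
    intro A hA E hE
    by_cases h1 : A.card ≤ 1
    · refine ⟨[], by simp, ?_, ?_⟩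
      · intro a ha b hb
        rw [Finset.card_le_one.1 h1 a ha b hb]
        exact EqvGen.refl _
      · have := nlen_nonneg_pl E
        simp [nlen] at this ⊢
        exact this
    obtain ⟨x, hx⟩ : A.Nonempty := by
      rw [← Finset.card_pos]; omega
    set B := A.erase x with hB
    have hBc : B.card = A.card - 1 := Finset.card_erase_of_mem hx
    have hBne : B.Nonempty := by rw [← Finset.card_pos]; omega
    have hxB : x ∉ B := by rw [hB]; simp
    have hAB : (insert x (B : Set ℂ)) = (A : Set ℂ) := by
      rw [hB, ← Finset.coe_insert, Finset.insert_erase hx]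
    obtain ⟨t0, n0, e0, l0⟩ := hTree E x B hBne hxB (by rw [hAB]; exact hE)
    obtain ⟨t, nt, et, lt⟩ := hMin x B hBne
    have hset : {z | z ∈ x :: t.lv} = (A : Set ℂ) := by
      rw [← hAB, ← et]
      ext z
      simp
    have hOpt : ∀ E' : List (ℂ × ℂ), NConn E' (A : Set ℂ) → nlen dist (t.ed x) ≤ nlen dist E' := by
      intro E' hE'
      obtain ⟨t', n', e', l'⟩ := hTree E' x B hBne hxB (by rw [hAB]; exact hE')
      exact le_trans (lt t' n' e') l'
    have hle : nlen dist (t.ed x) ≤ nlen dist E := hOpt E hE
    have hxlv : x ∉ t.lv := by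
      intro h
      exact hxB (by rw [← et]; simpa using h)
    have hlvA : ∀ z, z ∈ t.lv → z ∈ A := by
      intro z hz
      have : z ∈ B := by rw [← et]; simpa using hz
      exact Finset.mem_of_mem_erase this
    suffices hs : ∃ m : List (ℂ × ℂ), (∀ e ∈ m, e.1 ∈ A ∧ e.2 ∈ A) ∧ NConn m (A : Set ℂ) ∧
        rho * nlen dist m ≤ nlen dist (t.ed x) by
      obtain ⟨m, m1, m2, m3⟩ := hs
      exact ⟨m, m1, m2, le_trans m3 hle⟩
    by_cases h2 : A.card = 2
    · -- two points
      have hB1 : B.card = 1 := by omega
      obtain ⟨b, hb⟩ := Finset.card_eq_one.1 hB1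
      have htb : t = BT.lf b := lf_of_card_pl nt (by rw [et, hb])
      have hbA : b ∈ A := by
        apply hlvA
        rw [htb]; simp [BT.lv]
      refine ⟨[(x, b)], ?_, ?_, ?_⟩
      · intro e he
        rw [List.mem_singleton] at he
        rw [he]; exact ⟨hx, hbA⟩
      · rw [← hset, htb]
        have := hConn (BT.lf b) x
        simpa [BT.ed, BT.lv, BT.inn] using this
      · rw [htb, BT.ed]
        have := nlen_nonneg_pl [(x, b)]
        nlinarith
    have hB2 : 2 ≤ B.card := by omega
    obtain ⟨z0, a, b, ht⟩ : ∃ z0 a b, t = BT.nd z0 a b := by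
      cases t with
      | lf p =>
        exfalso
        have : B.card ≤ 1 := by
          rw [← et, BT.lv]; simp
        omega
      | nd z a b => exact ⟨z, a, b, rfl⟩
    by_cases hin : ∃ w ∈ t.inn, w ∈ A
    · -- split
      obtain ⟨w, hw, hwA⟩ := hin
      obtain ⟨Er, Ea, Eb, R, Ba, Bb, hp, ha0, hb0, cr, ca, cb, hl⟩ := hSplit t x w hw
      have hnd : (R ++ Ba ++ Bb).Nodup := hp.nodup_iff.1 nt
      have hmem : ∀ z, z ∈ t.lv ↔ z ∈ R ∨ z ∈ Ba ∨ z ∈ Bb := by
        intro z
        rw [hp.mem_iff, List.mem_append, List.mem_append]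
        tauto
      have hAmem : ∀ z, z ∈ A ↔ z = x ∨ z ∈ R ∨ z ∈ Ba ∨ z ∈ Bb := by
        intro z
        rw [← hmem]
        have : z ∈ A ↔ z ∈ (A : Set ℂ) := Iff.rfl
        rw [this, ← hset]
        simp
      -- general step: a part `Y` not containing `w`
      have step : ∀ (Y : Finset ℂ) (E1 E2 : List (ℂ × ℂ)), Y ⊆ A → w ∉ Y → Y.Nonempty →
          2 ≤ (A \ Y).card → NConn E1 (insert w (Y : Set ℂ)) → NConn E2 ((A \ Y : Finset ℂ) : Set ℂ) →
          nlen dist E1 + nlen dist E2 ≤ nlen dist (t.ed x) →
          ∃ m : List (ℂ × ℂ), (∀ e ∈ m, e.1 ∈ A ∧ e.2 ∈ A) ∧ NConn m (A : Set ℂ) ∧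
            rho * nlen dist m ≤ nlen dist (t.ed x) := by
        intro Y E1 E2 hYA hwY hY h2Y c1 c2 hlen
        have hcard := Finset.card_sdiff_add_card_eq_card hYA
        have hc1 : (insert w Y).card < n := by
          rw [Finset.card_insert_of_notMem hwY]; omega
        have hc2 : (A \ Y).card < n := by
          have := Finset.card_pos.2 hY
          omega
        obtain ⟨m1, p1, q1, r1⟩ := ih _ hc1 (insert w Y) rfl E1 (by
          rw [Finset.coe_insert]; exact c1)
        obtain ⟨m2, p2, q2, r2⟩ := ih _ hc2 (A \ Y) rfl E2 c2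
        refine ⟨m1 ++ m2, ?_, ?_, ?_⟩
        · intro e he
          rw [List.mem_append] at he
          have hsub1 : insert w Y ⊆ A := Finset.insert_subset hwA hYA
          rcases he with he | he
          · exact ⟨hsub1 (p1 e he).1, hsub1 (p1 e he).2⟩
          · exact ⟨Finset.sdiff_subset (p2 e he).1, Finset.sdiff_subset (p2 e he).2⟩
        · refine NConn_mono_pl (NConn_append_pl (w := w) q1 q2 ?_ ?_) ?_
          · simp
          · simp [hwA, hwY]
          · intro z hz
            by_cases hzY : z ∈ Y
            · left; simp [hzY]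
            · right
              simp only [Finset.coe_sdiff, Set.mem_sdiff, Finset.mem_coe]
              exact ⟨hz, hzY⟩
        · rw [nlen_append_pl]
          nlinarith
      have hdis1 : ∀ z ∈ R, z ∉ Ba ∧ z ∉ Bb := by
        intro z hz
        rw [List.nodup_append, List.nodup_append] at hnd
        exact ⟨fun h => hnd.1.2.2 z hz z h rfl,
          fun h => hnd.2.2 z (List.mem_append.2 (Or.inl hz)) z h rfl⟩
      have hdis2 : ∀ z ∈ Ba, z ∉ Bb := by
        intro z hz h
        rw [List.nodup_append, List.nodup_append] at hnd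
        exact hnd.2.2 z (List.mem_append.2 (Or.inr hz)) z h rfl
      have hxR : x ∉ R ∧ x ∉ Ba ∧ x ∉ Bb := by
        refine ⟨fun h => hxlv ((hmem x).2 (Or.inl h)), fun h => hxlv ((hmem x).2 (Or.inr (Or.inl h))),
          fun h => hxlv ((hmem x).2 (Or.inr (Or.inr h)))⟩
      obtain ⟨pa, hpa⟩ := List.exists_mem_of_ne_nil _ ha0
      obtain ⟨pb, hpb⟩ := List.exists_mem_of_ne_nil _ hb0
      have card2 : ∀ (S : Finset ℂ) (u v : ℂ), u ∈ S → v ∈ S → u ≠ v → 2 ≤ S.card := by
        intro S u v hu hv huv
        exact Finset.one_lt_card.2 ⟨u, hu, v, hv, huv⟩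
      by_cases hwa : w ∈ Ba
      · -- part Bb
        apply step Bb.toFinset Eb (Er ++ Ea)
        · intro z hz
          rw [List.mem_toFinset] at hz
          exact (hAmem z).2 (Or.inr (Or.inr (Or.inr hz)))
        · rw [List.mem_toFinset]; exact hdis2 w hwa
        · exact ⟨pb, by rw [List.mem_toFinset]; exact hpb⟩
        · apply card2 _ x w
          · rw [Finset.mem_sdiff, List.mem_toFinset]; exact ⟨hx, hxR.2.2⟩
          · rw [Finset.mem_sdiff, List.mem_toFinset]; exact ⟨hwA, hdis2 w hwa⟩
          · rintro rfl; exact hxR.2.1 hwa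
        · refine NConn_mono_pl cb ?_
          intro z hz
          rw [Set.mem_insert_iff, Finset.mem_coe, List.mem_toFinset] at hz
          exact hz
        · refine NConn_mono_pl (NConn_append_pl (w := w) cr ca (Or.inl rfl) (Or.inl rfl)) ?_
          intro z hz
          rw [Finset.mem_coe, Finset.mem_sdiff, List.mem_toFinset, hAmem] at hz
          rcases hz with ⟨h | h | h | h, h'⟩
          · left; exact Or.inr (Or.inl h)
          · left; exact Or.inr (Or.inr h)
          · right; exact Or.inr h
          · exact absurd h h'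
        · rw [nlen_append_pl]; linarith
      · -- part Ba
        apply step Ba.toFinset Ea (Er ++ Eb)
        · intro z hz
          rw [List.mem_toFinset] at hz
          exact (hAmem z).2 (Or.inr (Or.inr (Or.inl hz)))
        · rw [List.mem_toFinset]; exact hwa
        · exact ⟨pa, by rw [List.mem_toFinset]; exact hpa⟩
        · apply card2 _ x pb
          · rw [Finset.mem_sdiff, List.mem_toFinset]; exact ⟨hx, hxR.2.1⟩
          · rw [Finset.mem_sdiff, List.mem_toFinset]
            exact ⟨(hAmem pb).2 (Or.inr (Or.inr (Or.inr hpb))), fun h => hdis2 pb h hpb⟩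
          · rintro rfl; exact hxR.2.2 hpb
        · refine NConn_mono_pl ca ?_
          intro z hz
          rw [Set.mem_insert_iff, Finset.mem_coe, List.mem_toFinset] at hz
          exact hz
        · refine NConn_mono_pl (NConn_append_pl (w := w) cr cb (Or.inl rfl) (Or.inl rfl)) ?_
          intro z hz
          rw [Finset.mem_coe, Finset.mem_sdiff, List.mem_toFinset, hAmem] at hz
          rcases hz with ⟨h | h | h | h, h'⟩
          · left; exact Or.inr (Or.inl h)
          · left; exact Or.inr (Or.inr h)
          · exact absurd h h'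
          · right; exact Or.inr h
        · rw [nlen_append_pl]; linarith
    · -- full tree
      push Not at hin
      have hconnA : NConn (t.ed x) (A : Set ℂ) := by
        rw [← hset]
        refine NConn_mono_pl (hConn t x) ?_
        intro z hz
        simp only [Set.mem_setOf_eq, List.mem_cons, List.mem_append] at hz ⊢
        tauto
      have hinc : ∀ z, inc z (t.ed x) ≤ 3 := fun z => hThree A z (t.ed x) hconnA hOpt
      have hxinn : x ∉ t.inn := fun h => hin x h hx
      have hpos : ∀ e ∈ t.ed x, e.1 ≠ e.2 := by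
        intro e he heq
        have h3 := ed_fst_pl t x e he
        have h4 := ed_snd_pl t x e he
        have he' : (e.1, e.1) ∈ t.ed x := by
          have : e = (e.1, e.1) := Prod.ext rfl heq.symm
          rw [← this]; exact he
        rw [← heq, List.mem_append] at h4
        rw [List.mem_cons] at h3
        have hne : x ≠ e.1 := by
          intro h
          rw [← h] at h4
          rcases h4 with h4 | h4
          · exact hxlv h4
          · exact hxinn h4
        have h5 : e.1 ∈ t.inn := by
          rcases h3 with h3 | h3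
          · exact absurd h3.symm hne
          · exact h3
        have h6 : e.1 ∉ t.lv := fun h => hin _ h5 (hlvA _ h)
        have := hZero t x e.1 h6 hne he'
        have := hinc e.1
        omega
      have hinn : t.inn.Nodup := by
        rw [List.nodup_iff_count_le_one]
        intro z
        by_cases hzx : x = z
        · rw [← hzx, List.count_eq_zero_of_not_mem hxinn]; omega
        · have := hCount t x z hzx hpos
          have := hinc z
          omega
      have hnodup : (x :: (t.lv ++ t.inn)).Nodup := by
        rw [List.nodup_cons, List.mem_append, List.nodup_append]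
        refine ⟨by rintro (h | h); exacts [hxlv h, hxinn h], nt, hinn, ?_⟩
        intro u hu v hv huv
        subst huv
        exact hin u hv (hlvA u hu)
      have hpw : (t.ed x).Pairwise EndOnly := by
        apply pairwise_of_perm_pl
        intro e f L0 hL
        have hEf := NConn_perm_pl (hConn t x) hL
        refine hEnd (A : Set ℂ) e f L0 ?_ ?_ ?_ ?_
        · refine NConn_mono_pl hEf ?_
          intro z hz
          rcases hz with hz | ⟨g, hg, hz⟩
          · rw [← hset] at hz
            simp only [Set.mem_setOf_eq, List.mem_cons, List.mem_append] at hz ⊢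
            tauto
          · have hg' := hL.mem_iff.2 hg
            have h3 := ed_fst_pl t x g hg'
            have h4 := ed_snd_pl t x g hg'
            simp only [Set.mem_setOf_eq, List.mem_cons, List.mem_append] at h3 h4 ⊢
            rcases hz with rfl | rfl <;> tauto
        · intro E' hE'
          rw [← nlen_perm_pl dist hL]
          exact hOpt E' hE'
        · exact hpos e (hL.mem_iff.2 (by simp))
        · exact hpos f (hL.mem_iff.2 (by simp))
      have htri : ∀ (z p i j : ℂ) (L0 : List (ℂ × ℂ)),
          (t.ed x).Perm ((p, z) :: (z, i) :: (z, j) :: L0) →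
          dt ((p - z) / ‖p - z‖) ((i - z) / ‖i - z‖) ≤ -1 / 2 ∧
          dt ((p - z) / ‖p - z‖) ((j - z) / ‖j - z‖) ≤ -1 / 2 ∧
          dt ((i - z) / ‖i - z‖) ((j - z) / ‖j - z‖) ≤ -1 / 2 := by
        intro z p i j L0 hL
        have c0 := NConn_perm_pl hconnA hL
        -- turn the first pair around
        have c1 : NConn ((z, p) :: (z, i) :: (z, j) :: L0) (A : Set ℂ) := by
          intro u hu v hv
          have := c0 u hu v hv
          clear hu hv
          induction this with
          | rel a b h =>
            rw [List.mem_cons] at h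
            rcases h with h | h
            · have h7 : a = p ∧ b = z := Prod.ext_iff.1 h
              rw [h7.1, h7.2]
              exact EqvGen.symm _ _ (EqvGen.rel _ _ (by simp))
            · exact EqvGen.rel _ _ (by rw [List.mem_cons]; exact Or.inr h)
          | refl => exact EqvGen.refl _
          | symm _ _ _ ih => exact EqvGen.symm _ _ ih
          | trans _ _ _ _ _ ih1 ih2 => exact EqvGen.trans _ _ _ ih1 ih2
        have hlen1 : nlen dist ((z, p) :: (z, i) :: (z, j) :: L0) = nlen dist (t.ed x) := by
          rw [nlen_perm_pl dist hL, nlen_cons_pl, nlen_cons_pl dist (p, z), dist_comm]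
        have o1 : ∀ L, L.Perm ((z, p) :: (z, i) :: (z, j) :: L0) → ∀ E', NConn E' (A : Set ℂ) →
            nlen dist L ≤ nlen dist E' := by
          intro L hL' E' hE'
          rw [nlen_perm_pl dist hL', hlen1]
          exact hOpt E' hE'
        have hpz : p ≠ z := hpos (p, z) (hL.mem_iff.2 (by simp))
        have hiz : i ≠ z := fun h => hpos (z, i) (hL.mem_iff.2 (by simp)) h.symm
        have hjz : j ≠ z := fun h => hpos (z, j) (hL.mem_iff.2 (by simp)) h.symm
        refine ⟨?_, ?_, ?_⟩
        · exact hPair A z p i ((z, j) :: L0) c1 (o1 _ (List.Perm.refl _)) hpz hiz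
        · have hq : ((z, p) :: (z, j) :: (z, i) :: L0).Perm ((z, p) :: (z, i) :: (z, j) :: L0) :=
            (List.Perm.swap _ _ _).cons _
          exact hPair A z p j ((z, i) :: L0) (NConn_perm_pl c1 hq.symm) (o1 _ hq) hpz hjz
        · have hq : ((z, i) :: (z, j) :: (z, p) :: L0).Perm ((z, p) :: (z, i) :: (z, j) :: L0) :=
            ((List.Perm.swap _ _ _).cons _).trans (List.Perm.swap _ _ _)
          exact hPair A z i j ((z, p) :: L0) (NConn_perm_pl c1 hq.symm) (o1 _ hq) hiz hjz
      obtain ⟨s, s1, s2, s3, s4, s5, s6⟩ := hHT t x hpos htri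
      obtain ⟨l, a', b', hs⟩ := s6 z0 a b ht
      set d := (t.rt - x) / (‖t.rt - x‖ : ℂ) with hd
      have hrt : t.rt ≠ x := by
        have : (x, t.rt) ∈ t.ed x := by
          rw [ht]; simp [BT.ed, BT.rt]
        exact fun h => hpos _ this h.symm
      have hd1 : ‖d‖ = 1 := by
        rw [hd, norm_div, Complex.norm_real, norm_norm]
        exact div_self (norm_ne_zero_iff.2 (sub_ne_zero.2 hrt))
      subst hs
      have hemb : Emb x d (HT.nd l a' b') := by
        refine ⟨?_, ?_⟩
        · exact ((s4.cons x).nodup_iff).2 hnodup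
        · refine List.Perm.pairwise s5.symm hpw ?_
          intro e f h z hz1 hz2
          have := h z hz2 hz1
          exact ⟨this.2, this.1⟩
      obtain ⟨m, m1, m2, m3⟩ := hFull x d l a' b' hd1 s1 hemb
      have hmem : ∀ z, z ∈ x :: (HT.nd l a' b').leaves x d ↔ z ∈ A := by
        intro z
        rw [List.mem_cons, s3.mem_iff, ← List.mem_cons]
        have : z ∈ A ↔ z ∈ (A : Set ℂ) := Iff.rfl
        rw [this, ← hset]
        rfl
      refine ⟨m, fun e he => ⟨(hmem _).1 (m1 e he).1, (hmem _).1 (m1 e he).2⟩, ?_, ?_⟩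
      · refine NConn_mono_pl m2 ?_
        intro z hz
        exact (hmem z).2 hz
      · rw [← s2]; exact m3
  intro A E hE
  exact main _ A rfl E hE

end Pool.Agent.Helper18.GP
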