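import Pool.Agent.Helper9.GP.Defs

/-!
# Project GP: interfaces between the chapters (statements only)

Plan with all proofs: /team-store/MP_e46579-formal-h9.md (numbers in brackets refer to it).
Every `stXX` is a `Prop`; each is proved in its own module(s), possibly from other `stXX`.
-/

noncomputable section

namespace Helper9.GP

open Relation

/-! ## Auxiliary definitions -/

/-- induction hypothesis -/
def IH (n : ℕ) : Prop := ∀ k, 2 ≤ k → k < n → GG k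

section
variable {ι : Type}

/-- the pairs `{v,w}` and `{a,b}` interlace in the cyclic list `l` -/
def Inter (l : List ι) (v w a b : ι) : Prop :=
  ∃ l1 l2, l ~r (v :: l1 ++ w :: l2) ∧ ((a ∈ l1 ∧ b ∈ l2) ∨ (b ∈ l1 ∧ a ∈ l2))

variable [Fintype ι] [DecidableEq ι]

/-- no vertex lies strictly between `x` and `y` on a shortest chain -/
def Clear (l : List ι) (T : Set (ι × ι × ι)) (P : ι → ℂ) (x y : ι → ℝ) : Prop :=
  ∀ b ∈ l, vx b ≠ x → vx b ≠ y → ds l T P x y < ds l T P x (vx b) + ds l T P (vx b) y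

open Classical in
/-- total angle at the vertex `v` (for positive `T`) -/
def ang (T : Set (ι × ι × ι)) (P : ι → ℂ) (v : ι) : ℝ :=
  ∑ p : ι × ι, if (v, p.1, p.2) ∈ T then Complex.arg ((P p.2 - P v) / (P p.1 - P v)) else 0

/-- relation for edge vectors -/
def ev (P : ι → ℂ) (p : ι × ι) : ℂ := P p.2 - P p.1

end

/-! ## Chapter B: abstract combinatorics -/

/-- (W),(W') wedge lemma. `J` = junction points (mutual distance zero), `pt w, pt w' ∈ J`.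
Marked lists `w :: l1` (in the first part), `w' :: l2` (in the second part);
conclusion for `w :: l1 ++ w' :: l2` and, if `w = w'` as points is wanted, see `stWone`. -/
def stWtwo : Prop :=
  ∀ (ι X : Type) [DecidableEq ι] (R R1 R2 : X → X → Prop) (ell : X → X → ℝ) (pt : ι → X)
    (J : Set X) (w w' : ι) (l1 l2 : List ι),
    (w :: l1 ++ w' :: l2).Nodup → l1 ≠ [] → l2 ≠ [] →
    (∀ x y, 0 ≤ ell x y) → (∀ x y, ell x y = ell y x) →
    (∀ x y, R x y ↔ (R1 x y ∨ R2 x y)) → (∀ x y, R1 x y → R1 y x) → (∀ x y, R2 x y → R2 y x) →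
    (∀ x y z, R1 x y → R2 x z → x ∈ J) →
    (∀ x ∈ J, ∀ y ∈ J, R1 x y ∧ R2 x y ∧ ell x y = 0) →
    pt w ∈ J → pt w' ∈ J →
    (∀ i ∈ l1, pt i ∈ J ∨ ∀ z, ¬ R2 (pt i) z) → (∀ i ∈ l2, pt i ∈ J ∨ ∀ z, ¬ R1 (pt i) z) →
    (∀ i ∈ w :: l1, ∃ S, Net R1 S ∧ Joins S {pt w, pt i}) →
    (∀ i ∈ w' :: l2, ∃ S, Net R2 S ∧ Joins S {pt w', pt i}) →
    Good R1 ell pt (w :: l1) → Good R2 ell pt (w' :: l2) → Good R ell pt (w :: l1 ++ w' :: l2)

/-- (W) wedge lemma with a single junction vertex `w` -/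
def stWone : Prop :=
  ∀ (ι X : Type) [DecidableEq ι] (R R1 R2 : X → X → Prop) (ell : X → X → ℝ) (pt : ι → X)
    (J : Set X) (w : ι) (l1 l2 : List ι),
    (w :: l1 ++ l2).Nodup → l1 ≠ [] → l2 ≠ [] →
    (∀ x y, 0 ≤ ell x y) → (∀ x y, ell x y = ell y x) →
    (∀ x y, R x y ↔ (R1 x y ∨ R2 x y)) → (∀ x y, R1 x y → R1 y x) → (∀ x y, R2 x y → R2 y x) →
    (∀ x y z, R1 x y → R2 x z → x ∈ J) →
    (∀ x ∈ J, ∀ y ∈ J, R1 x y ∧ R2 x y ∧ ell x y = 0) →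
    pt w ∈ J →
    (∀ i ∈ l1, pt i ∈ J ∨ ∀ z, ¬ R2 (pt i) z) → (∀ i ∈ l2, pt i ∈ J ∨ ∀ z, ¬ R1 (pt i) z) →
    (∀ i ∈ w :: l1, ∃ S, Net R1 S ∧ Joins S {pt w, pt i}) →
    (∀ i ∈ w :: l2, ∃ S, Net R2 S ∧ Joins S {pt w, pt i}) →
    Good R1 ell pt (w :: l1) → Good R2 ell pt (w :: l2) → Good R ell pt (w :: l1 ++ l2)

/-- (Z) two adjacent marked points at distance zero -/
def stZ : Prop :=
  ∀ (ι X : Type) [DecidableEq ι] (R : X → X → Prop) (ell : X → X → ℝ) (pt : ι → X)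
    (v1 v2 : ι) (l : List ι),
    (v1 :: v2 :: l).Nodup → l ≠ [] →
    (∀ x y, 0 ≤ ell x y) → (∀ x y, ell x y = ell y x) → (∀ x y, R x y → R y x) →
    R (pt v1) (pt v2) → ell (pt v1) (pt v2) = 0 →
    (∀ i ∈ v2 :: l, ∃ S, Net R S ∧ Joins S {pt v2, pt i}) →
    Good R ell pt (v2 :: l) → Good R ell pt (v1 :: v2 :: l)

/-- transfer of `Good` along comparison of distances and Steiner lengths -/
def stGoodMono : Prop :=
  ∀ (ι X X' : Type) [DecidableEq ι] (R : X → X → Prop) (ell : X → X → ℝ) (pt : ι → X)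
    (R' : X' → X' → Prop) (ell' : X' → X' → ℝ) (pt' : ι → X') (l : List ι),
    (∀ i ∈ l, ∀ j ∈ l, 0 ≤ St R ell {pt i, pt j} ∧
      St R ell {pt i, pt j} ≤ St R' ell' {pt' i, pt' j}) →
    (∀ A : Finset ι, (∀ a ∈ A, a ∈ l) →
      St R' ell' (pt' '' (A : Set ι)) ≤ St R ell (pt '' (A : Set ι))) →
    Good R' ell' pt' l → Good R ell pt l

/-- (C) cut lemma -/
def stCut : Prop :=
  ∀ (ι : Type) [DecidableEq ι] (w u : ι) (l1 l2 : List ι) (A A1 A2 : Finset ι)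
    (F : Finset (ι × ι)),
    (w :: l1 ++ u :: l2).Nodup → Cfg (w :: l1 ++ u :: l2) A F →
    A1 ∪ A2 = A → A1 ∩ A2 = {w} → (∀ a ∈ A1, a ∈ w :: l1 ++ [u]) → (∀ a ∈ A2, a ∈ u :: l2 ++ [w]) →
    A1 ≠ {w} → A2 ≠ {w} →
    ∃ F1 F2 : Finset (ι × ι), Cfg (w :: l1 ++ [u]) A1 F1 ∧ Cfg (u :: l2 ++ [w]) A2 F2 ∧
      ∀ d d1 d2 : ι → ι → ℝ, (∀ i j, 0 ≤ d i j) →
        (∀ i ∈ w :: l1 ++ [u], ∀ j ∈ w :: l1 ++ [u], d i j ≤ d1 i j) →
        (∀ i ∈ u :: l2 ++ [w], ∀ j ∈ u :: l2 ++ [w], d i j ≤ d2 i j) →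
        MST (w :: l1 ++ u :: l2) d F ≤ MST (w :: l1 ++ [u]) d1 F1 + MST (u :: l2 ++ [w]) d2 F2

/-- (M2a, combinatorial part) making a passive vertex active strictly increases `MST` -/
def stActivate : Prop :=
  ∀ (ι : Type) [DecidableEq ι] (l : List ι) (A : Finset ι) (F : Finset (ι × ι)) (w : ι)
    (d : ι → ι → ℝ), l.Nodup → 2 ≤ l.length → Cfg l A F → w ∈ l → w ∉ A →
    (∀ i j, 0 ≤ d i j) → (∀ i j, d i j = d j i) → (∀ i ∈ l, ∀ j ∈ l, i ≠ j → 0 < d i j) →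
    ∃ F' : Finset (ι × ι), Cfg l (insert w A) F' ∧ MST l d F < MST l d F'

/-! ## Chapter A: the polygon as a metric space, flips, degenerate polygons -/

/-- (A1) any two points can be joined -/
def stJoin : Prop :=
  ∀ (ι : Type) [Fintype ι] [DecidableEq ι] (l : List ι) (T : Set (ι × ι × ι)), Tri l T →
    ∀ x y, IsPt l T x → IsPt l T y → ∃ S, Net (Seg l T) S ∧ Joins S {x, y}

/-- (A2) `ds` is a pseudometric on the points, `‖pos x - pos y‖ ≤ ds x y`, `≤ lenP` on cells -/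
def stDs : Prop :=
  ∀ (ι : Type) [Fintype ι] [DecidableEq ι] (l : List ι) (T : Set (ι × ι × ι)) (P : ι → ℂ),
    Tri l T →
    (∀ x y, 0 ≤ ds l T P x y) ∧ (∀ x y, ds l T P x y = ds l T P y x) ∧
    (∀ x, IsPt l T x → ds l T P x x = 0) ∧
    (∀ x y z, IsPt l T x → IsPt l T y → IsPt l T z → ds l T P x z ≤ ds l T P x y + ds l T P y z) ∧
    (∀ x y, IsPt l T x → IsPt l T y → lenP P x y ≤ ds l T P x y) ∧
    (∀ x y, Seg l T x y → ds l T P x y = lenP P x y)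

/-- (A3) joint continuity of the distance (the triangulation fixed) -/
def stCont : Prop :=
  ∀ (ι : Type) [Fintype ι] [DecidableEq ι] (l : List ι) (T : Set (ι × ι × ι)), Tri l T →
    ∀ (P : ι → ℂ) (x y : ι → ℝ), IsPt l T x → IsPt l T y →
    ∀ ε > 0, ∃ δ > 0, ∀ (P' : ι → ℂ) (x' y' : ι → ℝ), IsPt l T x' → IsPt l T y' →
      (∀ v, ‖P' v - P v‖ < δ) → (∀ v, |x' v - x v| < δ) → (∀ v, |y' v - y v| < δ) →
      |ds l T P' x' y' - ds l T P x y| < ε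

/-- (A4) continuity of the Steiner length and of the spanning cost in `P` -/
def stContL : Prop :=
  ∀ (ι : Type) [Fintype ι] [DecidableEq ι] (l : List ι) (T : Set (ι × ι × ι)), Tri l T →
    ∀ (P : ι → ℂ) (A : Finset ι) (F : Finset (ι × ι)), (∀ a ∈ A, a ∈ l) → A.Nonempty →
    ∀ ε > 0, ∃ δ > 0, ∀ (P' : ι → ℂ), (∀ v, ‖P' v - P v‖ < δ) →
      |L l T P' A - L l T P A| < ε ∧ |M l T P' F - M l T P F| < ε

/-- (A5) flips of weakly positive triangulations: again a weakly positive triangulation, the same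
Steiner lengths and distances of vertices, symmetric -/
def stFlip : Prop :=
  ∀ (ι : Type) [Fintype ι] [DecidableEq ι] (l : List ι) (T T' : Set (ι × ι × ι)) (P : ι → ℂ),
    Tri l T → WPos P T → Flip P T T' → Tri l T' ∧ WPos P T' ∧ Flip P T' T ∧
      (∀ A : Finset ι, (∀ a ∈ A, a ∈ l) → L l T' P A = L l T P A) ∧
      (∀ i ∈ l, ∀ j ∈ l, dd l T' P i j = dd l T P i j)

/-- (A6) an edge cuts the polygon in two polygons -/
def stSide : Prop :=
  ∀ (ι : Type) [DecidableEq ι] (l : List ι) (T : Set (ι × ι × ι)) (w u : ι)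
    (l1 l2 : List ι), Tri l T → Edge l T w u → l ~r (w :: l1 ++ u :: l2) →
    ∃ T1 T2, Tri (w :: l1 ++ [u]) T1 ∧ Tri (u :: l2 ++ [w]) T2 ∧ T = T1 ∪ T2

/-- (Deg) degenerate polygons are good by induction or flip equivalent to positive ones -/
def stDeg : Prop :=
  ∀ n, 3 ≤ n → IH n → ∀ (ι : Type) [Fintype ι] [DecidableEq ι] (l : List ι)
    (T : Set (ι × ι × ι)) (P : ι → ℂ), Tri l T → l.length = n → WPos P T →
    GoodP l T P ∨ ∃ T', Eqv P T T' ∧ Pos P T'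

/-- (Rel) it suffices to treat `Fin n` with the list `0, ..., n-1` -/
def stRel : Prop :=
  ∀ n, 2 ≤ n → (∀ (T : Set (Fin n × Fin n × Fin n)) (P : Fin n → ℂ), Tri (List.finRange n) T →
    WPos P T → GoodP (List.finRange n) T P) → GG n

/-! ## Chapter C: geometry of positive polygons -/

/-- (3.1) -/
def stStraight : Prop :=
  ∀ (ι : Type) [Fintype ι] [DecidableEq ι] (l : List ι) (T : Set (ι × ι × ι)) (P : ι → ℂ),
    Tri l T → Pos P T → ∀ x y, IsPt l T x → IsPt l T y → Clear l T P x y →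
    ds l T P x y = lenP P x y

/-- (3.3) chord insertion -/
def stChord : Prop :=
  ∀ (ι : Type) [Fintype ι] [DecidableEq ι] (l : List ι) (T : Set (ι × ι × ι)) (P : ι → ℂ),
    Tri l T → Pos P T → ∀ v ∈ l, ∀ w ∈ l, v ≠ w → Clear l T P (vx v) (vx w) →
    ∃ T', Eqv P T T' ∧ Pos P T' ∧ Tri l T' ∧ Edge l T' v w ∧
      ∀ a b, Edge l T a b → ¬ Inter l v w a b → Edge l T' a b

/-- (3.6) folding over an edge: Steiner length in the side polygon, and its distances are larger -/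
def stSideL : Prop :=
  ∀ (ι : Type) [Fintype ι] [DecidableEq ι] (l : List ι) (T T1 T2 : Set (ι × ι × ι)) (P : ι → ℂ)
    (w u : ι) (l1 l2 : List ι), Tri l T → Pos P T → l = w :: l1 ++ u :: l2 →
    Tri (w :: l1 ++ [u]) T1 → Tri (u :: l2 ++ [w]) T2 → T = T1 ∪ T2 →
    (∀ A : Finset ι, (∀ a ∈ A, a ∈ w :: l1 ++ [u]) → L (w :: l1 ++ [u]) T1 P A ≤ L l T P A) ∧
    (∀ A : Finset ι, (∀ a ∈ A, a ∈ u :: l2 ++ [w]) → L (u :: l2 ++ [w]) T2 P A ≤ L l T P A) ∧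
    (∀ i ∈ w :: l1 ++ [u], ∀ j ∈ w :: l1 ++ [u], dd l T P i j ≤ dd (w :: l1 ++ [u]) T1 P i j) ∧
    (∀ i ∈ u :: l2 ++ [w], ∀ j ∈ u :: l2 ++ [w], dd l T P i j ≤ dd (u :: l2 ++ [w]) T2 P i j)

/-- (3.7) pinch -/
def stPinch : Prop :=
  ∀ (ι : Type) [Fintype ι] [DecidableEq ι] (l : List ι) (T : Set (ι × ι × ι)) (P : ι → ℂ),
    Tri l T → Pos P T → ∀ (w b u : ι) (l1 l1' l2 : List ι),
    l ~r (w :: l1 ++ b :: l1' ++ u :: l2) → dd l T P w b + dd l T P b u = dd l T P w u →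
    ∀ A1 A2 : Finset ι, (∀ a ∈ A1, a ∈ w :: l1 ++ [b]) → (∀ a ∈ A2, a ∈ b :: l1' ++ [u]) →
      A1.Nonempty → A2.Nonempty →
      (L l T P (insert b A1) + L l T P (insert b A2) ≤ L l T P (A1 ∪ A2))

/-- (3.8) K4: a convex passive vertex -/
def stK4 : Prop :=
  ∀ n, 3 ≤ n → IH n → ∀ (ι : Type) [Fintype ι] [DecidableEq ι] (l : List ι)
    (T : Set (ι × ι × ι)) (P : ι → ℂ), Tri l T → l.length = n → Pos P T →
    ∀ (A : Finset ι) (F : Finset (ι × ι)), Cfg l A F → ∀ v ∈ l, v ∉ A → ang T P v < Real.pi →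
      rho * M l T P F ≤ L l T P A

/-- (4.1) bound: if every passive vertex has angle at least `π` -/
def stBound : Prop :=
  ∀ (ι : Type) [Fintype ι] [DecidableEq ι] (l : List ι)
    (T : Set (ι × ι × ι)) (P : ι → ℂ), Tri l T → Pos P T →
    ∀ A : Finset ι, (∀ a ∈ A, a ∈ l) → 2 ≤ A.card → (∀ v ∈ l, v ∉ A → Real.pi ≤ ang T P v) →
    ∀ i ∈ l, ∀ j ∈ l, dd l T P i j ≤ 3 * L l T P A

/-- (3.9) planarity: networks with interlaced ends meet: there are segments `(x,y)` of the first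
and `(x',y')` of the second network with a common point `z` -/
def stPlanar : Prop :=
  ∀ (ι : Type) [Fintype ι] [DecidableEq ι] (l : List ι) (T : Set (ι × ι × ι)), Tri l T →
    ∀ (w q p p' : ι), Inter l w q p p' →
    ∀ S S' : List ((ι → ℝ) × (ι → ℝ)), Net (Seg l T) S → Net (Seg l T) S' →
      Joins S {vx p, vx p'} → Joins S' {vx w, vx q} →
      ∃ xy ∈ S, ∃ xy' ∈ S', ∃ z, z ∈ segment ℝ xy.1 xy.2 ∧ z ∈ segment ℝ xy'.1 xy'.2

/-- (4.5),(4.6) variation of the Steiner length. `hT` = nothing passive is touched,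
`hS` = no splitting -/
def stVar : Prop :=
  ∀ (ι : Type) [Fintype ι] [DecidableEq ι] (l : List ι) (T : Set (ι × ι × ι)) (P : ι → ℂ),
    Tri l T → Pos P T → (∀ v, v ∈ l) → ∀ A : Finset ι, 3 ≤ A.card →
    (∀ w, L l T P (insert w A) ≤ L l T P A → w ∈ A) →
    (∀ (w q q' : ι) (l1 l2 l3 : List ι), l ~r (w :: l1 ++ q :: l2 ++ q' :: l3) →
      w ∈ A → q ∈ A → q' ∈ A → (∀ a ∈ A, a ∉ l2) →
      L l T P A < L l T P (A.filter (· ∈ w :: l1 ++ [q])) +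
        L l T P (A.filter (· ∈ q' :: l3 ++ [w]))) →
    ∃ u : ι → ℂ, (∀ v ∉ A, u v = 0) ∧ (∀ v ∈ A, ‖u v‖ = 1) ∧ (∑ v, u v = 0) ∧
      (∑ v, cr (P v) (u v) = 0) ∧ (∑ v, dt (P v) (u v) = L l T P A) ∧
      (∀ V : ι → ℂ, ∃ C ε : ℝ, 0 < ε ∧ ∀ t : ℝ, |t| < ε →
        L l T (fun v => P v + t * V v) A ≤ L l T P A + t * ∑ v, dt (V v) (u v) + C * t ^ 2) ∧
      (∀ V : ι → ℂ, ∑ v, cr (V v) (u v) = 0 → ∃ ε : ℝ, 0 < ε ∧ ∀ t : ℝ, |t| < ε →
        L l T (fun v => P v + t * V v) A ≤ L l T P A + t * ∑ v, dt (V v) (u v))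

/-! ## Chapter D: the minimiser -/

/-- minimiser of the ratio `r` among all weakly positive polygons with `n` vertices -/
structure IsMinr (n : ℕ) (r : ℝ) (T : Set (Fin n × Fin n × Fin n)) (P : Fin n → ℂ)
    (A : Finset (Fin n)) (F : Finset (Fin n × Fin n)) : Prop where
  tri : Tri (List.finRange n) T
  pos : Pos P T
  cfg : Cfg (List.finRange n) A F
  Mpos : 0 < M (List.finRange n) T P F
  eq : L (List.finRange n) T P A = r * M (List.finRange n) T P F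
  rpos : 0 < r
  rlt : r < rho
  min : ∀ T' P' A' F', Tri (List.finRange n) T' → WPos P' T' → Cfg (List.finRange n) A' F' →
    r * M (List.finRange n) T' P' F' ≤ L (List.finRange n) T' P' A'

/-- sum of all squared mutual distances of developed positions -/
def Gf {n : ℕ} (P : Fin n → ℂ) : ℝ := ∑ i, ∑ j, ‖P i - P j‖ ^ 2

/-- (4.2) existence of a minimiser with maximal `Gf` -/
def stMin : Prop :=
  ∀ n, 3 ≤ n → IH n → (∃ T P, Tri (List.finRange n) T ∧ WPos P T ∧ ¬ GoodP (List.finRange n) T P) →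
    ∃ r T P A F, IsMinr n r T P A F ∧ L (List.finRange n) T P A = 1 ∧
      ∀ T' P' A' F', IsMinr n r T' P' A' F' → L (List.finRange n) T' P' A' = 1 → Gf P' ≤ Gf P

/-- (4.3) nothing passive is touched -/
def stTouch : Prop :=
  ∀ n, 3 ≤ n → ∀ r T P A F, IsMinr n r T P A F →
    ∀ w, L (List.finRange n) T P (insert w A) ≤ L (List.finRange n) T P A → w ∈ A

/-- (4.4) no splitting -/
def stNoSplit : Prop :=
  ∀ n, 3 ≤ n → IH n → ∀ r T P A F, IsMinr n r T P A F →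
    ∀ (w q q' : Fin n) (l1 l2 l3 : List (Fin n)),
      List.finRange n ~r (w :: l1 ++ q :: l2 ++ q' :: l3) →
      w ∈ A → q ∈ A → q' ∈ A → (∀ a ∈ A, a ∉ l2) →
      L (List.finRange n) T P A <
        L (List.finRange n) T P (A.filter (· ∈ w :: l1 ++ [q])) +
        L (List.finRange n) T P (A.filter (· ∈ q' :: l3 ++ [w]))

/-- at least three active vertices -/
def stThree : Prop := ∀ n, 3 ≤ n → ∀ r T P A F, IsMinr n r T P A F → 3 ≤ A.card

/-- minimal spanning sets, oriented `p.1 < p.2` -/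
def mins {n : ℕ} (T : Set (Fin n × Fin n × Fin n)) (P : Fin n → ℂ) (F : Finset (Fin n × Fin n)) :
    Set (Finset (Fin n × Fin n)) :=
  {m | (∀ p ∈ m, p.1 < p.2) ∧ Spans (List.finRange n) F m ∧
    ∑ p ∈ m, dd (List.finRange n) T P p.1 p.2 = M (List.finRange n) T P F}

open Classical in
/-- union of all minimal spanning sets -/
def Gam {n : ℕ} (T : Set (Fin n × Fin n × Fin n)) (P : Fin n → ℂ) (F : Finset (Fin n × Fin n)) :
    Finset (Fin n × Fin n) := Finset.univ.filter fun p => ∃ m ∈ mins T P F, p ∈ m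

/-- (4.7a) basic facts on minimal spanning sets of a positive polygon -/
def stGam : Prop :=
  ∀ n, 3 ≤ n → ∀ (T : Set (Fin n × Fin n × Fin n)) (P : Fin n → ℂ) (A : Finset (Fin n))
    (F : Finset (Fin n × Fin n)), Tri (List.finRange n) T → Pos P T →
    Cfg (List.finRange n) A F → 2 ≤ A.card →
    (mins T P F).Nonempty ∧
    (∀ m ∈ mins T P F, m.card = A.card - 1) ∧ F.card = n - A.card ∧
    (∀ p ∈ Gam T P F, Clear (List.finRange n) T P (vx p.1) (vx p.2) ∧ p ∉ F ∧ (p.2, p.1) ∉ F ∧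
      dd (List.finRange n) T P p.1 p.2 = ‖ev P p‖) ∧
    (∀ p ∈ Gam T P F, ∀ q ∈ Gam T P F, ¬ Inter (List.finRange n) p.1 p.2 q.1 q.2) ∧
    (∀ m ∈ mins T P F, ∀ m' ∈ mins T P F, ∀ s : ℝ,
      (m.filter fun p => ‖ev P p‖ = s).card = (m'.filter fun p => ‖ev P p‖ = s).card) ∧
    (∀ V : Fin n → ℂ, ∃ ε : ℝ, 0 < ε ∧ ∀ t : ℝ, |t| < ε → ∃ m ∈ mins T P F,
      ∑ p ∈ m, ‖ev P p + t * ev V p‖ ≤ M (List.finRange n) T (fun v => P v + t * V v) F)

/-- data handed over to the linear algebra part -/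
structure Dat (n : ℕ) (r : ℝ) (T : Set (Fin n × Fin n × Fin n)) (P : Fin n → ℂ)
    (A : Finset (Fin n)) (F : Finset (Fin n × Fin n)) (u : Fin n → ℂ) : Prop where
  minr : IsMinr n r T P A F
  one : L (List.finRange n) T P A = 1
  max : ∀ T' P' A' F', IsMinr n r T' P' A' F' → L (List.finRange n) T' P' A' = 1 → Gf P' ≤ Gf P
  card : 3 ≤ A.card
  u0 : ∀ v ∉ A, u v = 0
  u1 : ∀ v ∈ A, ‖u v‖ = 1
  usum : ∑ v, u v = 0
  tor : ∑ v, cr (P v) (u v) = 0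
  len : ∑ v, dt (P v) (u v) = 1
  var : ∀ V : Fin n → ℂ, ∃ C ε : ℝ, 0 < ε ∧ ∀ t : ℝ, |t| < ε →
    L (List.finRange n) T (fun v => P v + t * V v) A ≤ 1 + t * ∑ v, dt (V v) (u v) + C * t ^ 2
  varx : ∀ V : Fin n → ℂ, ∑ v, cr (V v) (u v) = 0 → ∃ ε : ℝ, 0 < ε ∧ ∀ t : ℝ, |t| < ε →
    L (List.finRange n) T (fun v => P v + t * V v) A ≤ 1 + t * ∑ v, dt (V v) (u v)

/-- (M3) -/
def stM3 : Prop :=
  ∀ n, 3 ≤ n → ∀ r T P A F u, Dat n r T P A F u → ∃ m ∈ mins T P F,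
    ∀ (V : Fin n → ℂ) (lam : ℝ → ℝ), ∑ v, cr (V v) (u v) = 0 →
      (∀ p ∈ Gam T P F, dt (ev V p) (ev P p) = lam ‖ev P p‖ * ‖ev P p‖ ^ 2) →
      ∀ p ∈ m, cr (ev V p) (ev P p) = 0

/-- (M4) equilibrium -/
def stM4 : Prop :=
  ∀ n, 3 ≤ n → ∀ r T P A F u, Dat n r T P A F u →
    ∃ y : Fin n × Fin n → ℝ, (∀ p, 0 ≤ y p ∧ y p ≤ 1) ∧ ∀ V : Fin n → ℂ,
      r * ∑ p ∈ Gam T P F, y p * (dt (ev V p) (ev P p) / ‖ev P p‖) = ∑ v, dt (V v) (u v)

/-- (M4') every active vertex has at least two `Gam`-edges -/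
def stM4' : Prop :=
  ∀ n, 3 ≤ n → ∀ r T P A F u, Dat n r T P A F u → ∀ v ∈ A,
    2 ≤ ((Gam T P F).filter fun p => p.1 = v ∨ p.2 = v).card

/-- (M5) `Gam` is connected -/
def stM5 : Prop :=
  ∀ n, 3 ≤ n → ∀ r T P A F u, Dat n r T P A F u →
    ∀ i j : Fin n, EqvGen (fun a b => (a, b) ∈ Gam T P F) i j

/-- (M6) -/
def stM6 : Prop :=
  ∀ n, 3 ≤ n → ∀ r T P A F u, Dat n r T P A F u → 2 * n - 3 ≤ (Gam T P F).card + F.card

/-- (4.7b) `Gam` lies in an equivalent triangulation; if there are enough edges it is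
everything: we may replace `T` (same distances, same `mins`) -/
def stGamT : Prop :=
  ∀ n, 3 ≤ n → ∀ r T P A F u, Dat n r T P A F u → 2 * n - 3 ≤ (Gam T P F).card + F.card →
    ∃ T' u', Dat n r T' P A F u' ∧ Gam T' P F = Gam T P F ∧
      ∀ a b : Fin n, Edge (List.finRange n) T' a b ↔
        ((a, b) ∈ Gam T' P F ∨ (b, a) ∈ Gam T' P F ∨ (a, b) ∈ F ∨ (b, a) ∈ F)

/-- (M7) -/
def stM7 : Prop :=
  ∀ n, 3 ≤ n → IH n → ∀ r T P A F u, Dat n r T P A F u →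
    (∀ a b : Fin n, Edge (List.finRange n) T a b ↔
        ((a, b) ∈ Gam T P F ∨ (b, a) ∈ Gam T P F ∨ (a, b) ∈ F ∨ (b, a) ∈ F)) → F = ∅

/-- (M8) -/
def stM8 : Prop :=
  ∀ n, 3 ≤ n → ∀ r T P A u, Dat n r T P A ∅ u →
    (∀ a b : Fin n, Edge (List.finRange n) T a b ↔
        ((a, b) ∈ Gam T P ∅ ∨ (b, a) ∈ Gam T P ∅)) →
    ∃ s : ℝ, 0 < s ∧ ∀ a b : Fin n, Edge (List.finRange n) T a b → ‖P a - P b‖ = s

/-- (M9) equilateral polygons are good -/
def stM9 : Prop :=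
  ∀ n, 3 ≤ n → ∀ (T : Set (Fin n × Fin n × Fin n)) (P : Fin n → ℂ) (s : ℝ),
    Tri (List.finRange n) T → Pos P T → 0 < s →
    (∀ a b : Fin n, Edge (List.finRange n) T a b → ‖P a - P b‖ = s) →
    rho * M (List.finRange n) T P ∅ ≤ L (List.finRange n) T P Finset.univ

/-- two vertices -/
def stTwo : Prop := GG 2

/-- the inequality for all polygons -/
def stG : Prop := ∀ n, 2 ≤ n → GG n

end Helper9.GP
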